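import Pool.Agent.K7.H25.SB.Stm

/-!
# Project SB, job CUT
-/

set_option autoImplicit false

open Set

namespace Pool.Agent.K7.H66.SB

open Pool.Agent.K7.H25.SB

/-- symmetric form of the separation argument -/
lemma precon_of {X : Type*} [TopologicalSpace X] {s : Set X} {P : Set X → Prop}
    (hP : ∀ t t', IsClosed t → IsClosed t' → s ⊆ t ∪ t' → s ∩ (t ∩ t') = ∅ → P t ∨ P t')
    (h : ∀ t t', IsClosed t → IsClosed t' → s ⊆ t ∪ t' → s ∩ (t ∩ t') = ∅ → P t →
      (s ∩ t').Nonempty → False) : IsPreconnected s := by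
  rw [isPreconnected_closed_iff]
  intro t t' ht ht' hst h1 h2
  by_contra hne
  rw [not_nonempty_iff_eq_empty] at hne
  rcases hP t t' ht ht' hst hne with h3 | h3
  · exact h t t' ht ht' hst hne h3 h2
  · exact h t' t ht' ht (by rwa [union_comm]) (by rwa [inter_comm t' t]) h3 h1

theorem stCut : StCut := by
  intro T F G z hT hTc hG hF hGF hz
  have hzm : z ∈ T ∩ (F \ G) := by rw [hz]; exact mem_singleton z
  have hz1 : ∀ x ∈ T, x ∈ F → x ∉ G → x = z := by
    intro x hx hxF hxG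
    have : x ∈ T ∩ (F \ G) := ⟨hx, hxF, hxG⟩
    rw [hz] at this
    exact this
  constructor
  · refine precon_of (P := fun t => z ∈ t) ?_ ?_
    · intro t t' _ _ hst _
      exact hst ⟨hzm.1, hzm.2.1⟩
    · intro t t' ht ht' hst hne hzt hnt'
      have hzt' : z ∉ t' := fun h => by
        have : z ∈ T ∩ F ∩ (t ∩ t') := ⟨⟨hzm.1, hzm.2.1⟩, hzt, h⟩
        rw [hne] at this
        exact this
      have h1 := isPreconnected_closed_iff.1 hTc (T ∩ F ∩ t') ((T ∩ F ∩ t) ∪ (T \ G))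
        ((hT.inter hF).inter ht') (((hT.inter hF).inter ht).union (hT.sdiff hG))
        (by
          intro x hx
          by_cases hxF : x ∈ F
          · rcases hst ⟨hx, hxF⟩ with h | h
            · exact Or.inr (Or.inl ⟨⟨hx, hxF⟩, h⟩)
            · exact Or.inl ⟨⟨hx, hxF⟩, h⟩
          · exact Or.inr (Or.inr ⟨hx, fun h => hxF (hGF h)⟩))
        (by
          obtain ⟨x, hx⟩ := hnt'
          exact ⟨x, hx.1.1, hx⟩)
        ⟨z, hzm.1, Or.inl ⟨⟨hzm.1, hzm.2.1⟩, hzt⟩⟩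
      obtain ⟨x, hxT, hx2, hx3⟩ := h1
      rcases hx3 with hx3 | hx3
      · have : x ∈ T ∩ F ∩ (t ∩ t') := ⟨hx2.1, hx3.2, hx2.2⟩
        rw [hne] at this
        exact this
      · have := hz1 x hxT hx2.1.2 hx3.2
        rw [this] at hx2
        exact hzt' hx2.2
  · refine precon_of (P := fun t => z ∈ t) ?_ ?_
    · intro t t' _ _ hst _
      exact hst ⟨hzm.1, hzm.2.2⟩
    · intro t t' ht ht' hst hne hzt hnt'
      have hzt' : z ∉ t' := fun h => by
        have : z ∈ T \ G ∩ (t ∩ t') := ⟨⟨hzm.1, hzm.2.2⟩, hzt, h⟩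
        rw [hne] at this
        exact this
      have h1 := isPreconnected_closed_iff.1 hTc (T \ G ∩ t') ((T \ G ∩ t) ∪ (T ∩ F))
        ((hT.sdiff hG).inter ht') (((hT.sdiff hG).inter ht).union (hT.inter hF))
        (by
          intro x hx
          by_cases hxG : x ∈ G
          · exact Or.inr (Or.inr ⟨hx, hGF hxG⟩)
          · rcases hst ⟨hx, hxG⟩ with h | h
            · exact Or.inr (Or.inl ⟨⟨hx, hxG⟩, h⟩)
            · exact Or.inl ⟨⟨hx, hxG⟩, h⟩)
        (by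
          obtain ⟨x, hx⟩ := hnt'
          exact ⟨x, hx.1.1, hx⟩)
        ⟨z, hzm.1, Or.inl ⟨⟨hzm.1, hzm.2.2⟩, hzt⟩⟩
      obtain ⟨x, hxT, hx2, hx3⟩ := h1
      rcases hx3 with hx3 | hx3
      · have : x ∈ T \ G ∩ (t ∩ t') := ⟨hx2.1, hx3.2, hx2.2⟩
        rw [hne] at this
        exact this
      · have := hz1 x hxT hx3.2 hx2.1.2
        rw [this] at hx2
        exact hzt' hx2.2

theorem stSurg : StSurg := by
  intro T K V F hT hTc hV hF hVF hK hKc hKne hTK hTF
  refine precon_of (P := fun t => K ⊆ t) ?_ ?_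
  · intro t t' ht ht' hst hne
    by_contra hcon
    push Not at hcon
    obtain ⟨x, hxK, hxt⟩ := not_subset.1 hcon.1
    obtain ⟨y, hyK, hyt⟩ := not_subset.1 hcon.2
    have h1 := isPreconnected_closed_iff.1 hKc t t' ht ht'
      (fun w hw => hst (Or.inr hw))
      ⟨y, hyK, (hst (Or.inr hyK)).resolve_right hyt⟩
      ⟨x, hxK, (hst (Or.inr hxK)).resolve_left hxt⟩
    obtain ⟨w, hw, hw2⟩ := h1
    have : w ∈ (T \ V ∪ K) ∩ (t ∩ t') := ⟨Or.inr hw, hw2⟩
    rw [hne] at this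
    exact this
  · intro t t' ht ht' hst hne hKt hnt'
    have hKt' : ∀ x ∈ K, x ∉ t' := fun x hx h => by
      have : x ∈ (T \ V ∪ K) ∩ (t ∩ t') := ⟨Or.inr hx, hKt hx, h⟩
      rw [hne] at this
      exact this
    have h1 := isPreconnected_closed_iff.1 hTc (T \ V ∩ t') ((T \ V ∩ t) ∪ (T ∩ F))
      ((hT.sdiff hV).inter ht') (((hT.sdiff hV).inter ht).union (hT.inter hF))
      (by
        intro x hx
        by_cases hxV : x ∈ V
        · exact Or.inr (Or.inr ⟨hx, hVF hxV⟩)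
        · rcases hst (Or.inl ⟨hx, hxV⟩) with h | h
          · exact Or.inr (Or.inl ⟨⟨hx, hxV⟩, h⟩)
          · exact Or.inl ⟨⟨hx, hxV⟩, h⟩)
      (by
        obtain ⟨x, hx | hx, hx2⟩ := hnt'
        · exact ⟨x, hx.1, hx, hx2⟩
        · exact (hKt' x hx hx2).elim)
      (by
        obtain ⟨x, hx⟩ := hTF
        exact ⟨x, hx.1, Or.inr hx⟩)
    obtain ⟨x, hxT, hx2, hx3⟩ := h1
    rcases hx3 with hx3 | hx3
    · have : x ∈ (T \ V ∪ K) ∩ (t ∩ t') := ⟨Or.inl hx2.1, hx3.2, hx2.2⟩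
      rw [hne] at this
      exact this
    · exact hKt' x (hTK ⟨hxT, hx3.2, hx2.1.2⟩) hx2.2

end Pool.Agent.K7.H66.SB
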