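import Pool.Agent.K7.H25.SB.Stm

/-!
# Project SB, job TRUNC
-/

set_option autoImplicit false

open scoped MeasureTheory ENNReal Topology InnerProductSpace
open MeasureTheory Set Filter Metric

namespace Pool.Agent.K7.H66.SB

open Pool.Agent.K7.H25.SB Pool.Agent.R154.Steiner

lemma seg_eq (q u : Pl) {a b : ℝ} (h : a ≤ b) :
    segment ℝ (q + a • u) (q + b • u) = (fun σ : ℝ => q + σ • u) '' Icc a b := by
  have h1 := image_segment ℝ (AffineMap.lineMap q (q + u) : ℝ →ᵃ[ℝ] Pl) a b
  rw [segment_eq_Icc h] at h1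
  have h2 : ∀ σ : ℝ, (AffineMap.lineMap q (q + u) : ℝ →ᵃ[ℝ] Pl) σ = q + σ • u := by
    intro σ
    rw [AffineMap.lineMap_apply]
    simp [add_comm]
  rw [h2, h2] at h1
  rw [← h1]
  exact image_congr fun σ _ => h2 σ

lemma dist_pt (q : Pl) {u : Pl} (hu : ‖u‖ = 1) (σ ρ : ℝ) :
    dist (q + σ • u) (q + ρ • u) = |σ - ρ| := by
  rw [dist_eq_norm, add_sub_add_left_eq_sub, ← sub_smul, norm_smul, hu, mul_one, Real.norm_eq_abs]

lemma seg_closed (x y : Pl) : IsClosed (segment ℝ x y) := by
  rw [segment_eq_image_lineMap]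
  exact (isCompact_Icc.image AffineMap.lineMap_continuous).isClosed

lemma pt_inj (q : Pl) {u : Pl} (hu : ‖u‖ = 1) {σ ρ : ℝ} (h : q + σ • u = q + ρ • u) : σ = ρ := by
  have h1 := dist_pt q hu σ ρ
  rw [h, dist_self] at h1
  have := abs_eq_zero.1 h1.symm
  linarith

theorem stTrunc : StTrunc := by
  intro A₀ S₀ q u κ δ l hu hκ hκδ hl hlκ hcl hcon hsub hloc huniq
  rcases eq_or_lt_of_le hlκ with rfl | hlt
  · exact huniq
  -- notation
  set Sl : Set Pl := S₀ ∪ segment ℝ q (q + l • u) with hSl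
  set Sk : Set Pl := S₀ ∪ segment ℝ q (q + κ • u) with hSk
  set Seg : Set Pl := segment ℝ (q + l • u) (q + κ • u) with hSeg
  have hq0 : q + (0 : ℝ) • u = q := by simp
  have hsegl : segment ℝ q (q + l • u) = (fun σ : ℝ => q + σ • u) '' Icc 0 l := by
    have := seg_eq q u hl
    rwa [hq0] at this
  have hsegk : segment ℝ q (q + κ • u) = (fun σ : ℝ => q + σ • u) '' Icc 0 κ := by
    have := seg_eq q u hκ.le
    rwa [hq0] at this
  have hsegm : Seg = (fun σ : ℝ => q + σ • u) '' Icc l κ := seg_eq q u hlκ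
  have hsegd : segment ℝ (q - (2 * δ) • u) q = (fun σ : ℝ => q + σ • u) '' Icc (-(2 * δ)) 0 := by
    have h1 : -(2 * δ) ≤ 0 := by linarith
    have := seg_eq q u h1
    rw [hq0, neg_smul, ← sub_eq_add_neg] at this
    exact this
  have hloc' : ∀ x ∈ S₀, dist x q ≤ 2 * δ → ∃ τ : ℝ, 0 ≤ τ ∧ x = q + (-τ) • u := by
    intro x hx hd
    have h1 : x ∈ S₀ ∩ closedBall q (2 * δ) := ⟨hx, mem_closedBall.2 hd⟩
    rw [hloc, hsegd] at h1
    obtain ⟨σ, hσ, rfl⟩ := h1
    exact ⟨-σ, by linarith [hσ.2], by rw [neg_neg]⟩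
  have hqS : q ∈ S₀ := by
    have h1 : q ∈ S₀ ∩ closedBall q (2 * δ) := by
      rw [hloc]; exact right_mem_segment ℝ _ _
    exact h1.1
  -- the ball around a point of the last piece misses `Sl`
  have hmiss : ∀ σ : ℝ, l ≤ σ → σ ≤ κ → ∀ x ∈ Sl, σ - l ≤ dist x (q + σ • u) := by
    intro σ h1 h2 x hx
    by_contra hcon
    push Not at hcon
    rcases hx with hx | hx
    · have h3 : dist x q ≤ 2 * δ := by
        have h4 : dist (q + σ • u) q = σ := by
          have := dist_pt q hu σ 0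
          rw [hq0, sub_zero, abs_of_nonneg (by linarith)] at this
          exact this
        have h5 := dist_triangle x (q + σ • u) q
        linarith
      obtain ⟨τ, hτ, rfl⟩ := hloc' x hx h3
      rw [dist_pt q hu, abs_of_nonpos (by linarith)] at hcon
      linarith
    · rw [hsegl] at hx
      obtain ⟨ρ, hρ, rfl⟩ := hx
      simp only [] at hcon
      rw [dist_pt q hu, abs_of_nonpos (by linarith [hρ.2])] at hcon
      linarith [hρ.2]
  have hdisj : Disjoint Sl (Seg \ {q + l • u}) := by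
    rw [Set.disjoint_left]
    rintro x hx ⟨hx1, hx2⟩
    rw [hsegm] at hx1
    obtain ⟨σ, hσ, rfl⟩ := hx1
    have h1 := hmiss σ hσ.1 hσ.2 _ hx
    simp only [dist_self] at h1
    have h2 : σ = l := le_antisymm (by linarith) hσ.1
    rw [h2] at hx2
    exact hx2 rfl
  have hSkeq : Sk = Sl ∪ Seg := by
    rw [hSk, hSl, union_assoc]
    congr 1
    rw [hsegk, hsegl, hsegm, ← image_union, Icc_union_Icc_eq_Icc hl hlκ]
  have hSlcl : IsClosed Sl := hcl.union (seg_closed _ _)
  have hSegcl : IsClosed Seg := seg_closed _ _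
  have hμSeg : μH[1] Seg = ENNReal.ofReal (κ - l) := by
    rw [hSeg, hausdorffMeasure_segment, edist_dist, dist_pt q hu, abs_of_nonpos (by linarith)]
    congr 1
    ring
  have hμSeg' : μH[1] (Seg \ {q + l • u}) = ENNReal.ofReal (κ - l) := by
    rw [measure_sdiff_null (noAtom _), hμSeg]
  have hμ : μH[1] Sl + ENNReal.ofReal (κ - l) ≤ μH[1] Sk := by
    rw [← hμSeg', ← measure_union hdisj (hSegcl.measurableSet.diff (measurableSet_singleton _))]
    apply measure_mono
    rw [hSkeq]
    exact union_subset_union_right _ sdiff_subset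
  have hSlSk : Sl ⊆ Sk := by rw [hSkeq]; exact subset_union_left
  have hfinl : μH[1] Sl < ⊤ := lt_of_le_of_lt (measure_mono hSlSk) huniq.1.2.2.2.1
  have hSlcon : IsConnected Sl := by
    apply IsConnected.union ⟨q, hqS, left_mem_segment ℝ _ _⟩ hcon
    exact ⟨⟨q, left_mem_segment ℝ _ _⟩, (convex_segment _ _).isPreconnected⟩
  have hlS : q + l • u ∈ Sl := Or.inr (right_mem_segment ℝ _ _)
  -- extension of admissible sets
  have hext : ∀ T : Set Pl, IsClosed T → IsConnected T → insert (q + l • u) A₀ ⊆ T →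
      IsClosed (T ∪ Seg) ∧ IsConnected (T ∪ Seg) ∧ insert (q + κ • u) A₀ ⊆ T ∪ Seg ∧
        μH[1] (T ∪ Seg) ≤ μH[1] T + ENNReal.ofReal (κ - l) := by
    intro T h1 h2 h3
    refine ⟨h1.union hSegcl, ?_, ?_, ?_⟩
    · apply IsConnected.union ⟨q + l • u, h3 (mem_insert _ _), left_mem_segment ℝ _ _⟩ h2
      exact ⟨⟨_, left_mem_segment ℝ _ _⟩, (convex_segment _ _).isPreconnected⟩
    · rintro x (rfl | hx)
      · exact Or.inr (right_mem_segment ℝ _ _)
      · exact Or.inl (h3 (mem_insert_of_mem _ hx))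
    · rw [← hμSeg]
      exact measure_union_le _ _
  have hmin : ∀ T : Set Pl, IsClosed T → IsConnected T → insert (q + l • u) A₀ ⊆ T →
      μH[1] Sl ≤ μH[1] T := by
    intro T h1 h2 h3
    obtain ⟨g1, g2, g3, g4⟩ := hext T h1 h2 h3
    have g5 := huniq.1.2.2.2.2 _ g1 g2 g3
    have g6 := hμ.trans (g5.trans g4)
    exact (ENNReal.add_le_add_iff_right ENNReal.ofReal_ne_top).1 g6
  refine ⟨⟨hSlcl, hSlcon, ?_, hfinl, hmin⟩, ?_⟩
  · rintro x (rfl | hx)
    · exact hlS
    · exact Or.inl (hsub hx)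
  · intro T hT
    obtain ⟨h1, h2, h3, h4, h5⟩ := hT
    have hTeq : μH[1] T = μH[1] Sl := by
      apply le_antisymm _ (hmin T h1 h2 h3)
      refine h5 Sl hSlcl hSlcon ?_
      rintro x (rfl | hx)
      · exact hlS
      · exact Or.inl (hsub hx)
    obtain ⟨g1, g2, g3, g4⟩ := hext T h1 h2 h3
    have hTk : T ∪ Seg = Sk := by
      apply huniq.2
      refine ⟨g1, g2, g3, ?_, ?_⟩
      · refine lt_of_le_of_lt g4 ?_
        rw [hTeq]
        exact lt_of_le_of_lt hμ huniq.1.2.2.2.1
      · intro T' k1 k2 k3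
        rw [hTeq] at g4
        exact (g4.trans hμ).trans (huniq.1.2.2.2.2 T' k1 k2 k3)
    have hsubT : Sl ⊆ T := by
      intro x hx
      have hx' : x ∈ T ∪ Seg := by rw [hTk]; exact hSlSk hx
      rcases hx' with hx' | hx'
      · exact hx'
      · by_contra hxT
        refine Set.disjoint_left.1 hdisj hx ⟨hx', ?_⟩
        rintro rfl
        exact hxT (h3 (mem_insert _ _))
    apply Subset.antisymm _ hsubT
    intro x hx
    have hx' : x ∈ Sk := by rw [← hTk]; exact Or.inl hx
    rw [hSkeq] at hx'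
    rcases hx' with hx' | hx'
    · exact hx'
    · rw [hsegm] at hx'
      obtain ⟨σ, hσ, hσx⟩ := hx'
      simp only [] at hσx
      rcases eq_or_lt_of_le hσ.1 with h | h
      · rw [← hσx, ← h]; exact hlS
      · exfalso
        have k1 : σ - l ≤ dist x (q + l • u) := by
          rw [← hσx, dist_pt q hu, abs_of_nonneg (by linarith)]
        have k2 := H_ball h2.isPreconnected hx (h3 (mem_insert _ _)) k1
        have k3 : Disjoint Sl (T ∩ ball x (σ - l)) := by
          rw [Set.disjoint_left]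
          rintro y hy ⟨_, hy2⟩
          have := hmiss σ hσ.1 hσ.2 y hy
          rw [mem_ball, ← hσx] at hy2
          linarith
        have k4 : μH[1] Sl + ENNReal.ofReal (σ - l) ≤ μH[1] T := by
          refine (add_le_add_right k2 _).trans ?_
          rw [← measure_union k3 (h1.measurableSet.inter measurableSet_ball)]
          exact measure_mono (union_subset hsubT inter_subset_left)
        rw [hTeq] at k4
        have k5 : ENNReal.ofReal (σ - l) ≤ 0 := by
          have := (ENNReal.add_le_add_iff_left hfinl.ne).1 (k4.trans (add_zero _).ge)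
          exact this
        have k6 : σ - l ≤ 0 := by
          exact ENNReal.ofReal_eq_zero.1 (nonpos_iff_eq_zero.1 k5)
        linarith

end Pool.Agent.K7.H66.SB
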