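import Mathlib
import Pool.Agent.H295R3.Hoheisel

/-! Binomial coefficients that are products of consecutive primes: the size of the primes. -/

set_option autoImplicit false

open Finset

namespace Pool.Agent.K7.H66.BB

local instance : DecidablePred Nat.Prime := Nat.decidablePrime

/-- the number of primes in an interval inside the block -/
lemma primes_le_block {a b X Z : ℕ} (hab : a < b) (h1 : Nat.nth Nat.Prime a ≤ X + 1)
    (h2 : Z ≤ Nat.nth Nat.Prime (b - 1)) :
    ((Ioc X Z).filter Nat.Prime).card ≤ b - a := by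
  rw [← Nat.card_Ico]
  apply card_le_card_of_injOn (fun p => Nat.count Nat.Prime p)
  · intro p hp
    rw [mem_coe, mem_filter, mem_Ioc] at hp
    rw [mem_coe, mem_Ico]
    have e : Nat.nth Nat.Prime (Nat.count Nat.Prime p) = p := Nat.nth_count hp.2
    constructor
    · by_contra hh
      push Not at hh
      have : Nat.nth Nat.Prime (Nat.count Nat.Prime p) < Nat.nth Nat.Prime a :=
        Nat.nth_strictMono Nat.infinite_setOfPred_prime hh
      rw [e] at this
      omega
    · by_contra hh
      push Not at hh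
      have : Nat.nth Nat.Prime (b - 1) < Nat.nth Nat.Prime (Nat.count Nat.Prime p) :=
        Nat.nth_strictMono Nat.infinite_setOfPred_prime (by omega)
      rw [e] at this
      omega
  · intro p hp q hq e
    rw [mem_coe, mem_filter] at hp hq
    have e1 : Nat.nth Nat.Prime (Nat.count Nat.Prime p) = p := Nat.nth_count hp.2
    have e2 : Nat.nth Nat.Prime (Nat.count Nat.Prime q) = q := Nat.nth_count hq.2
    rw [← e1, ← e2]
    simp only at e
    rw [e]

lemma log_le_two_sqrt {x : ℝ} (hx : 0 < x) : Real.log x ≤ 2 * Real.sqrt x := by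
  have h1 : Real.log (Real.sqrt x) ≤ Real.sqrt x - 1 := Real.log_le_sub_one_of_pos (Real.sqrt_pos.2 hx)
  have h2 : Real.log (Real.sqrt x) = Real.log x / 2 := Real.log_sqrt hx.le
  linarith

/-- from `c X / log X ≤ L` to `X ≤ 4 (L / c)^2` -/
lemma sq_bound {c X L : ℝ} (hc : 0 < c) (hX : 1 < X) (h : c * X / Real.log X ≤ L) :
    X ≤ 4 * (L / c) ^ 2 := by
  have hX0 : 0 < X := by linarith
  have hl : 0 < Real.log X := Real.log_pos hX
  have hs : 0 < Real.sqrt X := Real.sqrt_pos.2 hX0
  have h1 := log_le_two_sqrt hX0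
  rw [div_le_iff₀ hl] at h
  have hL : 0 ≤ L := by
    by_contra hL
    push Not at hL
    have : L * Real.log X < 0 := mul_neg_of_neg_of_pos hL hl
    have : 0 < c * X := by positivity
    linarith
  have h2 : c * X ≤ L * (2 * Real.sqrt X) := h.trans (mul_le_mul_of_nonneg_left h1 hL)
  have h3 : Real.sqrt X * Real.sqrt X = X := Real.mul_self_sqrt hX0.le
  have h4 : c * Real.sqrt X ≤ 2 * L := by
    have : (c * Real.sqrt X) * Real.sqrt X ≤ (2 * L) * Real.sqrt X := by
      calc (c * Real.sqrt X) * Real.sqrt X = c * (Real.sqrt X * Real.sqrt X) := by ring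
        _ = c * X := by rw [h3]
        _ ≤ L * (2 * Real.sqrt X) := h2
        _ = _ := by ring
    exact le_of_mul_le_mul_right this hs
  have h5 : Real.sqrt X ≤ 2 * (L / c) := by
    rw [← mul_div_assoc, le_div_iff₀ hc]
    linarith
  calc X = Real.sqrt X ^ 2 := by rw [sq, h3]
    _ ≤ (2 * (L / c)) ^ 2 := pow_le_pow_left₀ hs.le h5 2
    _ = _ := by ring

/-- two of the numbers `n - i` force a factor between the primes of the block -/
lemma ratio_of_block {n k : ℕ} (hk : 2 ≤ k) (hn : 4 * k * k.factorial ≤ n) (B : Finset ℕ)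
    (hB : ∀ p ∈ B, p.Prime) {y x : ℕ} (hy : ∀ p ∈ B, y ≤ p) (hx : ∀ p ∈ B, p ≤ x)
    (hyk : 4 * k.factorial ≤ y) (hyx : y ≤ x) (hprod : n.choose k = ∏ p ∈ B, p) :
    1 + 1 / (2 * (k.factorial : ℝ)) ≤ ((x : ℝ) / y) ^ B.card := by
  classical
  have hkf : 2 ≤ k.factorial := by
    calc 2 = Nat.factorial 2 := rfl
      _ ≤ k.factorial := Nat.factorial_le hk
  have hkk : k ≤ k.factorial := Nat.self_le_factorial k
  have hkn : k < n := by nlinarith
  have hyk' : k < y := by omega
  set q : ℕ → ℕ := fun i => ∏ p ∈ B.filter (fun p => p ∣ n - i), p with hq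
  have hqd : ∀ i, q i ∣ n - i := by
    intro i
    apply Finset.prod_primes_dvd
    · intro p hp
      rw [mem_filter] at hp
      exact (hB p hp.1).prime
    · intro p hp
      rw [mem_filter] at hp
      exact hp.2
  have hqpos : ∀ i, 0 < q i := by
    intro i
    apply prod_pos
    intro p hp
    rw [mem_filter] at hp
    exact (hB p hp.1).pos
  choose m hm using hqd
  -- the product of the q's
  have hdesc : ∏ i ∈ range k, (n - i) = k.factorial * ∏ p ∈ B, p := by
    rw [← Nat.descFactorial_eq_prod_range, Nat.descFactorial_eq_factorial_mul_choose, hprod]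
  have hqprod : ∏ i ∈ range k, q i = ∏ p ∈ B, p := by
    simp only [hq]
    simp_rw [prod_filter]
    rw [prod_comm]
    apply prod_congr rfl
    intro p hp
    have hpp := hB p hp
    have hpk : k < p := lt_of_lt_of_le hyk' (hy p hp)
    -- exactly one index
    have hdvd : p ∣ ∏ i ∈ range k, (n - i) := by
      rw [hdesc]
      exact Dvd.dvd.mul_left (dvd_prod_of_mem _ hp) _
    obtain ⟨i, hi, hpi⟩ := (hpp.prime.dvd_finsetProd_iff _).1 hdvd
    rw [mem_range] at hi
    rw [prod_eq_single i]
    · rw [if_pos hpi]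
    · intro j hj hji
      rw [mem_range] at hj
      rw [if_neg]
      intro hpj
      have h1 : (p : ℤ) ∣ (i : ℤ) - j := by
        have h2 : (p : ℤ) ∣ ((n - i : ℕ) : ℤ) := by exact_mod_cast hpi
        have h3 : (p : ℤ) ∣ ((n - j : ℕ) : ℤ) := by exact_mod_cast hpj
        have h4 := dvd_sub h3 h2
        have h5 : ((n - j : ℕ) : ℤ) - ((n - i : ℕ) : ℤ) = (i : ℤ) - j := by omega
        rwa [h5] at h4
      have h6 : (i : ℤ) - j = 0 := by
        apply Int.eq_zero_of_abs_lt_dvd h1
        rw [abs_lt]
        omega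
      omega
    · intro hh
      exact absurd (mem_range.2 hi) hh
  have hmprod : ∏ i ∈ range k, m i = k.factorial := by
    have h1 : ∏ i ∈ range k, (n - i) = (∏ i ∈ range k, q i) * ∏ i ∈ range k, m i := by
      rw [← prod_mul_distrib]
      apply prod_congr rfl
      intro i _
      exact hm i
    rw [hdesc, hqprod, mul_comm] at h1
    have hpos : 0 < ∏ p ∈ B, p := prod_pos (fun p hp => (hB p hp).pos)
    exact (Nat.eq_of_mul_eq_mul_left hpos h1).symm
  have hmle : ∀ i < k, m i ≤ k.factorial := by
    intro i hi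
    apply Nat.le_of_dvd (Nat.factorial_pos k)
    rw [← hmprod]
    exact dvd_prod_of_mem m (mem_range.2 hi)
  have hmpos : ∀ i < k, 0 < m i := by
    intro i hi
    rcases Nat.eq_zero_or_pos (m i) with h | h
    · have := hm i
      rw [h, mul_zero] at this
      omega
    · exact h
  -- two different cofactors
  obtain ⟨i, j, hi, hj, hij⟩ : ∃ i j, i < k ∧ j < k ∧ m i < m j := by
    by_contra hh
    push Not at hh
    have hall : ∀ i < k, m i = m 0 := fun i hi =>
      le_antisymm (hh 0 i (by omega) hi) (hh i 0 hi (by omega))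
    have h1 : m 0 ∣ 1 := by
      have a1 : m 0 ∣ n - 0 := ⟨q 0, by rw [mul_comm]; exact hm 0⟩
      have a2 : m 0 ∣ n - 1 := ⟨q 1, by rw [mul_comm, ← hall 1 (by omega)]; exact hm 1⟩
      have a3 := (Nat.dvd_sub a1 a2)
      have a4 : n - 0 - (n - 1) = 1 := by omega
      rwa [a4] at a3
    have h2 : m 0 = 1 := Nat.dvd_one.1 h1
    have h3 : ∏ i ∈ range k, m i = 1 := by
      apply prod_eq_one
      intro i hi
      rw [mem_range] at hi
      rw [hall i hi, h2]
    rw [hmprod] at h3
    omega
  set f : ℝ := (k.factorial : ℝ) with hf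
  have hf2 : 2 ≤ f := by rw [hf]; exact_mod_cast hkf
  have hmi : 0 < (m i : ℝ) := by exact_mod_cast hmpos i hi
  have hmj : 0 < (m j : ℝ) := by exact_mod_cast hmpos j hj
  have hmif : (m i : ℝ) ≤ f := by rw [hf]; exact_mod_cast hmle i hi
  have hmjf : (m j : ℝ) ≤ f := by rw [hf]; exact_mod_cast hmle j hj
  have hmij : (m i : ℝ) + 1 ≤ m j := by exact_mod_cast hij
  have hn0 : 0 < (n : ℝ) := by
    have : 0 < n := by omega
    exact_mod_cast this
  have hk0 : (0 : ℝ) < k := by
    have : 0 < k := by omega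
    exact_mod_cast this
  have hnk : 4 * (k : ℝ) * f ≤ n := by rw [hf]; exact_mod_cast hn
  have ei : ((n : ℝ) - i) = q i * m i := by
    have h1 := hm i
    have h2 : ((n - i : ℕ) : ℝ) = (n : ℝ) - i := by
      rw [Nat.cast_sub (by omega)]
    rw [← h2, h1]; push_cast; ring
  have ej : ((n : ℝ) - j) = q j * m j := by
    have h1 := hm j
    have h2 : ((n - j : ℕ) : ℝ) = (n : ℝ) - j := by
      rw [Nat.cast_sub (by omega)]
    rw [← h2, h1]; push_cast; ring
  have hik : (i : ℝ) ≤ k := by exact_mod_cast hi.le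
  have hjk : (j : ℝ) ≤ k := by exact_mod_cast hj.le
  have hi0 : (0 : ℝ) ≤ i := Nat.cast_nonneg i
  have hj0 : (0 : ℝ) ≤ j := Nat.cast_nonneg j
  have hqi : 0 < (q i : ℝ) := by exact_mod_cast hqpos i
  have hqj : 0 < (q j : ℝ) := by exact_mod_cast hqpos j
  -- lower bound of q i / q j
  have low : (1 + 1 / (2 * f)) * q j ≤ q i := by
    -- m i (n - j) (1 + 1/(2f)) ≤ m j (n - i)
    have h1 : (1 + 1 / (2 * f)) * (m i * (n - j)) ≤ m j * (n - i) := by
      have h2 : (1 + 1 / (2 * f)) * (m i * (n - j)) ≤ (1 + 1 / (2 * f)) * (m i * n) := by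
        apply mul_le_mul_of_nonneg_left _ (by positivity)
        apply mul_le_mul_of_nonneg_left _ hmi.le
        linarith
      have h3 : (m i + 1) * (n - k) ≤ m j * ((n : ℝ) - i) := by
        apply mul_le_mul hmij (by linarith) _ hmj.le
        have : (k : ℝ) ≤ n := by
          have : (k : ℝ) ≤ 4 * (k : ℝ) * f := by nlinarith
          linarith
        linarith
      have h4 : (1 + 1 / (2 * f)) * (m i * n) ≤ (m i + 1) * (n - k) := by
        have h5 : m i * n / (2 * f) ≤ n / 2 := by
          rw [div_le_div_iff₀ (by positivity) (by norm_num)]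
          nlinarith [mul_le_mul_of_nonneg_right hmif hn0.le]
        have h6 : (m i + 1) * (k : ℝ) ≤ n / 2 := by
          have : (m i + 1) * (k : ℝ) ≤ (2 * f) * k := by
            apply mul_le_mul_of_nonneg_right _ hk0.le
            linarith
          nlinarith
        have h7 : (1 + 1 / (2 * f)) * (m i * n) = m i * n + m i * n / (2 * f) := by
          field_simp
        rw [h7]
        have h8 : (m i + 1) * ((n : ℝ) - k) = m i * n + n - (m i + 1) * k := by ring
        rw [h8]
        linarith
      linarith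
    rw [ei, ej] at h1
    have h9 : ((m i : ℝ) * m j) * ((1 + 1 / (2 * f)) * q j) ≤ ((m i : ℝ) * m j) * q i := by
      calc ((m i : ℝ) * m j) * ((1 + 1 / (2 * f)) * q j) =
          (1 + 1 / (2 * f)) * (m i * (q j * m j)) := by ring
        _ ≤ m j * (q i * m i) := h1
        _ = _ := by ring
    exact le_of_mul_le_mul_left h9 (by positivity)
  -- upper bound
  have high : (q i : ℝ) ≤ 2 * f * q j := by
    have h1 : (q i : ℝ) ≤ n := by
      have : (q i : ℝ) * 1 ≤ q i * m i := by
        apply mul_le_mul_of_nonneg_left _ hqi.le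
        exact_mod_cast hmpos i hi
      linarith
    have h2 : (n : ℝ) / 2 ≤ f * q j := by
      have h3 : (q j : ℝ) * m j ≤ q j * f := mul_le_mul_of_nonneg_left hmjf hqj.le
      have h4 : (n : ℝ) / 2 ≤ n - j := by
        have : (k : ℝ) ≤ n / 2 := by nlinarith
        linarith
      linarith
    linarith
  -- the numbers of primes
  set ri := (B.filter (fun p => p ∣ n - i)).card with hri
  set rj := (B.filter (fun p => p ∣ n - j)).card with hrj
  have hri_le : ri ≤ B.card := card_filter_le _ _
  have hrj_le : rj ≤ B.card := card_filter_le _ _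
  have hy0 : 0 < (y : ℝ) := by
    have : 0 < y := by omega
    exact_mod_cast this
  have hx0 : 0 < (x : ℝ) := by
    have : 0 < x := by omega
    exact_mod_cast this
  have qup : ∀ i, (q i : ℝ) ≤ (x : ℝ) ^ (B.filter (fun p => p ∣ n - i)).card := by
    intro i
    have : q i ≤ x ^ (B.filter (fun p => p ∣ n - i)).card := by
      simp only [hq]
      apply prod_le_pow_card
      intro p hp
      rw [mem_filter] at hp
      exact hx p hp.1
    exact_mod_cast this
  have qlo : ∀ i, (y : ℝ) ^ (B.filter (fun p => p ∣ n - i)).card ≤ q i := by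
    intro i
    have : y ^ (B.filter (fun p => p ∣ n - i)).card ≤ q i := by
      simp only [hq]
      rw [← prod_const]
      apply prod_le_prod (fun _ _ => Nat.zero_le _)
      intro p hp
      rw [mem_filter] at hp
      exact hy p hp.1
    exact_mod_cast this
  have hxy1 : 1 ≤ (x : ℝ) / y := by
    rw [one_le_div hy0]
    exact_mod_cast hyx
  rcases le_or_gt ri rj with hr | hr
  · have h1 : (1 + 1 / (2 * f)) * (y : ℝ) ^ ri ≤ (x : ℝ) ^ ri := by
      calc (1 + 1 / (2 * f)) * (y : ℝ) ^ ri ≤ (1 + 1 / (2 * f)) * (y : ℝ) ^ rj := by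
            apply mul_le_mul_of_nonneg_left _ (by positivity)
            apply pow_le_pow_right₀ _ hr
            have : 1 ≤ y := by omega
            exact_mod_cast this
        _ ≤ (1 + 1 / (2 * f)) * q j := mul_le_mul_of_nonneg_left (qlo j) (by positivity)
        _ ≤ q i := low
        _ ≤ _ := qup i
    calc 1 + 1 / (2 * f) ≤ ((x : ℝ) / y) ^ ri := by
          rw [div_pow, le_div_iff₀ (by positivity)]
          exact h1
      _ ≤ _ := pow_le_pow_right₀ hxy1 hri_le
  · have h1 : (y : ℝ) * (y : ℝ) ^ rj ≤ 2 * f * (x : ℝ) ^ rj := by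
      calc (y : ℝ) * (y : ℝ) ^ rj = (y : ℝ) ^ (rj + 1) := by ring
        _ ≤ (y : ℝ) ^ ri := by
            apply pow_le_pow_right₀ _ hr
            have : 1 ≤ y := by omega
            exact_mod_cast this
        _ ≤ q i := qlo i
        _ ≤ 2 * f * q j := high
        _ ≤ _ := mul_le_mul_of_nonneg_left (qup j) (by positivity)
    have h2 : (y : ℝ) / (2 * f) ≤ ((x : ℝ) / y) ^ rj := by
      rw [div_pow, div_le_div_iff₀ (by positivity) (by positivity)]
      linarith
    have h3 : (2 : ℝ) ≤ y / (2 * f) := by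
      rw [le_div_iff₀ (by positivity)]
      have : 4 * f ≤ y := by rw [hf]; exact_mod_cast hyk
      linarith
    have h4 : 1 / (2 * f) ≤ 1 := by
      rw [div_le_one (by positivity)]
      linarith
    calc 1 + 1 / (2 * f) ≤ 2 := by linarith
      _ ≤ y / (2 * f) := h3
      _ ≤ ((x : ℝ) / y) ^ rj := h2
      _ ≤ _ := pow_le_pow_right₀ hxy1 hrj_le

end Pool.Agent.K7.H66.BB
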