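import Mathlib
import Pool.Agent.K7.H66.BinomBlocks

/-! Binomial coefficients that are products of consecutive primes: the primes are small. -/

set_option autoImplicit false

open Finset

namespace Pool.Agent.K7.H66.BB

local instance : DecidablePred Nat.Prime := Nat.decidablePrime

/-- `C(n,k)` is the product of the primes with (zero based) indices in `[a,b)`. -/
def IsBlock (n k a b : ℕ) : Prop :=
  a < b ∧ n.choose k = ∏ i ∈ Finset.Ico a b, Nat.nth Nat.Prime i

lemma nth_inj : Function.Injective (fun i => Nat.nth Nat.Prime i) :=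
  Nat.nth_injective Nat.infinite_setOfPred_prime

lemma nth_mono {i j : ℕ} (h : i ≤ j) : Nat.nth Nat.Prime i ≤ Nat.nth Nat.Prime j :=
  Nat.nth_monotone Nat.infinite_setOfPred_prime h

lemma nth_prime (i : ℕ) : (Nat.nth Nat.Prime i).Prime := Nat.prime_nth_prime i

/-- the number of primes in the block -/
lemma len_le {n k a b : ℕ} (h : IsBlock n k a b) :
    ((b - a : ℕ) : ℝ) ≤ 2 * k * Real.log n := by
  have h1 : 2 ^ (b - a) ≤ n ^ k := by
    calc 2 ^ (b - a) = ∏ i ∈ Finset.Ico a b, 2 := by rw [prod_const, Nat.card_Ico]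
      _ ≤ ∏ i ∈ Finset.Ico a b, Nat.nth Nat.Prime i := prod_le_prod (fun _ _ => Nat.zero_le _)
          (fun i _ => (nth_prime i).two_le)
      _ = n.choose k := h.2.symm
      _ ≤ n ^ k := Nat.choose_le_pow n k
  have h2 : ((2 : ℝ)) ^ (b - a) ≤ (n : ℝ) ^ k := by exact_mod_cast h1
  have h3 := Real.log_le_log (by positivity) h2
  rw [Real.log_pow, Real.log_pow] at h3
  have h4 : (1 : ℝ) / 2 ≤ Real.log 2 := by
    have := Real.log_two_gt_d9
    linarith
  have h5 : ((b - a : ℕ) : ℝ) * (1 / 2) ≤ ((b - a : ℕ) : ℝ) * Real.log 2 :=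
    mul_le_mul_of_nonneg_left h4 (Nat.cast_nonneg _)
  linarith

/-- the largest prime of the block divides `C(n,k)`, so it is at most `n` -/
lemma last_le {n k a b : ℕ} (hkn : k ≤ n) (h : IsBlock n k a b) : Nat.nth Nat.Prime (b - 1) ≤ n := by
  have hab := h.1
  have hd : Nat.nth Nat.Prime (b - 1) ∣ n.choose k := by
    rw [h.2]
    apply dvd_prod_of_mem (fun i => Nat.nth Nat.Prime i)
    rw [mem_Ico]; omega
  have h2 : Nat.nth Nat.Prime (b - 1) ∣ n.factorial :=
    hd.trans ⟨k.factorial * (n - k).factorial, by rw [← mul_assoc, Nat.choose_mul_factorial_mul_factorial hkn]⟩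
  exact ((nth_prime _).dvd_factorial).1 h2

/-- The largest prime in the block is at most a power of the number of primes of the block. -/
theorem size_bound : ∃ A : ℝ, 1 ≤ A ∧ ∀ k : ℕ, 2 ≤ k → ∃ C : ℝ, 1 ≤ C ∧ ∀ n a b : ℕ, k + 2 ≤ n →
    IsBlock n k a b → (Nat.nth Nat.Prime (b - 1) : ℝ) ≤ C * ((b - a : ℕ) : ℝ) ^ A := by
  obtain ⟨δ, η, hδ0, hδ1, hη, X₀, hX₀, H⟩ := Pool.Agent.H295R3.D.hoheisel
  refine ⟨max 4 (1 / δ), le_trans (by norm_num) (le_max_left _ _), ?_⟩
  intro k hk
  set f : ℝ := (k.factorial : ℝ) with hf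
  set c : ℝ := 1 / (2 * f) with hc
  have hkf : 2 ≤ k.factorial := by
    calc 2 = Nat.factorial 2 := rfl
      _ ≤ k.factorial := Nat.factorial_le hk
  have hf2 : 2 ≤ f := by rw [hf]; exact_mod_cast hkf
  have hc0 : 0 < c := by positivity
  have hc1 : c ≤ 1 / 4 := by
    rw [hc]
    apply one_div_le_one_div_of_le (by norm_num)
    linarith
  set C : ℝ := 4 * k * f + 8 * f + (2 * X₀ + 2) + (8 / η ^ 2 + 2) + 2 * (16 / (η * c) ^ 2)
    + 2 * (2 / c) ^ (1 / δ) with hC
  have hp1 : 0 ≤ 8 / η ^ 2 := by positivity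
  have hp2 : 0 ≤ 16 / (η * c) ^ 2 := by positivity
  have hp3 : 0 ≤ (2 / c) ^ (1 / δ) := by positivity
  have hp4 : 0 ≤ 4 * k * f := by positivity
  refine ⟨C, by rw [hC]; linarith, ?_⟩
  intro n a b hkn hblk
  have hab := hblk.1
  set x := Nat.nth Nat.Prime (b - 1) with hx
  set y := Nat.nth Nat.Prime a with hy
  set L : ℝ := ((b - a : ℕ) : ℝ) with hL
  set A : ℝ := max 4 (1 / δ) with hA
  have hL1 : 1 ≤ L := by
    rw [hL]
    have : 1 ≤ b - a := by omega
    exact_mod_cast this
  have hA4 : 4 ≤ A := le_max_left _ _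
  have hAδ : 1 / δ ≤ A := le_max_right _ _
  have hLA1 : 1 ≤ L ^ A := Real.one_le_rpow hL1 (by linarith)
  have hL4 : L ^ (4 : ℕ) ≤ L ^ A := by
    rw [← Real.rpow_natCast]
    apply Real.rpow_le_rpow_of_exponent_le hL1
    push_cast
    exact hA4
  have hL2 : L ^ (2 : ℕ) ≤ L ^ A := le_trans (pow_le_pow_right₀ hL1 (by norm_num)) hL4
  have hLδ : L ^ (1 / δ) ≤ L ^ A := Real.rpow_le_rpow_of_exponent_le hL1 hAδ
  have hyx : y ≤ x := nth_mono (by omega)
  have hy2 : 2 ≤ y := (nth_prime a).two_le
  have hyR : (2 : ℝ) ≤ y := by exact_mod_cast hy2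
  have hxR : (y : ℝ) ≤ x := by exact_mod_cast hyx
  -- it suffices to bound x by one of the terms
  have fin : ∀ t : ℝ, 0 ≤ t → t ≤ C → (x : ℝ) ≤ t * L ^ A → (x : ℝ) ≤ C * L ^ A := by
    intro t _ ht h
    exact h.trans (mul_le_mul_of_nonneg_right ht (by linarith))
  rcases lt_or_ge n (4 * k * k.factorial) with hn | hn
  · -- small n
    apply fin (4 * k * f) hp4 (by rw [hC]; linarith)
    have h1 : x ≤ n := last_le (by omega) hblk
    have h2 : (x : ℝ) ≤ 4 * k * f := by
      rw [hf]
      have : x ≤ 4 * k * k.factorial := by omega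
      exact_mod_cast this
    nlinarith
  have hX₀R : (2 : ℝ) ≤ X₀ := by exact_mod_cast hX₀
  rcases le_or_gt (2 * y) x with h2y | h2y
  · -- the block is long
    rcases le_or_gt X₀ (x / 2) with hX | hX
    · set X : ℕ := x / 2 with hXdef
      have hXx : 2 * X ≤ x := by omega
      have hxX : x ≤ 2 * X + 1 := by omega
      have hX2 : 2 ≤ X := by omega
      have hX1 : (1 : ℝ) < X := by exact_mod_cast (by omega : 1 < X)
      have h1 := H X X hX (by
        conv_rhs => rw [← Real.rpow_one (X : ℝ)]
        apply Real.rpow_le_rpow_of_exponent_le hX1.le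
        linarith) le_rfl
      have h2 := primes_le_block (a := a) (b := b) (X := X) (Z := X + X) hab (by
        change y ≤ X + 1; omega) (by change X + X ≤ x; omega)
      have h3 : η * (X : ℝ) / Real.log X ≤ L := by
        refine h1.trans ?_
        rw [hL]
        exact_mod_cast h2
      have h4 := sq_bound hη hX1 h3
      apply fin (8 / η ^ 2 + 2) (by linarith) (by
        rw [hC]
        have : 0 ≤ 2 * (16 / (η * c) ^ 2) := by positivity
        linarith)
      have h5 : (x : ℝ) ≤ 2 * X + 1 := by exact_mod_cast hxX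
      have h6 : 4 * (L / η) ^ 2 = 4 / η ^ 2 * L ^ 2 := by
        field_simp
      have h7 : 4 / η ^ 2 * L ^ 2 ≤ 4 / η ^ 2 * L ^ A := mul_le_mul_of_nonneg_left hL2 (by positivity)
      have h8 : 8 / η ^ 2 = 2 * (4 / η ^ 2) := by ring
      rw [h8]
      rw [h6] at h4
      nlinarith
    · apply fin (2 * X₀ + 2) (by linarith) (by
        rw [hC]
        have : 0 ≤ 2 * (16 / (η * c) ^ 2) := by positivity
        linarith)
      have : x ≤ 2 * X₀ + 2 := by omega
      have : (x : ℝ) ≤ 2 * X₀ + 2 := by exact_mod_cast this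
      nlinarith
  · rcases lt_or_ge y (4 * k.factorial) with hy4 | hy4
    · apply fin (8 * f) (by linarith) (by
        rw [hC]
        have : 0 ≤ 2 * (16 / (η * c) ^ 2) := by positivity
        linarith)
      have : x ≤ 8 * k.factorial := by omega
      have h8 : (x : ℝ) ≤ 8 * f := by rw [hf]; exact_mod_cast this
      nlinarith
    · -- the ratio bound
      have hr : 1 + 1 / (2 * (k.factorial : ℝ)) ≤ ((x : ℝ) / y) ^ (b - a) := by
        have := ratio_of_block hk hn ((Finset.Ico a b).image (fun i => Nat.nth Nat.Prime i))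
          (by
            intro p hp
            rw [mem_image] at hp
            obtain ⟨i, _, rfl⟩ := hp
            exact nth_prime i) (y := y) (x := x)
          (by
            intro p hp
            rw [mem_image] at hp
            obtain ⟨i, hi, rfl⟩ := hp
            rw [mem_Ico] at hi
            exact nth_mono hi.1)
          (by
            intro p hp
            rw [mem_image] at hp
            obtain ⟨i, hi, rfl⟩ := hp
            rw [mem_Ico] at hi
            exact nth_mono (by omega))
          hy4 hyx (by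
            rw [prod_image (fun i _ j _ h => nth_inj h)]
            exact hblk.2)
        rwa [card_image_of_injective _ nth_inj, Nat.card_Ico] at this
      have hy0 : (0 : ℝ) < y := by linarith
      have hx0 : (0 : ℝ) < x := by linarith
      have hlog : c / 2 ≤ L * ((x - y : ℝ) / y) := by
        have e1 := Real.log_le_log (by positivity) hr
        rw [Real.log_pow] at e1
        have e2 : Real.log ((x : ℝ) / y) ≤ (x : ℝ) / y - 1 :=
          Real.log_le_sub_one_of_pos (by positivity)
        have e3 : 1 - (1 + c)⁻¹ ≤ Real.log (1 + c) := Real.one_sub_inv_le_log_of_pos (by linarith)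
        have e4 : c / 2 ≤ 1 - (1 + c)⁻¹ := by
          have : (1 + c)⁻¹ ≤ 1 - c / 2 := by
            rw [inv_le_iff_one_le_mul₀ (by linarith)]
            nlinarith
          linarith
        have e5 : (x : ℝ) / y - 1 = (x - y : ℝ) / y := by field_simp
        calc c / 2 ≤ Real.log (1 + c) := e4.trans e3
          _ ≤ L * Real.log ((x : ℝ) / y) := e1
          _ ≤ L * ((x - y : ℝ) / y) := by
              apply mul_le_mul_of_nonneg_left _ (by linarith)
              rw [← e5]; exact e2
      set Y : ℕ := x - y with hY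
      have hYR : (Y : ℝ) = (x : ℝ) - y := by rw [hY, Nat.cast_sub hyx]
      have hY1 : c * y ≤ 2 * L * Y := by
        rw [hYR]
        have : L * ((x - y : ℝ) / y) = (L * (x - y : ℝ)) / y := by ring
        rw [this, le_div_iff₀ hy0] at hlog
        linarith
      have hx2y : (x : ℝ) ≤ 2 * y := by exact_mod_cast h2y.le
      rcases lt_or_ge y X₀ with hyX | hyX
      · apply fin (2 * X₀ + 2) (by linarith) (by
          rw [hC]
          have : 0 ≤ 2 * (16 / (η * c) ^ 2) := by positivity
          linarith)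
        have : x ≤ 2 * X₀ + 2 := by omega
        have : (x : ℝ) ≤ 2 * X₀ + 2 := by exact_mod_cast this
        nlinarith
      rcases le_or_gt ((y : ℝ) ^ (1 - δ)) Y with hYδ | hYδ
      · have h1 := H y Y hyX hYδ (by omega)
        have h2 := primes_le_block (a := a) (b := b) (X := y) (Z := y + Y) hab (by
          change y ≤ y + 1; omega) (by change y + Y ≤ x; omega)
        have h3 : η * (Y : ℝ) / Real.log y ≤ L := by
          refine h1.trans ?_
          rw [hL]
          exact_mod_cast h2
        have hly : 0 < Real.log y := Real.log_pos (by linarith)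
        have h4 : (η * c / 2) * y / Real.log y ≤ L ^ 2 := by
          rw [div_le_iff₀ hly] at h3 ⊢
          have : η * (c * y) ≤ η * (2 * L * Y) := mul_le_mul_of_nonneg_left hY1 hη.le
          have h5 : 2 * L * (η * Y) ≤ 2 * L * (L * Real.log y) :=
            mul_le_mul_of_nonneg_left h3 (by linarith)
          nlinarith
        have h5 := sq_bound (by positivity) (by linarith) h4
        apply fin (2 * (16 / (η * c) ^ 2)) (by positivity) (by
          rw [hC]
          linarith)
        have h6 : 4 * (L ^ 2 / (η * c / 2)) ^ 2 = 16 / (η * c) ^ 2 * L ^ 4 := by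
          field_simp
          ring
        rw [h6] at h5
        have h7 : 16 / (η * c) ^ 2 * L ^ 4 ≤ 16 / (η * c) ^ 2 * L ^ A :=
          mul_le_mul_of_nonneg_left hL4 (by positivity)
        nlinarith
      · -- the block is shorter than the Hoheisel length
        have h1 : (y : ℝ) ^ δ ≤ 2 / c * L := by
          have h2 : c * y ≤ 2 * L * (y : ℝ) ^ (1 - δ) :=
            hY1.trans (mul_le_mul_of_nonneg_left hYδ.le (by linarith))
          have h3 : (y : ℝ) = (y : ℝ) ^ δ * (y : ℝ) ^ (1 - δ) := by
            rw [← Real.rpow_add hy0]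
            rw [show δ + (1 - δ) = 1 by ring, Real.rpow_one]
          have h4 : 0 < (y : ℝ) ^ (1 - δ) := Real.rpow_pos_of_pos hy0 _
          have h5 : (c * (y : ℝ) ^ δ) * (y : ℝ) ^ (1 - δ) ≤ (2 * L) * (y : ℝ) ^ (1 - δ) := by
            calc (c * (y : ℝ) ^ δ) * (y : ℝ) ^ (1 - δ) = c * ((y : ℝ) ^ δ * (y : ℝ) ^ (1 - δ)) := by ring
              _ = c * y := by rw [← h3]
              _ ≤ _ := h2
          have h6 := le_of_mul_le_mul_right h5 h4
          rw [div_mul_eq_mul_div, le_div_iff₀ hc0]
          linarith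
        have h2 : (y : ℝ) ≤ (2 / c) ^ (1 / δ) * L ^ (1 / δ) := by
          have h3 := Real.rpow_le_rpow (by positivity) h1 (by positivity : 0 ≤ 1 / δ)
          rw [← Real.rpow_mul hy0.le, show δ * (1 / δ) = 1 by field_simp, Real.rpow_one,
            Real.mul_rpow (by positivity) (by linarith)] at h3
          exact h3
        apply fin (2 * (2 / c) ^ (1 / δ)) (by positivity) (by
          rw [hC]
          have : 0 ≤ 2 * (16 / (η * c) ^ 2) := by positivity
          linarith)
        have h7 : (2 / c) ^ (1 / δ) * L ^ (1 / δ) ≤ (2 / c) ^ (1 / δ) * L ^ A :=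
          mul_le_mul_of_nonneg_left hLδ hp3
        nlinarith

end Pool.Agent.K7.H66.BB
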