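import Pool.Agent.K7.H47.DM.Stm4

set_option autoImplicit false

/-! # Dope matrices, job P: minors of Pascal's matrix (by Rolle's theorem) -/

open Polynomial

namespace Pool.Agent.K7.H66.D4

open Pool.Agent.K7.H47.DM4

/-- zeros of `Q` in the open unit interval -/
noncomputable def Z (Q : ℝ[X]) : Finset ℝ := Q.roots.toFinset.filter (fun x => 0 < x ∧ x < 1)

theorem rolle (Q : ℝ[X]) (hQ' : derivative Q ≠ 0) (s : Finset ℝ)
    (hs : ∀ x ∈ s, 0 ≤ x ∧ x ≤ 1 ∧ Q.eval x = 0) : s.card ≤ (Z (derivative Q)).card + 1 := by
  apply Finset.card_le_of_interleaved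
  intro x hx y hy hxy _
  obtain ⟨z, hz, hz'⟩ := exists_deriv_eq_zero (f := fun x => Q.eval x) hxy Q.continuous.continuousOn
    (by simp only [(hs x hx).2.2, (hs y hy).2.2])
  rw [Polynomial.deriv] at hz'
  refine ⟨z, ?_, hz.1, hz.2⟩
  rw [Z, Finset.mem_filter, Multiset.mem_toFinset, mem_roots hQ']
  exact ⟨hz', lt_of_le_of_lt (hs x hx).1 hz.1, lt_of_lt_of_le hz.2 (hs y hy).2.1⟩

/-- the step of the induction -/
theorem step (Q : ℝ[X]) (hQ' : derivative Q ≠ 0) (a b : ℕ) (ha : a ≤ 1) (hb : b ≤ 1)
    (h0 : a = 0 → Q.eval 0 = 0) (h1 : b = 1 → Q.eval 1 = 0) :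
    (Z Q).card + b ≤ (Z (derivative Q)).card + a := by
  classical
  have hQ : Q ≠ 0 := by
    rintro rfl
    simp at hQ'
  have hz : ∀ x ∈ Z Q, 0 < x ∧ x < 1 ∧ Q.eval x = 0 := by
    intro x hx
    rw [Z, Finset.mem_filter, Multiset.mem_toFinset, mem_roots hQ] at hx
    exact ⟨hx.2.1, hx.2.2, hx.1⟩
  have n0 : (0 : ℝ) ∉ Z Q := fun h => lt_irrefl _ (hz 0 h).1
  have n1 : (1 : ℝ) ∉ Z Q := fun h => lt_irrefl _ (hz 1 h).2.1
  have e0 : ∀ x ∈ Z Q, 0 ≤ x ∧ x ≤ 1 ∧ Q.eval x = 0 := fun x hx =>
    ⟨(hz x hx).1.le, (hz x hx).2.1.le, (hz x hx).2.2⟩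
  interval_cases a <;> interval_cases b
  · have := rolle Q hQ' (insert 0 (Z Q)) (by
      intro x hx
      rcases Finset.mem_insert.1 hx with rfl | hx
      · exact ⟨le_rfl, zero_le_one, h0 rfl⟩
      · exact e0 x hx)
    rw [Finset.card_insert_of_notMem n0] at this
    omega
  · have n2 : (0 : ℝ) ∉ insert 1 (Z Q) := by
      rw [Finset.mem_insert]
      rintro (h | h)
      · norm_num at h
      · exact n0 h
    have := rolle Q hQ' (insert 0 (insert 1 (Z Q))) (by
      intro x hx
      rcases Finset.mem_insert.1 hx with rfl | hx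
      · exact ⟨le_rfl, zero_le_one, h0 rfl⟩
      rcases Finset.mem_insert.1 hx with rfl | hx
      · exact ⟨zero_le_one, le_rfl, h1 rfl⟩
      · exact e0 x hx)
    rw [Finset.card_insert_of_notMem n2, Finset.card_insert_of_notMem n1] at this
    omega
  · have := rolle Q hQ' (Z Q) e0
    omega
  · have := rolle Q hQ' (insert 1 (Z Q)) (by
      intro x hx
      rcases Finset.mem_insert.1 hx with rfl | hx
      · exact ⟨zero_le_one, le_rfl, h1 rfl⟩
      · exact e0 x hx)
    rw [Finset.card_insert_of_notMem n1] at this
    omega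

theorem main (P : ℝ[X]) (hP : P ≠ 0) (J : Finset ℕ)
    (hJ : ∀ i ∈ J, (derivative^[i] P).eval 1 = 0) :
    (J.filter (· < P.natDegree)).card ≤ (P.support.filter (· < P.natDegree)).card := by
  classical
  have hne : ∀ m, m ≤ P.natDegree → derivative^[m] P ≠ 0 := by
    intro m hm h
    have h1 := congrArg (fun q => q.coeff (P.natDegree - m)) h
    simp only [coeff_iterate_derivative, Nat.sub_add_cancel hm, coeff_zero, nsmul_eq_mul] at h1
    rcases mul_eq_zero.1 h1 with h2 | h2
    · rw [Nat.cast_eq_zero, Nat.descFactorial_eq_zero_iff_lt] at h2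
      omega
    · exact hP (leadingCoeff_eq_zero.1 h2)
  have key : ∀ m, m ≤ P.natDegree → (J.filter (· < m)).card ≤
      (Z (derivative^[m] P)).card + (P.support.filter (· < m)).card := by
    intro m
    induction m with
    | zero => intro _; simp
    | succ m ih =>
      intro hm
      have h1 := ih (by omega)
      have h2 := hne (m + 1) hm
      rw [Function.iterate_succ_apply'] at h2 ⊢
      have h3 := step (derivative^[m] P) h2 (if m ∈ P.support then 1 else 0)
        (if m ∈ J then 1 else 0) (by split_ifs <;> omega) (by split_ifs <;> omega)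
        (by
          intro h
          have hm' : m ∉ P.support := by
            intro h'
            rw [if_pos h'] at h
            omega
          rw [← coeff_zero_eq_eval_zero, coeff_iterate_derivative, zero_add,
            notMem_support_iff.1 hm', smul_zero])
        (by
          intro h
          have hm' : m ∈ J := by
            by_contra h'
            rw [if_neg h'] at h
            omega
          exact hJ m hm')
      have e : ∀ A : Finset ℕ, (A.filter (· < m + 1)).card =
          (A.filter (· < m)).card + (if m ∈ A then 1 else 0) := by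
        intro A
        by_cases hA : m ∈ A
        · rw [if_pos hA]
          have : A.filter (· < m + 1) = insert m (A.filter (· < m)) := by
            ext x
            simp only [Finset.mem_filter, Finset.mem_insert]
            constructor
            · rintro ⟨h, h'⟩
              by_cases hx : x = m
              · exact Or.inl hx
              · exact Or.inr ⟨h, by omega⟩
            · rintro (rfl | ⟨h, h'⟩)
              · exact ⟨hA, by omega⟩
              · exact ⟨h, by omega⟩
          rw [this, Finset.card_insert_of_notMem (by simp)]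
        · rw [if_neg hA, add_zero]
          congr 1
          ext x
          simp only [Finset.mem_filter]
          constructor
          · rintro ⟨h, h'⟩
            refine ⟨h, ?_⟩
            have : x ≠ m := fun h'' => hA (h'' ▸ h)
            omega
          · rintro ⟨h, h'⟩
            exact ⟨h, by omega⟩
      rw [e, e]
      omega
  have h1 := key P.natDegree le_rfl
  have h2 : Z (derivative^[P.natDegree] P) = ∅ := by
    rw [Finset.eq_empty_iff_forall_notMem]
    intro x hx
    rw [Z, Finset.mem_filter, Multiset.mem_toFinset, mem_roots (hne _ le_rfl)] at hx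
    have h3 : (derivative^[P.natDegree] P).natDegree = 0 := by
      have := natDegree_iterate_derivative P P.natDegree
      omega
    have h4 := eq_C_of_natDegree_eq_zero h3
    have h5 := hx.1
    rw [h4, IsRoot.def, eval_C] at h5
    apply hne _ le_rfl
    rw [h4, h5, C_0]
  rw [h2, Finset.card_empty, zero_add] at h1
  exact h1

theorem p : StP := by
  classical
  intro ι _ _ t j ht hj hle hdet
  obtain ⟨p, hp0, hp⟩ := Matrix.exists_vecMul_eq_zero_iff.2 hdet
  set P : ℝ[X] := ∑ r, C ((p r : ℚ) : ℝ) * X ^ t r with hPdef
  have coeffP : ∀ r, P.coeff (t r) = ((p r : ℚ) : ℝ) := by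
    intro r
    rw [hPdef, finsetSum_coeff, Finset.sum_eq_single r]
    · simp
    · intro s _ hs
      rw [coeff_C_mul, coeff_X_pow, if_neg (fun h => hs (ht h.symm)), mul_zero]
    · intro h
      exact absurd (Finset.mem_univ r) h
  have supp : ∀ n ∈ P.support, ∃ r, t r = n := by
    intro n hn
    by_contra hcon
    push Not at hcon
    rw [mem_support_iff] at hn
    apply hn
    rw [hPdef, finsetSum_coeff]
    apply Finset.sum_eq_zero
    intro r _
    rw [coeff_C_mul, coeff_X_pow, if_neg (fun h => hcon r h.symm), mul_zero]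
  have hP : P ≠ 0 := by
    intro h
    apply hp0
    funext r
    have := coeffP r
    rw [h, coeff_zero] at this
    exact_mod_cast this.symm
  have ev1 : ∀ c, (derivative^[j c] P).eval 1 = 0 := by
    intro c
    have h1 : ∑ r, p r * (((t r).choose (j c) : ℕ) : ℚ) = 0 := by
      have := congrFun hp c
      simpa [Matrix.vecMul, dotProduct] using this
    have h2 : ∑ r, ((p r : ℚ) : ℝ) * (((t r).choose (j c) : ℕ) : ℝ) = 0 := by
      exact_mod_cast h1
    have h3 : (derivative^[j c] P).eval 1 =
        ((j c).factorial : ℝ) * ∑ r, ((p r : ℚ) : ℝ) * (((t r).choose (j c) : ℕ) : ℝ) := by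
      rw [hPdef, iterate_derivative_sum, eval_finsetSum, Finset.mul_sum]
      refine Finset.sum_congr rfl fun r _ => ?_
      rw [iterate_derivative_C_mul, iterate_derivative_X_pow_eq_natCast_mul]
      simp only [eval_mul, eval_C, eval_natCast, eval_pow, eval_X, one_pow, mul_one,
        Nat.descFactorial_eq_factorial_mul_choose]
      push_cast
      ring
    rw [h3, h2, mul_zero]
  have hmain := main P hP (Finset.univ.image j) (by
    intro i hi
    obtain ⟨c, _, rfl⟩ := Finset.mem_image.1 hi
    exact ev1 c)
  have hd : P.natDegree ∉ Finset.univ.image j := by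
    intro h
    obtain ⟨c, _, hc⟩ := Finset.mem_image.1 h
    have h1 := ev1 c
    rw [hc] at h1
    have h3 : (derivative^[P.natDegree] P).natDegree = 0 := by
      have := natDegree_iterate_derivative P P.natDegree
      omega
    rw [eq_C_of_natDegree_eq_zero h3, eval_C, coeff_iterate_derivative, zero_add,
      nsmul_eq_mul] at h1
    rcases mul_eq_zero.1 h1 with h2 | h2
    · rw [Nat.cast_eq_zero, Nat.descFactorial_eq_zero_iff_lt] at h2
      omega
    · exact hP (leadingCoeff_eq_zero.1 h2)
  -- the rows with a nonzero coefficient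
  set R : Finset ι := Finset.univ.filter fun r => t r ∈ P.support with hR
  have c1 : R.card = P.support.card := by
    rw [← Finset.card_image_of_injective R ht]
    congr 1
    ext n
    constructor
    · intro h
      obtain ⟨r, hr, rfl⟩ := Finset.mem_image.1 h
      exact (Finset.mem_filter.1 hr).2
    · intro h
      obtain ⟨r, rfl⟩ := supp n h
      exact Finset.mem_image.2 ⟨r, Finset.mem_filter.2 ⟨Finset.mem_univ _, h⟩, rfl⟩
  have c2 : R.card ≤ ((Finset.univ.image j).filter (· < P.natDegree)).card := by
    rw [← Finset.card_image_of_injective R hj]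
    apply Finset.card_le_card
    intro n hn
    obtain ⟨r, hr, rfl⟩ := Finset.mem_image.1 hn
    have h1 : t r ≤ P.natDegree := le_natDegree_of_mem_supp _ (Finset.mem_filter.1 hr).2
    have h2 : j r ∈ Finset.univ.image j := Finset.mem_image_of_mem _ (Finset.mem_univ _)
    refine Finset.mem_filter.2 ⟨h2, lt_of_le_of_ne ((hle r).trans h1) ?_⟩
    intro h
    rw [h] at h2
    exact hd h2
  have c3 : (P.support.filter (· < P.natDegree)).card < P.support.card := by
    apply Finset.card_lt_card
    rw [Finset.ssubset_iff_of_subset (Finset.filter_subset _ _)]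
    exact ⟨P.natDegree, natDegree_mem_support_of_nonzero hP, by simp⟩
  omega

end Pool.Agent.K7.H66.D4
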