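import Pool.Agent.K7.H87.EX.Stm

set_option autoImplicit false

/-! Project EX, job CEN -/

namespace Pool.Agent.K7.H66.EXCEN

open Pool.Agent.K7.H87.EX

section
variable {N : Type} [Group N] [LinearOrder N] [MulLeftMono N] [MulRightMono N]

theorem bd_one {c : N} : Bd c 1 := ⟨0, by simp⟩

theorem bd_inv {c a : N} (h : Bd c a) : Bd c a⁻¹ := by
  obtain ⟨k, h1, h2⟩ := h
  refine ⟨k, inv_le_inv_iff.2 h2, ?_⟩
  have := inv_le_inv_iff.2 h1
  rwa [inv_inv] at this

theorem bd_mul {c a b : N} (h : Bd c a) (h' : Bd c b) : Bd c (a * b) := by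
  obtain ⟨k, h1, h2⟩ := h
  obtain ⟨l, h3, h4⟩ := h'
  refine ⟨k + l, ?_, ?_⟩
  · have e1 : (c ^ (k + l))⁻¹ = (c ^ k)⁻¹ * (c ^ l)⁻¹ := by
      rw [add_comm, pow_add, mul_inv_rev]
    rw [e1]
    exact mul_le_mul' h1 h3
  · rw [pow_add]
    exact mul_le_mul' h2 h4

theorem bd_between {c x y z : N} (hc : 1 ≤ c) (hx : Bd c x) (hy : Bd c y) (h1 : x ≤ z)
    (h2 : z ≤ y) : Bd c z := by
  obtain ⟨k, hk, -⟩ := hx
  obtain ⟨l, -, hl⟩ := hy
  refine ⟨k + l, ?_, ?_⟩
  · refine le_trans ?_ (hk.trans h1)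
    exact inv_le_inv_iff.2 (pow_le_pow_right' hc (Nat.le_add_right k l))
  · exact h2.trans (hl.trans (pow_le_pow_right' hc (Nat.le_add_left l k)))
end

theorem cj_one {K : Type} [Group K] (N : Subgroup K) (hN : N.Normal) (a : N) :
    cj N hN 1 a = a := by
  apply Subtype.ext
  simp [cj]

theorem cj_mul {K : Type} [Group K] (N : Subgroup K) (hN : N.Normal) (g h : K) (a : N) :
    cj N hN (g * h) a = cj N hN g (cj N hN h a) := by
  apply Subtype.ext
  simp [cj, mul_assoc]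

theorem t : StCen := by
  intro K _ N hN _ hl hr hcj c hc φ hφc hadd hmono hinv g hg a
  haveI : MulLeftMono N := ⟨fun c a b h => hl a b c h⟩
  haveI : MulRightMono N := ⟨fun c a b h => hr a b c h⟩
  obtain ⟨n, hn, hgn, hf⟩ := hg
  set f : N := ⟨g ^ n, hgn⟩ with hfdef
  have hφ1 : φ 1 = 0 := by
    have h := hadd 1 1 bd_one bd_one
    rw [mul_one] at h
    linarith
  -- the element for the power
  have hx : a⁻¹ * cj N hN (g ^ n) a = cj N hN ((a⁻¹ : N) : K) f * f⁻¹ := by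
    apply Subtype.ext
    simp [cj, hfdef, mul_assoc]
  have h1 := hinv ((a⁻¹ : N) : K) f hf
  have hfi : Bd c f⁻¹ := bd_inv hf
  have hφi : φ f⁻¹ = - φ f := by
    have h := hadd f f⁻¹ hf hfi
    rw [mul_inv_cancel, hφ1] at h
    linarith
  have hxB : Bd c (a⁻¹ * cj N hN (g ^ n) a) := by
    rw [hx]
    exact bd_mul h1.1 hfi
  have hxφ : φ (a⁻¹ * cj N hN (g ^ n) a) = 0 := by
    rw [hx, hadd _ _ h1.1 hfi, h1.2, hφi]
    ring
  rcases le_total a (cj N hN g a) with h | h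
  · have hs : ∀ i : ℕ, cj N hN g a ≤ cj N hN (g ^ (i + 1)) a := by
      intro i
      induction i with
      | zero => rw [zero_add, pow_one]
      | succ i ih =>
        rw [pow_succ' g (i + 1), cj_mul]
        exact hcj g _ _ (h.trans ih)
    obtain ⟨i, rfl⟩ : ∃ i, n = i + 1 := ⟨n - 1, by omega⟩
    have h2 : 1 ≤ a⁻¹ * cj N hN g a := by
      have := mul_le_mul_right h a⁻¹
      rwa [inv_mul_cancel] at this
    have h3 : a⁻¹ * cj N hN g a ≤ a⁻¹ * cj N hN (g ^ (i + 1)) a := mul_le_mul_right (hs i) a⁻¹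
    have hB : Bd c (a⁻¹ * cj N hN g a) := bd_between hc.le bd_one hxB h2 h3
    refine ⟨hB, le_antisymm ?_ ?_⟩
    · rw [← hxφ]
      exact hmono _ _ hB hxB h3
    · rw [← hφ1]
      exact hmono _ _ bd_one hB h2
  · have hs : ∀ i : ℕ, cj N hN (g ^ (i + 1)) a ≤ cj N hN g a := by
      intro i
      induction i with
      | zero => rw [zero_add, pow_one]
      | succ i ih =>
        rw [pow_succ' g (i + 1), cj_mul]
        exact hcj g _ _ (ih.trans h)
    obtain ⟨i, rfl⟩ : ∃ i, n = i + 1 := ⟨n - 1, by omega⟩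
    have h2 : a⁻¹ * cj N hN g a ≤ 1 := by
      have := mul_le_mul_right h a⁻¹
      rwa [inv_mul_cancel] at this
    have h3 : a⁻¹ * cj N hN (g ^ (i + 1)) a ≤ a⁻¹ * cj N hN g a := mul_le_mul_right (hs i) a⁻¹
    have hB : Bd c (a⁻¹ * cj N hN g a) := bd_between hc.le hxB bd_one h3 h2
    refine ⟨hB, le_antisymm ?_ ?_⟩
    · rw [← hφ1]
      exact hmono _ _ hB bd_one h2
    · rw [← hxφ]
      exact hmono _ _ hxB hB h3

end Pool.Agent.K7.H66.EXCEN
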