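import Pool.Agent.K7.H87.EX.Stm2

set_option autoImplicit false

/-! # Project EX2 (MP_611b97_al), job SOLV -/

namespace Pool.Agent.K7.H66.EXSOLV

open Pool.Agent.K7.H87.EX
open scoped commutatorElement

section cjl
variable {K : Type} [Group K] (N : Subgroup K) (hN : N.Normal)

theorem cj_mul_left (g h : K) (a : N) : cj N hN (g * h) a = cj N hN g (cj N hN h a) := by
  apply Subtype.ext
  simp only [cj]
  group

theorem cj_mul (g : K) (a b : N) : cj N hN g (a * b) = cj N hN g a * cj N hN g b := by
  apply Subtype.ext
  simp only [cj, Subgroup.coe_mul]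
  group

theorem cj_one_left (a : N) : cj N hN 1 a = a := by
  apply Subtype.ext
  simp [cj]

theorem cj_one (g : K) : cj N hN g 1 = 1 := by
  apply Subtype.ext
  simp [cj]

end cjl

/-- the job -/
theorem t (hLev : StLev) (hDrop : StDrop) (hCom : StCom) : StSolv := by
  intro K _ N hN _ hl hr hc hfin hcen
  obtain ⟨h1, h2, h3, _, M, hM⟩ := hLev N hl hr hfin
  have l1 : lev (1 : N) = 0 := (h1 1).2 rfl
  have hdrop := hDrop K N hN hl hr hc hfin
  have hcom := hCom N hl hr hfin
  -- the subgroups `E j`
  let E : ℕ → Subgroup K := fun j =>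
    { carrier := {g | ∀ a : N, lev (a⁻¹ * cj N hN g a) ≤ j}
      one_mem' := by
        intro a
        rw [cj_one_left]
        simp [l1]
      mul_mem' := by
        intro g g' hg hg' a
        have e : a⁻¹ * cj N hN (g * g') a = (a⁻¹ * cj N hN g' a) *
            ((cj N hN g' a)⁻¹ * cj N hN g (cj N hN g' a)) := by
          rw [cj_mul_left]
          group
        rw [e]
        exact (h2 _ _).trans (max_le (hg' _) (hg _))
      inv_mem' := by
        intro g hg a
        have e : a⁻¹ * cj N hN g⁻¹ a = ((cj N hN g⁻¹ a)⁻¹ * cj N hN g (cj N hN g⁻¹ a))⁻¹ := by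
          rw [← cj_mul_left, mul_inv_cancel, cj_one_left]
          group
        rw [e, h3]
        exact hg _ }
  have hE : ∀ j g, g ∈ E j ↔ ∀ a : N, lev (a⁻¹ * cj N hN g a) ≤ j := fun _ _ => Iff.rfl
  have hder : ∀ i, derivedSeries K (i + 1) ≤ commutator K := by
    intro i
    have := derivedSeries_antitone K (Nat.succ_le_succ (Nat.zero_le i))
    simpa using this
  have key : ∀ i, derivedSeries K (i + 1) ≤ E (M - (i + 1)) := by
    intro i
    induction i with
    | zero =>
      intro g hg
      rw [hE]
      intro a
      by_cases ha : a = 1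
      · subst ha
        rw [cj_one]
        simp [l1]
      · have h4 := hdrop g (hder 0 hg) a ha
        have h5 := hM a
        omega
    | succ i ih =>
      rw [derivedSeries_succ]
      rw [Subgroup.commutator_le]
      intro g hg g' hg'
      rw [hE]
      intro a
      have hgE := (hE _ _).1 (ih hg)
      have hgE' := (hE _ _).1 (ih hg')
      set j := M - (i + 1) with hj
      have hj1 : M - (i + 1 + 1) = j - 1 := by omega
      rw [hj1]
      set b := cj N hN (g' * g)⁻¹ a with hb
      have ea : a = cj N hN (g' * g) b := by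
        rw [hb, ← cj_mul_left, mul_inv_cancel, cj_one_left]
      have ec : cj N hN ⁅g, g'⁆ a = cj N hN (g * g') b := by
        rw [hb, ← cj_mul_left, commutatorElement_def]
        congr 1
        group
      set u := b⁻¹ * cj N hN g b with hu
      set v := b⁻¹ * cj N hN g' b with hv
      have hu1 : cj N hN g b = b * u := by rw [hu]; group
      have hv1 : cj N hN g' b = b * v := by rw [hv]; group
      have f1 : cj N hN (g' * g) b = b * v * cj N hN g' u := by
        rw [cj_mul_left, hu1, cj_mul, hv1]
      have f2 : cj N hN (g * g') b = b * u * cj N hN g v := by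
        rw [cj_mul_left, hv1, cj_mul, hu1]
      have hlu : lev u ≤ j := hgE b
      have hlv : lev v ≤ j := hgE' b
      have hp : lev (u⁻¹ * cj N hN g' u) ≤ j - 1 := by
        by_cases h : u = 1
        · rw [h, cj_one]
          simp [l1]
        · have := hdrop g' (hder i hg') u h
          omega
      have hq : lev (v⁻¹ * cj N hN g v) ≤ j - 1 := by
        by_cases h : v = 1
        · rw [h, cj_one]
          simp [l1]
        · have := hdrop g (hder i hg) v h
          omega
      have hr1 : lev (u⁻¹ * v⁻¹ * u * v) ≤ j - 1 := by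
        by_cases h : u = 1
        · rw [h]
          simp [l1]
        by_cases h' : v = 1
        · rw [h']
          simp [l1]
        rcases le_total (lev v) (lev u) with h6 | h6
        · have := hcom u v h h6
          omega
        · have h7 := hcom v u h' h6
          have e : u⁻¹ * v⁻¹ * u * v = (v⁻¹ * u⁻¹ * v * u)⁻¹ := by group
          rw [e, h3]
          omega
      have e : a⁻¹ * cj N hN ⁅g, g'⁆ a = (u⁻¹ * cj N hN g' u)⁻¹ * (u⁻¹ * v⁻¹ * u * v) *
          (v⁻¹ * cj N hN g v) := by
        rw [ec, f2]
        conv_lhs => rw [ea, f1]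
        group
      rw [e]
      refine (h2 _ _).trans (max_le ((h2 _ _).trans (max_le ?_ hr1)) hq)
      rw [h3]
      exact hp
  have hfinal : derivedSeries K (M + 1) ≤ Subgroup.center K := by
    intro g hg
    apply hcen
    intro a ha
    have h4 := (hE _ _).1 (key M hg) ⟨a, ha⟩
    have h5 : lev ((⟨a, ha⟩ : N)⁻¹ * cj N hN g ⟨a, ha⟩) = 0 := by omega
    have h6 := (h1 _).1 h5
    have h7 : cj N hN g ⟨a, ha⟩ = (⟨a, ha⟩ : N) := by
      rw [inv_mul_eq_one] at h6
      exact h6.symm
    have h8 := congrArg Subtype.val h7
    simp only [cj] at h8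
    rw [mul_inv_eq_iff_eq_mul] at h8
    exact h8.symm
  refine ⟨⟨M + 2, ?_⟩⟩
  rw [eq_bot_iff, derivedSeries_succ, Subgroup.commutator_le]
  intro g hg g' _
  have := (Subgroup.mem_center_iff.1 (hfinal hg)) g'
  rw [Subgroup.mem_bot, commutatorElement_eq_one_iff_mul_comm]
  exact this.symm

end Pool.Agent.K7.H66.EXSOLV
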