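import Pool.Agent.K7.H84.GG.Stm

/-!
# Project GG, job S7 (`StS7` and `StSgn`)
-/

set_option autoImplicit false

namespace Pool.Agent.K7.H66.GGS7

open Finset DC813 Pool.Agent.K7.H84.GG

variable {α : Type} [DecidableEq α] {r : Finset α → ℕ}

theorem cl_le (hr : IsRk r) {X Y : Finset α} {e : α} (hXY : X ⊆ Y) (h : r (insert e X) ≤ r X) :
    r (insert e Y) ≤ r Y := by
  have h1 := hr.submod (insert e X) Y
  have h2 : insert e X ∪ Y = insert e Y := by
    rw [Finset.insert_union, Finset.union_eq_right.2 hXY]
  have h3 : X ⊆ insert e X ∩ Y := Finset.subset_inter (Finset.subset_insert _ _) hXY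
  have h4 := hr.mono _ _ h3
  rw [h2] at h1
  omega

theorem r_union (hr : IsRk r) {A : Finset α} (S : Finset α)
    (h : ∀ e ∈ S, r (insert e A) ≤ r A) : r (A ∪ S) = r A := by
  induction S using Finset.induction_on with
  | empty => rw [Finset.union_empty]
  | insert a S ha ih =>
    have h1 := ih (fun e he => h e (Finset.mem_insert_of_mem he))
    rw [Finset.union_insert]
    have h2 := cl_le hr (Finset.subset_union_left : A ⊆ A ∪ S) (h a (Finset.mem_insert_self _ _))
    have h3 := hr.mono _ _ (Finset.subset_insert a (A ∪ S))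
    omega

theorem mem_cl {E A : Finset α} {e : α} : e ∈ cl r E A ↔ e ∈ E ∧ r (insert e A) = r A :=
  Finset.mem_filter

theorem mem_fl {E F : Finset α} : F ∈ fl r E ↔ F ⊆ E ∧ ∀ e ∈ E, e ∉ F → r F < r (insert e F) := by
  rw [fl, Finset.mem_filter, Finset.mem_powerset]

theorem subset_cl {E A : Finset α} (hA : A ⊆ E) : A ⊆ cl r E A := by
  intro e he
  rw [mem_cl]
  exact ⟨hA he, by rw [Finset.insert_eq_of_mem he]⟩

theorem r_cl (hr : IsRk r) {E A : Finset α} (hA : A ⊆ E) : r (cl r E A) = r A := by
  have h1 := r_union hr (A := A) (cl r E A) (fun e he => (mem_cl.1 he).2.le)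
  rwa [Finset.union_eq_right.2 (subset_cl hA)] at h1

theorem cl_sub (E A : Finset α) : cl r E A ⊆ E := Finset.filter_subset _ _

theorem cl_mem_fl (hr : IsRk r) {E A : Finset α} (hA : A ⊆ E) : cl r E A ∈ fl r E := by
  rw [mem_fl]
  refine ⟨cl_sub E A, fun e he hne => ?_⟩
  rw [r_cl hr hA]
  have h1 : r (insert e A) ≠ r A := fun h => hne (mem_cl.2 ⟨he, h⟩)
  have h2 := hr.mono _ _ (Finset.subset_insert e A)
  have h3 := hr.mono _ _ (Finset.insert_subset_insert e (subset_cl (r := r) hA))
  omega

/-- value of the truncation on sets whose closure contains `L` -/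
theorem tr_pos {L A : Finset α} (h : r (A ∪ L) = r A) : tr r L A = r A - 1 := by
  unfold tr
  rw [if_pos h]

theorem tr_neg {L A : Finset α} (h : r (A ∪ L) ≠ r A) : tr r L A = r A := by
  unfold tr
  rw [if_neg h, Nat.sub_zero]

theorem tr_sup {L A : Finset α} (h : L ⊆ A) : tr r L A = r A - 1 :=
  tr_pos (by rw [Finset.union_eq_left.2 h])

theorem tr_le {L A : Finset α} : tr r L A ≤ r A := by
  unfold tr
  exact Nat.sub_le _ _

theorem single_le (hr : IsRk r) (x : α) : r {x} ≤ 1 := by
  have h1 := hr.insert_le ∅ x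
  have h2 := hr.empty
  have h3 : insert x (∅ : Finset α) = {x} := rfl
  rw [h3] at h1
  omega

theorem tr_Lp {E L : Finset α} {p : α} (hc : Ctx r E L p) : Lp (tr r L) E := by
  have hr := hc.hr
  intro x hx
  have h1 := hc.lp x hx
  have h2 := single_le hr x
  have h3 := hr.mono L ({x} ∪ L) Finset.subset_union_right
  have h4 := hc.hL2
  rw [tr_neg (by omega)]
  exact h1

theorem two_le {E L : Finset α} {p : α} (hc : Ctx r E L p) : 2 ≤ r E := by
  have h1 := hc.hr.mono L E (mem_fl.1 hc.hL).1
  have h2 := hc.hL2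
  omega

theorem tr_E {E L : Finset α} {p : α} (hc : Ctx r E L p) : tr r L E = r E - 1 :=
  tr_sup (mem_fl.1 hc.hL).1

theorem hy_tr {E L : Finset α} {p : α} (hc : Ctx r E L p) : hy (tr r L) E p = T1 r E L := by
  have hr := hc.hr
  have hLE := (mem_fl.1 hc.hL).1
  have hE2 := two_le hc
  have hTE := tr_E hc
  ext H
  rw [hy, T1, Finset.mem_filter, Finset.mem_filter, mem_fl, mem_fl]
  constructor
  · rintro ⟨⟨hHE, hfl⟩, hH1, hpH⟩
    have h0 := hfl p hc.hp hpH
    have hpL : insert p H ∪ L = H ∪ L := by
      rw [Finset.insert_union, Finset.insert_eq_of_mem (Finset.mem_union_right _ hc.hpL)]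
    have hle1 := hr.mono (insert p H) (H ∪ L)
      (Finset.insert_subset (Finset.mem_union_right _ hc.hpL) Finset.subset_union_left)
    have hle2 := hr.mono _ _ (Finset.subset_insert p H)
    have hne : r (H ∪ L) ≠ r H := by
      intro h
      have h1 : r (insert p H) = r H := by omega
      have h2 : r (insert p H ∪ L) = r (insert p H) := by rw [hpL, h1, h]
      rw [tr_pos h, tr_pos h2, h1] at h0
      exact lt_irrefl _ h0
    have hTH := tr_neg hne
    have hne2 : r (insert p H ∪ L) ≠ r (insert p H) := by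
      intro h
      rw [tr_pos h, hTH] at h0
      have h1 := hr.insert_le H p
      omega
    rw [hTH, tr_neg hne2] at h0
    rw [hpL] at hne2
    have hle3 := hr.mono _ _ (Finset.union_subset hHE hLE)
    rw [hTH] at hH1
    refine ⟨⟨hHE, fun e he heH => ?_⟩, by omega, by omega⟩
    have h1 := hfl e he heH
    have h2 : tr r L (insert e H) ≤ r (insert e H) := tr_le
    omega
  · rintro ⟨⟨hHE, hfl⟩, hH2, hHL⟩
    have hne : r (H ∪ L) ≠ r H := by omega
    have hTH := tr_neg hne
    refine ⟨⟨hHE, fun e he heH => ?_⟩, by omega, ?_⟩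
    · have h1 := hfl e he heH
      have h2 := hr.insert_le H e
      have h3 := hr.mono (H ∪ L) (insert e H ∪ L)
        (Finset.union_subset_union_left (Finset.subset_insert e H))
      rw [hTH, tr_neg (by omega)]
      exact h1
    · intro hp
      have h1 := hr.submod H L
      have h2 : {p} ⊆ H ∩ L := by
        rw [Finset.singleton_subset_iff, Finset.mem_inter]; exact ⟨hp, hc.hpL⟩
      have h3 := hr.mono _ _ h2
      have h4 := hc.lp p hc.hp
      have h5 := hc.hL2
      omega

theorem mu_tr {E L : Finset α} {p : α} (hc : Ctx r E L p) {G : Finset α} (hG : G ∈ T1 r E L) :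
    mu (tr r L) G = mu r G := by
  have hr := hc.hr
  rw [T1, Finset.mem_filter] at hG
  have hX : ∀ X ⊆ G, tr r L X = r X := by
    intro X hX
    refine tr_neg fun h => ?_
    have h1 := hr.submod (X ∪ L) G
    have h2 : G ∪ L ⊆ (X ∪ L) ∪ G := by
      intro z hz
      simp only [Finset.mem_union] at hz ⊢
      tauto
    have h3 := hr.mono _ _ h2
    have h4 : X ⊆ (X ∪ L) ∩ G := Finset.subset_inter Finset.subset_union_left hX
    have h5 := hr.mono _ _ h4
    omega
  unfold mu
  rw [hX G (Finset.Subset.refl G)]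
  congr 1
  refine Finset.sum_congr ?_ fun _ _ => rfl
  refine Finset.filter_congr fun X hX' => ?_
  rw [hX X (Finset.mem_powerset.1 hX')]

theorem fl_tr {E L : Finset α} {p : α} (hc : Ctx r E L p) :
    (fl (tr r L) E).filter (fun F => p ∈ F) = (fl r E).filter (fun F => L ⊆ F) := by
  have hr := hc.hr
  have hLE := (mem_fl.1 hc.hL).1
  have hL2 := hc.hL2
  have h1p := hc.lp p hc.hp
  ext F
  rw [Finset.mem_filter, Finset.mem_filter, mem_fl, mem_fl]
  constructor
  · rintro ⟨⟨hFE, hfl⟩, hp⟩
    have hLF : L ⊆ F := by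
      intro x hx
      by_contra hxF
      have h0 := hfl x (hLE hx) hxF
      by_cases hFL : r (F ∪ L) = r F
      · have h1 := hr.mono (insert x F) (F ∪ L)
          (Finset.insert_subset (Finset.mem_union_right _ hx) Finset.subset_union_left)
        have h2 := hr.mono _ _ (Finset.subset_insert x F)
        have h3 : insert x F ∪ L = F ∪ L := by
          rw [Finset.insert_union, Finset.insert_eq_of_mem (Finset.mem_union_right _ hx)]
        have h4 : r (insert x F) = r F := by omega
        have h5 : r (insert x F ∪ L) = r (insert x F) := by rw [h3, h4, hFL]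
        rw [tr_pos hFL, tr_pos h5, h4] at h0
        exact lt_irrefl _ h0
      · rw [tr_neg hFL] at h0
        have h3 : insert x F ∪ L = F ∪ L := by
          rw [Finset.insert_union, Finset.insert_eq_of_mem (Finset.mem_union_right _ hx)]
        -- r (F ∪ L) ≤ r F + r L - r {p} = r F + 1
        have h4 := hr.submod F L
        have h5 : {p} ⊆ F ∩ L := by
          rw [Finset.singleton_subset_iff, Finset.mem_inter]; exact ⟨hp, hc.hpL⟩
        have h6 := hr.mono _ _ h5
        have h7 : tr r L (insert x F) ≤ r (insert x F) := tr_le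
        have h8 := hr.mono (insert x F) (F ∪ L)
          (Finset.insert_subset (Finset.mem_union_right _ hx) Finset.subset_union_left)
        have h9 : r (insert x F ∪ L) = r (insert x F) := by rw [h3]; omega
        rw [tr_pos h9] at h0
        omega
    refine ⟨⟨hFE, fun e he heF => ?_⟩, hLF⟩
    have h0 := hfl e he heF
    rw [tr_sup hLF, tr_sup (hLF.trans (Finset.subset_insert e F))] at h0
    omega
  · rintro ⟨⟨hFE, hfl⟩, hLF⟩
    refine ⟨⟨hFE, fun e he heF => ?_⟩, hLF hc.hpL⟩
    have h0 := hfl e he heF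
    rw [tr_sup hLF, tr_sup (hLF.trans (Finset.subset_insert e F))]
    have h1 := hr.mono _ _ hLF
    omega

theorem con_tr {E L : Finset α} {p : α} (hc : Ctx r E L p) {F : Finset α} (hF : L ⊆ F) :
    con (tr r L) F = con r F := by
  funext A
  have h1 := hc.hr.mono _ _ hF
  have h2 := hc.hL2
  have h3 := hc.hr.mono F (A ∪ F) Finset.subset_union_right
  show tr r L (A ∪ F) - tr r L F = r (A ∪ F) - r F
  rw [tr_sup hF, tr_sup (hF.trans Finset.subset_union_right)]
  omega

/-- **S7** -/
theorem t (hT : StTR) : StS7 := by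
  intro α _ r E L p f hc hIH hf
  have hr := hc.hr
  have hE2 := two_le hc
  have hTE := tr_E hc
  have hL2 := hc.hL2
  have h1 := hIH (tr r L E) (by omega) (tr r L) E p f (hT α r L hr (by omega)) rfl
    (tr_Lp hc) hc.hp hf
  unfold GGs at h1
  rw [hy_tr hc, fl_tr hc] at h1
  refine le_trans (le_of_eq ?_) (h1.trans (le_of_eq ?_))
  · refine Finset.sum_congr rfl fun F hF => ?_
    have hLF := (Finset.mem_filter.1 hF).2
    unfold mc
    rw [con_tr hc hLF]
  · refine Finset.sum_congr rfl fun G hG => ?_
    rw [mu_tr hc hG]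

/-- **signs** -/
theorem sgn (hT : StTR) (hB : StBNN) : StSgn := by
  intro α _ r E L p hc hIH
  have hr := hc.hr
  have hE2 := two_le hc
  have hTE := tr_E hc
  have hL2 := hc.hL2
  have hLE := (mem_fl.1 hc.hL).1
  have hTr := hT α r L hr (by omega)
  constructor
  · rw [Nat.one_le_iff_ne_zero, ← Nat.pos_iff_ne_zero, Finset.card_pos]
    have h1p := single_le hr p
    have hy1 : ∃ y ∈ L, r {p} < r (insert y {p}) := by
      by_contra hcon
      push Not at hcon
      have h1 := r_union hr (A := {p}) L hcon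
      have h2 := hr.mono L ({p} ∪ L) Finset.subset_union_right
      omega
    obtain ⟨y, hyL, hy2⟩ := hy1
    have hyE := hLE hyL
    have h1y := single_le hr y
    have h0y := hc.lp y hyE
    have h0p := hc.lp p hc.hp
    have hsub : ({y} : Finset α) ⊆ L := Finset.singleton_subset_iff.2 hyL
    refine ⟨cl r L {y}, ?_⟩
    rw [hy, Finset.mem_filter]
    refine ⟨cl_mem_fl hr hsub, ?_, ?_⟩
    · rw [r_cl hr hsub]; omega
    · intro h
      have h1 := (mem_cl.1 h).2
      rw [Finset.pair_comm] at h1
      omega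
  · intro X hX
    rw [XX, Finset.mem_filter] at hX
    obtain ⟨hXf, -, -, -⟩ := hX
    have hXE := (mem_fl.1 hXf).1
    have hins : insert p X ⊆ E := Finset.insert_subset hc.hp hXE
    have hle := hTr.mono _ _ hins
    refine hB α (tr r L) (insert p X) p hTr (fun x hx => tr_Lp hc x (hins hx))
      (Finset.mem_insert_self p X) fun f hf => ?_
    exact hIH (tr r L (insert p X)) (by omega) (tr r L) (insert p X) p f hTr rfl
      (fun x hx => tr_Lp hc x (hins hx)) (Finset.mem_insert_self p X) hf

end Pool.Agent.K7.H66.GGS7
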