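import Pool.Agent.K7.H72.IP.Stm2
import Pool.Agent.H265R2.CritP4

set_option autoImplicit false

/-! # Project IP, job KA2: an independent set of `a` vertices has few common neighbours -/

namespace Pool.Agent.K7.H66.IPKA2

open SimpleGraph Pool.Agent.K7.H72.IP

/-- a clique of `2 t` vertices contains `K_{t,t}` -/
theorem clique_not_noK {n : ℕ} {G : SimpleGraph (Fin n)} {t : ℕ} (hK : NoK t G)
    (T : Finset (Fin n)) (hT : T.card = 2 * t)
    (hc : ∀ x ∈ T, ∀ y ∈ T, x ≠ y → G.Adj x y) : False := by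
  have e : Fin t ⊕ Fin t ≃ T := Fintype.equivOfCardEq (by simp [hT, two_mul])
  apply hK
  refine ⟨⟨⟨fun i => (e i : Fin n), ?_⟩, ?_⟩⟩
  · intro i j hij
    have hne : i ≠ j := hij.ne
    exact hc _ (e i).2 _ (e j).2 (fun h => hne (e.injective (Subtype.ext h)))
  · intro i j hij
    exact e.injective (Subtype.ext hij)

/-- the job -/
theorem t : StKA2 := by
  classical
  intro n G t a b _ hK hE A hA hI
  by_contra hcon
  push Not at hcon
  set S : Finset (Fin n) := Finset.univ.filter fun v => ∀ x ∈ A, G.Adj v x with hS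
  have hS1 : {v : Fin n | ∀ x ∈ A, G.Adj v x}.ncard = S.card := by
    rw [← Set.ncard_coe_finset]
    congr 1
    ext v
    simp [hS]
  rw [hS1] at hcon
  rcases Pool.Agent.H265R2.CritP4.ramsey G (2 * t + b) (2 * t) b le_rfl S hcon with
    ⟨T, _, hT, hc⟩ | ⟨B, hBS, hB, hBI⟩
  · exact clique_not_noK hK T hT hc
  · have eA : Fin a ≃ A := Fintype.equivOfCardEq (by simp [hA])
    have eB : Fin b ≃ B := Fintype.equivOfCardEq (by simp [hB])
    have hAB : ∀ x ∈ A, ∀ y ∈ B, G.Adj x y := by
      intro x hx y hy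
      have := (Finset.mem_filter.1 (hBS hy)).2 x hx
      exact this.symm
    refine hE.false ⟨⟨Sum.elim (fun i => (eA i : Fin n)) (fun i => (eB i : Fin n)), ?_⟩, ?_⟩
    · rintro (i | i) (j | j) hij
      · exact congrArg Sum.inl (eA.injective (Subtype.ext hij))
      · exact absurd hij (hAB _ (eA i).2 _ (eB j).2).ne
      · exact absurd hij.symm (hAB _ (eA j).2 _ (eB i).2).ne
      · exact congrArg Sum.inr (eB.injective (Subtype.ext hij))
    · rintro (i | i) (j | j)
      · have h1 : ¬ G.Adj (eA i : Fin n) (eA j : Fin n) := hI _ (eA i).2 _ (eA j).2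
        exact ⟨fun h => absurd h h1, fun h => by simp [completeBipartiteGraph] at h⟩
      · have h1 : G.Adj (eA i : Fin n) (eB j : Fin n) := hAB _ (eA i).2 _ (eB j).2
        exact ⟨fun _ => by simp [completeBipartiteGraph], fun _ => h1⟩
      · have h1 : G.Adj (eB i : Fin n) (eA j : Fin n) := (hAB _ (eA j).2 _ (eB i).2).symm
        exact ⟨fun _ => by simp [completeBipartiteGraph], fun _ => h1⟩
      · have h1 : ¬ G.Adj (eB i : Fin n) (eB j : Fin n) := hBI _ (eB i).2 _ (eB j).2
        exact ⟨fun h => absurd h h1, fun h => by simp [completeBipartiteGraph] at h⟩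

end Pool.Agent.K7.H66.IPKA2
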