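import Pool.Agent.K7.H81.PD.Stm

set_option autoImplicit false

/-! # Project PD, job APR -/

open MeasureTheory Filter Topology
open scoped ContDiff Manifold

namespace Pool.Agent.K7.H66.PDAPR

open Pool.Agent.K7.H81.PD

/-- one approximation -/
theorem one {N : ℕ} {Ω A : Set (E N)} (hΩ : IsOpen Ω) (hb : Bornology.IsBounded Ω)
    (hA : MeasurableSet A) (hAΩ : A ⊆ Ω) {δ : ENNReal} (hδ : δ ≠ 0) :
    ∃ (θ : E N → ℝ) (B : Set (E N)), Cci Ω θ ∧ (∀ x, 0 ≤ θ x ∧ θ x ≤ 1) ∧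
      volume B ≤ δ + δ ∧ ∀ x ∉ B, θ x = A.indicator (fun _ => 1) x := by
  have hAf : volume A ≠ ⊤ := ((measure_mono hAΩ).trans_lt hb.measure_lt_top).ne
  obtain ⟨K, hKA, hK, hKm⟩ := hA.exists_isCompact_sdiff_lt hAf hδ
  obtain ⟨U, hAU, hU, -, hUm⟩ := hA.exists_isOpen_sdiff_lt hAf hδ
  have hV : IsOpen (U ∩ Ω) := hU.inter hΩ
  have hKV : K ⊆ U ∩ Ω := fun x hx => ⟨hAU (hKA hx), hAΩ (hKA hx)⟩
  obtain ⟨L, hL, hKL, hLV⟩ := exists_compact_between hK hV hKV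
  obtain ⟨f, hf0, hf1, hf⟩ := exists_contMDiffMap_zero_one_of_isClosed (n := (⊤ : ℕ∞))
    (modelWithCornersSelf ℝ (E N)) (s := (interior L)ᶜ) (t := K)
    isOpen_interior.isClosed_compl hK.isClosed
    (Set.disjoint_left.2 fun x hx hxK => hx (hKL hxK))
  have hfs : Function.support (f : E N → ℝ) ⊆ interior L := by
    intro x hx
    by_contra hcon
    exact hx (hf0 hcon)
  have hts : tsupport (f : E N → ℝ) ⊆ L :=
    closure_minimal (hfs.trans interior_subset) hL.isClosed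
  refine ⟨f, (U ∩ Ω) \ K, ⟨f.contMDiff.contDiff, ?_, hts.trans (hLV.trans Set.inter_subset_right)⟩,
    fun x => ⟨(hf x).1, (hf x).2⟩, ?_, ?_⟩
  · exact HasCompactSupport.of_support_subset_isCompact hL (hfs.trans interior_subset)
  · have h1 : (U ∩ Ω) \ K ⊆ (U \ A) ∪ (A \ K) := by
      rintro x ⟨⟨hxU, -⟩, hxK⟩
      by_cases hxA : x ∈ A
      · exact Or.inr ⟨hxA, hxK⟩
      · exact Or.inl ⟨hxU, hxA⟩
    exact (measure_mono h1).trans ((measure_union_le _ _).trans (add_le_add hUm.le hKm.le))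
  · intro x hx
    by_cases hxK : x ∈ K
    · rw [Set.indicator_of_mem (hKA hxK)]
      exact hf1 hxK
    · have hxV : x ∉ U ∩ Ω := fun h => hx ⟨h, hxK⟩
      have hxA : x ∉ A := fun h => hxV ⟨hAU h, hAΩ h⟩
      rw [Set.indicator_of_notMem hxA]
      exact hf0 fun h => hxV (hLV (interior_subset h))

theorem t : StApr := by
  intro N Ω A hΩ hb hA hAΩ
  obtain ⟨δ, hδ0, hδ⟩ := ENNReal.exists_pos_sum_of_countable' (ε := 1) one_ne_zero ℕ
  choose θ B h1 h2 h3 h4 using fun k => one hΩ hb hA hAΩ (hδ0 k).ne'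
  refine ⟨θ, h1, h2, ?_⟩
  have hsum : ∑' k, volume (B k) ≠ ⊤ := by
    refine ne_top_of_le_ne_top ?_ (ENNReal.tsum_le_tsum h3)
    rw [ENNReal.tsum_add]
    exact ENNReal.add_ne_top.2 ⟨(hδ.trans ENNReal.one_lt_top).ne, (hδ.trans ENNReal.one_lt_top).ne⟩
  refine ae_restrict_of_ae ?_
  filter_upwards [ae_eventually_notMem hsum] with x hx
  refine tendsto_const_nhds.congr' ?_
  filter_upwards [hx] with k hk
  exact (h4 k x hk).symm

end Pool.Agent.K7.H66.PDAPR
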