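import Mathlib

/-! Sets in finite abelian groups all of whose h-fold sums (h = 2, 3) are distinct and cover the group:
they have at most two elements. -/

set_option autoImplicit false

open Finset

namespace Pool.Agent.K7.H66.PB

variable {G : Type*} [AddCommGroup G] [Fintype G] [DecidableEq G]

/-- if all elements are sums of three elements of `A` and the group has `C(k+2,3)` elements, then the
sums of three elements are distinct -/
lemma inj3 (A : Finset G) (hs : ∀ g : G, ∃ a ∈ A, ∃ b ∈ A, ∃ c ∈ A, g = a + b + c)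
    (hc : 6 * Fintype.card G = A.card * (A.card + 1) * (A.card + 2)) :
    ∀ a ∈ A, ∀ b ∈ A, ∀ c ∈ A, ∀ a' ∈ A, ∀ b' ∈ A, ∀ c' ∈ A, a + b + c = a' + b' + c' →
      ({a, b, c} : Multiset G) = {a', b', c'} := by
  classical
  let f : Sym A 3 → G := fun s => ((s : Multiset A).map (fun x : A => (x : G))).sum
  have hf : ∀ (a b c : A), f ⟨{a, b, c}, by simp⟩ = (a : G) + b + c := by
    intro a b c
    simp only [f]
    simp [add_assoc]
  have hsurj : Function.Surjective f := by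
    intro g
    obtain ⟨a, ha, b, hb, c, hc, rfl⟩ := hs g
    exact ⟨⟨{⟨a, ha⟩, ⟨b, hb⟩, ⟨c, hc⟩}, by simp⟩, hf _ _ _⟩
  have hcard : Fintype.card (Sym A 3) = Fintype.card G := by
    rw [Sym.card_sym_eq_multichoose, Fintype.card_coe, Nat.multichoose_eq]
    have h1 : 6 * (A.card + 3 - 1).choose 3 = A.card * (A.card + 1) * (A.card + 2) := by
      have : A.card + 3 - 1 = A.card + 2 := by omega
      rw [this]
      have h2 := Nat.descFactorial_eq_factorial_mul_choose (A.card + 2) 3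
      have h3 : (A.card + 2).descFactorial 3 = A.card * (A.card + 1) * (A.card + 2) := by
        simp [Nat.descFactorial]
        ring_nf
      rw [h3] at h2
      simp [Nat.factorial] at h2
      omega
    omega
  have hbij := (Fintype.bijective_iff_surjective_and_card f).2 ⟨hsurj, hcard⟩
  intro a ha b hb c hc a' ha' b' hb' c' hc' e
  have h4 : f ⟨{⟨a, ha⟩, ⟨b, hb⟩, ⟨c, hc⟩}, by simp⟩ = f ⟨{⟨a', ha'⟩, ⟨b', hb'⟩, ⟨c', hc'⟩}, by simp⟩ := by
    rw [hf, hf]; exact e
  have h5 := hbij.1 h4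
  have h6 := congrArg (fun s : Sym A 3 => (s : Multiset A).map (fun x : A => (x : G))) h5
  simpa using h6

lemma inj2 (A : Finset G) (hs : ∀ g : G, ∃ a ∈ A, ∃ b ∈ A, g = a + b)
    (hc : 2 * Fintype.card G = A.card * (A.card + 1)) :
    ∀ a ∈ A, ∀ b ∈ A, ∀ a' ∈ A, ∀ b' ∈ A, a + b = a' + b' →
      ({a, b} : Multiset G) = {a', b'} := by
  classical
  let f : Sym A 2 → G := fun s => ((s : Multiset A).map (fun x : A => (x : G))).sum
  have hf : ∀ (a b : A), f ⟨{a, b}, by simp⟩ = (a : G) + b := by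
    intro a b
    simp only [f]
    simp
  have hsurj : Function.Surjective f := by
    intro g
    obtain ⟨a, ha, b, hb, rfl⟩ := hs g
    exact ⟨⟨{⟨a, ha⟩, ⟨b, hb⟩}, by simp⟩, hf _ _⟩
  have hcard : Fintype.card (Sym A 2) = Fintype.card G := by
    rw [Sym.card_sym_eq_multichoose, Fintype.card_coe, Nat.multichoose_eq]
    have h1 : 2 * (A.card + 2 - 1).choose 2 = A.card * (A.card + 1) := by
      have : A.card + 2 - 1 = A.card + 1 := by omega
      rw [this]
      have h2 := Nat.descFactorial_eq_factorial_mul_choose (A.card + 1) 2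
      have h3 : (A.card + 1).descFactorial 2 = A.card * (A.card + 1) := by
        simp [Nat.descFactorial]
      rw [h3] at h2
      simp [Nat.factorial] at h2
      omega
    omega
  have hbij := (Fintype.bijective_iff_surjective_and_card f).2 ⟨hsurj, hcard⟩
  intro a ha b hb a' ha' b' hb' e
  have h4 : f ⟨{⟨a, ha⟩, ⟨b, hb⟩}, by simp⟩ = f ⟨{⟨a', ha'⟩, ⟨b', hb'⟩}, by simp⟩ := by
    rw [hf, hf]; exact e
  have h5 := hbij.1 h4
  have h6 := congrArg (fun s : Sym A 2 => (s : Multiset A).map (fun x : A => (x : G))) h5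
  simpa using h6

omit [AddCommGroup G] [Fintype G] [DecidableEq G] in
lemma pair_eq {a b c d : G} (h : ({a, b} : Multiset G) = {c, d}) :
    (a = c ∧ b = d) ∨ (a = d ∧ b = c) := by
  have h1 : a ∈ ({c, d} : Multiset G) := by rw [← h]; simp
  have h2 : (a : G) = c ∨ a = d := by simpa using h1
  rcases h2 with rfl | rfl
  · left
    refine ⟨rfl, ?_⟩
    have : (a ::ₘ ({b} : Multiset G)) = a ::ₘ {d} := h
    rw [Multiset.cons_inj_right] at this
    simpa using this
  · right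
    refine ⟨rfl, ?_⟩
    have : (a ::ₘ ({b} : Multiset G)) = c ::ₘ a ::ₘ 0 := h
    rw [Multiset.cons_swap, Multiset.cons_inj_right] at this
    simpa using this

omit [Fintype G] [DecidableEq G] in
/-- The key cancellation. -/
lemma key3 {A : Finset G}
    (h : ∀ a ∈ A, ∀ b ∈ A, ∀ c ∈ A, ∀ a' ∈ A, ∀ b' ∈ A, ∀ c' ∈ A, a + b + c = a' + b' + c' →
      ({a, b, c} : Multiset G) = {a', b', c'})
    {a1 b1 c1 a2 b2 c2 : G} (ha1 : a1 ∈ A) (hb1 : b1 ∈ A) (hc1 : c1 ∈ A) (ha2 : a2 ∈ A)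
    (hb2 : b2 ∈ A) (hc2 : c2 ∈ A) (e : a1 + b1 - c1 = a2 + b2 - c2) (h1 : c1 ≠ a1) (h2 : c1 ≠ b1) :
    c1 = c2 ∧ ((a1 = a2 ∧ b1 = b2) ∨ (a1 = b2 ∧ b1 = a2)) := by
  have e' : a1 + b1 + c2 = a2 + b2 + c1 := by
    have := congrArg (fun x => x + c1 + c2) e
    calc a1 + b1 + c2 = a1 + b1 - c1 + c1 + c2 := by abel
      _ = a2 + b2 - c2 + c1 + c2 := this
      _ = a2 + b2 + c1 := by abel
  have h3 := h a1 ha1 b1 hb1 c2 hc2 a2 ha2 b2 hb2 c1 hc1 e'
  have h4 : c1 ∈ ({a1, b1, c2} : Multiset G) := by rw [h3]; simp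
  have h5 : c1 = c2 := by
    simp only [Multiset.insert_eq_cons, Multiset.mem_cons, Multiset.mem_singleton] at h4
    tauto
  refine ⟨h5, ?_⟩
  subst h5
  apply pair_eq
  have h6 : c1 ::ₘ ({a1, b1} : Multiset G) = c1 ::ₘ {a2, b2} := by
    have e1 : ({a1, b1, c1} : Multiset G) = c1 ::ₘ ({a1, b1} : Multiset G) := by
      rw [Multiset.insert_eq_cons, Multiset.insert_eq_cons, Multiset.insert_eq_cons]
      show a1 ::ₘ b1 ::ₘ c1 ::ₘ 0 = c1 ::ₘ a1 ::ₘ b1 ::ₘ 0
      rw [Multiset.cons_swap b1 c1, Multiset.cons_swap a1 c1]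
    have e2 : ({a2, b2, c1} : Multiset G) = c1 ::ₘ ({a2, b2} : Multiset G) := by
      rw [Multiset.insert_eq_cons, Multiset.insert_eq_cons, Multiset.insert_eq_cons]
      show a2 ::ₘ b2 ::ₘ c1 ::ₘ 0 = c1 ::ₘ a2 ::ₘ b2 ::ₘ 0
      rw [Multiset.cons_swap b2 c1, Multiset.cons_swap a2 c1]
    rw [← e1, ← e2]; exact h3
  exact (Multiset.cons_inj_right c1).1 h6

lemma card3 (A : Finset G)
    (h : ∀ a ∈ A, ∀ b ∈ A, ∀ c ∈ A, ∀ a' ∈ A, ∀ b' ∈ A, ∀ c' ∈ A, a + b + c = a' + b' + c' →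
      ({a, b, c} : Multiset G) = {a', b', c'}) :
    2 * (A.card * A.card) + A.card * (A.card - 1) * (A.card - 2) ≤ 2 * Fintype.card G := by
  classical
  set R1 := A.offDiag.image (fun p => p.1 + p.1 - p.2) with hR1
  set T := A.offDiag.sigma (fun p => A \ {p.1, p.2}) with hT
  set R2 := T.image (fun t => t.1.1 + t.1.2 - t.2) with hR2
  have hinj1 : Set.InjOn (fun p : G × G => p.1 + p.1 - p.2) (A.offDiag : Set (G × G)) := by
    rintro ⟨a, c⟩ hp ⟨a', c'⟩ hp' e
    rw [mem_coe, mem_offDiag] at hp hp'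
    have := key3 h hp.1 hp.1 hp.2.1 hp'.1 hp'.1 hp'.2.1 e (Ne.symm hp.2.2) (Ne.symm hp.2.2)
    obtain ⟨e1, e2⟩ := this
    simp only at e1 e2
    ext <;> tauto
  have hc1 : R1.card = A.card * A.card - A.card := by
    rw [hR1, card_image_of_injOn hinj1, offDiag_card]
  have hcT : T.card = (A.card * A.card - A.card) * (A.card - 2) := by
    rw [hT, card_sigma, sum_const_nat (m := A.card - 2), offDiag_card]
    rintro ⟨a, b⟩ hp
    rw [mem_offDiag] at hp
    rw [card_sdiff_of_subset, card_pair hp.2.2]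
    intro x hx
    simp only [mem_insert, mem_singleton] at hx
    rcases hx with rfl | rfl
    · exact hp.1
    · exact hp.2.1
  have hc2 : T.card ≤ 2 * R2.card := by
    apply card_le_mul_card_image
    intro g hg
    rw [mem_image] at hg
    obtain ⟨⟨⟨a, b⟩, c⟩, ht, rfl⟩ := hg
    rw [hT, mem_sigma, mem_offDiag] at ht
    simp only [mem_sdiff, mem_insert, mem_singleton, not_or] at ht
    have hsub : (T.filter (fun t => t.1.1 + t.1.2 - t.2 = a + b - c)) ⊆
        {(⟨(a, b), c⟩ : Σ _ : G × G, G), ⟨(b, a), c⟩} := by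
      rintro ⟨⟨a', b'⟩, c'⟩ ht'
      rw [mem_filter, hT, mem_sigma, mem_offDiag] at ht'
      simp only [mem_sdiff, mem_insert, mem_singleton, not_or] at ht'
      obtain ⟨e1, e2⟩ := key3 h ht'.1.1.1 ht'.1.1.2.1 ht'.1.2.1 ht.1.1 ht.1.2.1 ht.2.1 ht'.2
        ht'.1.2.2.1 ht'.1.2.2.2
      subst e1
      rcases e2 with ⟨rfl, rfl⟩ | ⟨rfl, rfl⟩ <;> simp
    exact (card_le_card hsub).trans (card_le_two)
  have hd01 : Disjoint A R1 := by
    rw [disjoint_left]
    intro r hr hr1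
    rw [hR1, mem_image] at hr1
    obtain ⟨⟨a, c⟩, hp, e⟩ := hr1
    rw [mem_offDiag] at hp
    simp only at hp e
    have e3 : a + a - c = r + r - r := by rw [e]; abel
    obtain ⟨e1, e2⟩ := key3 h hp.1 hp.1 hp.2.1 hr hr hr e3 (Ne.symm hp.2.2) (Ne.symm hp.2.2)
    apply hp.2.2
    rw [e1]; tauto
  have hd02 : Disjoint A R2 := by
    rw [disjoint_left]
    intro r hr hr1
    rw [hR2, mem_image] at hr1
    obtain ⟨⟨⟨a, b⟩, c⟩, ht, e⟩ := hr1
    rw [hT, mem_sigma, mem_offDiag] at ht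
    simp only [mem_sdiff, mem_insert, mem_singleton, not_or] at ht
    have e3 : a + b - c = r + r - r := by rw [e]; abel
    obtain ⟨e1, e2⟩ := key3 h ht.1.1 ht.1.2.1 ht.2.1 hr hr hr e3 ht.2.2.1 ht.2.2.2
    apply ht.2.2.1
    rw [e1]; tauto
  have hd12 : Disjoint R1 R2 := by
    rw [disjoint_left]
    intro r hr hr1
    rw [hR2, mem_image] at hr1
    rw [hR1, mem_image] at hr
    obtain ⟨⟨⟨a, b⟩, c⟩, ht, e⟩ := hr1
    obtain ⟨⟨a', c'⟩, hp, e'⟩ := hr
    rw [hT, mem_sigma, mem_offDiag] at ht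
    rw [mem_offDiag] at hp
    simp only [mem_sdiff, mem_insert, mem_singleton, not_or] at ht
    simp only at e e' hp
    have e3 : a + b - c = a' + a' - c' := by rw [e, e']
    obtain ⟨e1, e2⟩ := key3 h ht.1.1 ht.1.2.1 ht.2.1 hp.1 hp.1 hp.2.1 e3 ht.2.2.1 ht.2.2.2
    apply ht.1.2.2
    rcases e2 with ⟨x, y⟩ | ⟨x, y⟩ <;> rw [x, y]
  have htot : A.card + R1.card + R2.card ≤ Fintype.card G := by
    have : (A ∪ R1 ∪ R2).card = A.card + R1.card + R2.card := by
      rw [card_union_of_disjoint, card_union_of_disjoint hd01]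
      rw [disjoint_union_left]
      exact ⟨hd02, hd12⟩
    rw [← this]
    exact card_le_univ _
  rw [hc1] at htot
  rw [hcT] at hc2
  rcases Nat.lt_or_ge A.card 2 with hk | hk
  · interval_cases A.card <;> omega
  · obtain ⟨k, hk'⟩ : ∃ k, A.card = k + 2 := ⟨A.card - 2, by omega⟩
    rw [hk'] at htot hc2 ⊢
    have x1 : (k + 2) * (k + 2) - (k + 2) = (k + 2) * (k + 1) := by
      have : (k + 2) * (k + 2) = (k + 2) * (k + 1) + (k + 2) := by ring
      omega
    have x2 : k + 2 - 1 = k + 1 := by omega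
    have x3 : k + 2 - 2 = k := by omega
    rw [x1, x3] at hc2
    rw [x1] at htot
    rw [x2, x3]
    nlinarith

lemma card2 (A : Finset G)
    (h : ∀ a ∈ A, ∀ b ∈ A, ∀ a' ∈ A, ∀ b' ∈ A, a + b = a' + b' →
      ({a, b} : Multiset G) = {a', b'}) :
    A.card * A.card - A.card + 1 ≤ Fintype.card G := by
  classical
  have hinj : Set.InjOn (fun p : G × G => p.1 - p.2) (A.offDiag : Set (G × G)) := by
    rintro ⟨a, b⟩ hp ⟨a', b'⟩ hp' e
    rw [mem_coe, mem_offDiag] at hp hp'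
    simp only at hp hp' e
    have e' : a + b' = a' + b := by
      calc a + b' = (a - b) + b + b' := by abel
        _ = (a' - b') + b + b' := by rw [e]
        _ = a' + b := by abel
    rcases pair_eq (h a hp.1 b' hp'.2.1 a' hp'.1 b hp.2.1 e') with ⟨x, y⟩ | ⟨x, y⟩
    · rw [x, y]
    · exact absurd x hp.2.2
  have h1 : (insert 0 (A.offDiag.image (fun p : G × G => p.1 - p.2))).card ≤ Fintype.card G :=
    card_le_univ _
  rw [card_insert_of_notMem, card_image_of_injOn hinj, offDiag_card] at h1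
  · exact h1
  · intro h0
    rw [mem_image] at h0
    obtain ⟨⟨a, b⟩, hp, e⟩ := h0
    rw [mem_offDiag] at hp
    exact hp.2.2 (sub_eq_zero.1 e)

/-- No perfect set for sums of three, beyond two elements. -/
lemma no3 (A : Finset G) (hs : ∀ g : G, ∃ a ∈ A, ∃ b ∈ A, ∃ c ∈ A, g = a + b + c)
    (hc : 6 * Fintype.card G = A.card * (A.card + 1) * (A.card + 2)) : A.card ≤ 2 := by
  by_contra hk
  push Not at hk
  have h1 := card3 A (inj3 A hs hc)
  obtain ⟨k, hk'⟩ : ∃ k, A.card = k + 3 := ⟨A.card - 3, by omega⟩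
  rw [hk'] at h1 hc
  have x2 : k + 3 - 1 = k + 2 := by omega
  have x3 : k + 3 - 2 = k + 1 := by omega
  rw [x2, x3] at h1
  nlinarith

/-- No perfect set for sums of two, beyond two elements. -/
lemma no2 (A : Finset G) (hs : ∀ g : G, ∃ a ∈ A, ∃ b ∈ A, g = a + b)
    (hc : 2 * Fintype.card G = A.card * (A.card + 1)) : A.card ≤ 2 := by
  by_contra hk
  push Not at hk
  have h1 := card2 A (inj2 A hs hc)
  obtain ⟨k, hk'⟩ : ∃ k, A.card = k + 3 := ⟨A.card - 3, by omega⟩
  rw [hk'] at h1 hc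
  have x1 : (k + 3) * (k + 3) - (k + 3) = (k + 3) * (k + 2) := by
    have : (k + 3) * (k + 3) = (k + 3) * (k + 2) + (k + 3) := by ring
    omega
  rw [x1] at h1
  nlinarith

end Pool.Agent.K7.H66.PB
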