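import Pool.Agent.K7.H60.UP.Stm

set_option autoImplicit false

/-!
# Project UP, job TWO
-/

namespace Pool.Agent.K7.H66.UPTWO

open Pool.Agent.K7.H60.UP

/-- the shift of a periodic function -/
theorem shift (Φ : ℝ → ℝ) (hp : Function.Periodic Φ (2 * Real.pi)) (d : ℝ) :
    ∫ t in (0 : ℝ)..(2 * Real.pi), Φ (t + d) = ∫ t in (0 : ℝ)..(2 * Real.pi), Φ t := by
  rw [intervalIntegral.integral_comp_add_right]
  have h := hp.intervalIntegral_add_eq d 0
  rw [zero_add] at h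
  rw [zero_add, add_comm (2 * Real.pi) d]
  exact h

theorem one (hN : StNrm) (a b : ℂ) (ha : ‖a‖ ≤ 2 * Real.sqrt 2 / 3) (hb : ‖b‖ ≤ 1 / 3) :
    ∫ t in (0 : ℝ)..(2 * Real.pi),
      ‖1 + a * Complex.exp (t * Complex.I) + b * Complex.exp (t * Complex.I) ^ 2‖ ^ (2 : ℝ) ≤
    ∫ t in (0 : ℝ)..(2 * Real.pi),
      (2 + 16 * Real.sqrt 2 / 9 * Real.cos t + 2 / 3 * Real.cos (2 * t)) ^ ((2 : ℝ) / 2) := by
  obtain ⟨ρ, θ, s, -, -, h⟩ := hN a b
  have hL : ∫ t in (0 : ℝ)..(2 * Real.pi),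
      ‖1 + a * Complex.exp (t * Complex.I) + b * Complex.exp (t * Complex.I) ^ 2‖ ^ (2 : ℝ) =
      2 * Real.pi * (1 + ‖a‖ ^ 2 + ‖b‖ ^ 2) := by
    have h1 : ∀ t : ℝ,
        ‖1 + a * Complex.exp (t * Complex.I) + b * Complex.exp (t * Complex.I) ^ 2‖ ^ (2 : ℝ) =
        1 + ‖a‖ ^ 2 + ‖b‖ ^ 2 + 2 * ‖b‖ * Real.cos (2 * (t + s)) +
          2 * ρ * Real.cos (t + s - θ) := by
      intro t
      rw [← h t, Real.rpow_two]
    simp_rw [h1]
    have h2 : ∀ t : ℝ, HasDerivAt (fun t : ℝ => (1 + ‖a‖ ^ 2 + ‖b‖ ^ 2) * t +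
        ‖b‖ * Real.sin (2 * (t + s)) + 2 * ρ * Real.sin (t + s - θ))
        (1 + ‖a‖ ^ 2 + ‖b‖ ^ 2 + 2 * ‖b‖ * Real.cos (2 * (t + s)) +
          2 * ρ * Real.cos (t + s - θ)) t := by
      intro t
      have e1 : HasDerivAt (fun t : ℝ => 2 * (t + s)) 2 t := by
        simpa using ((hasDerivAt_id t).add_const s).const_mul 2
      have e2 : HasDerivAt (fun t : ℝ => t + s - θ) 1 t := by
        simpa using ((hasDerivAt_id t).add_const s).sub_const θ
      have e3 := (e1.sin.const_mul ‖b‖)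
      have e4 := (e2.sin.const_mul (2 * ρ))
      have e5 : HasDerivAt (fun t : ℝ => (1 + ‖a‖ ^ 2 + ‖b‖ ^ 2) * t)
          (1 + ‖a‖ ^ 2 + ‖b‖ ^ 2) t := by
        simpa using (hasDerivAt_id t).const_mul (1 + ‖a‖ ^ 2 + ‖b‖ ^ 2)
      refine ((e5.add e3).add e4).congr_deriv ?_
      ring
    rw [intervalIntegral.integral_eq_sub_of_hasDerivAt (fun t _ => h2 t)
      ((by fun_prop : Continuous fun t : ℝ => 1 + ‖a‖ ^ 2 + ‖b‖ ^ 2 +
        2 * ‖b‖ * Real.cos (2 * (t + s)) + 2 * ρ * Real.cos (t + s - θ)).intervalIntegrable _ _)]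
    have g1 : Real.sin (2 * (2 * Real.pi + s)) = Real.sin (2 * (0 + s)) := by
      rw [show 2 * (2 * Real.pi + s) = 2 * (0 + s) + (2 : ℕ) * (2 * Real.pi) by push_cast; ring,
        Real.sin_add_nat_mul_two_pi]
    have g2 : Real.sin (2 * Real.pi + s - θ) = Real.sin (0 + s - θ) := by
      rw [show 2 * Real.pi + s - θ = 0 + s - θ + 2 * Real.pi by ring, Real.sin_add_two_pi]
    rw [g1, g2]
    ring
  have hR : ∫ t in (0 : ℝ)..(2 * Real.pi),
      (2 + 16 * Real.sqrt 2 / 9 * Real.cos t + 2 / 3 * Real.cos (2 * t)) ^ ((2 : ℝ) / 2) =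
      2 * Real.pi * 2 := by
    have h1 : ∀ t : ℝ,
        (2 + 16 * Real.sqrt 2 / 9 * Real.cos t + 2 / 3 * Real.cos (2 * t)) ^ ((2 : ℝ) / 2) =
        2 + 16 * Real.sqrt 2 / 9 * Real.cos t + 2 / 3 * Real.cos (2 * t) := by
      intro t
      rw [div_self (by norm_num), Real.rpow_one]
    simp_rw [h1]
    have h2 : ∀ t : ℝ, HasDerivAt (fun t : ℝ => 2 * t + 16 * Real.sqrt 2 / 9 * Real.sin t +
        1 / 3 * Real.sin (2 * t))
        (2 + 16 * Real.sqrt 2 / 9 * Real.cos t + 2 / 3 * Real.cos (2 * t)) t := by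
      intro t
      have e1 : HasDerivAt (fun t : ℝ => 2 * t) 2 t := by
        simpa using (hasDerivAt_id t).const_mul 2
      have e2 := (Real.hasDerivAt_sin t).const_mul (16 * Real.sqrt 2 / 9)
      have e3 := (e1.sin.const_mul (1 / 3))
      refine ((e1.add e2).add e3).congr_deriv ?_
      ring
    rw [intervalIntegral.integral_eq_sub_of_hasDerivAt (fun t _ => h2 t)
      ((by fun_prop : Continuous fun t : ℝ =>
        2 + 16 * Real.sqrt 2 / 9 * Real.cos t + 2 / 3 * Real.cos (2 * t)).intervalIntegrable _ _)]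
    have g1 : Real.sin (2 * (2 * Real.pi)) = 0 := by
      rw [show 2 * (2 * Real.pi) = 0 + (2 : ℕ) * (2 * Real.pi) by push_cast; ring,
        Real.sin_add_nat_mul_two_pi, Real.sin_zero]
    rw [g1, Real.sin_two_pi]
    simp
    ring
  rw [hL, hR]
  apply mul_le_mul_of_nonneg_left _ (by positivity)
  have h1 : ‖a‖ ^ 2 ≤ (2 * Real.sqrt 2 / 3) ^ 2 := pow_le_pow_left₀ (norm_nonneg _) ha 2
  have h2 : ‖b‖ ^ 2 ≤ (1 / 3) ^ 2 := pow_le_pow_left₀ (norm_nonneg _) hb 2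
  have h3 : (2 * Real.sqrt 2 / 3) ^ 2 = 8 / 9 := by
    rw [div_pow, mul_pow, Real.sq_sqrt (by norm_num)]
    norm_num
  rw [h3] at h1
  linarith

theorem two (hE : StEq) (q : ℝ) (a : ℂ) (hq : 1 ≤ q) (ha : ‖a‖ ≤ 1 / 2) :
    ∫ t in (0 : ℝ)..(2 * Real.pi), ‖1 + a * Complex.exp (t * Complex.I)‖ ^ q ≤
      ∫ t in (0 : ℝ)..(2 * Real.pi), (5 / 4 + Real.cos t) ^ (q / 2) := by
  set Φ : ℝ → ℝ := fun s => (5 / 4 + Real.cos s) ^ (q / 2) with hΦ
  have hΦp : Function.Periodic Φ (2 * Real.pi) := by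
    intro s
    simp only [hΦ, Real.cos_add_two_pi]
  have hΦc : Continuous Φ := by
    refine (continuous_const.add Real.continuous_cos).rpow_const fun s => Or.inr (by linarith)
  have hval : ∀ s : ℝ, ‖1 + (1 / 2 : ℝ) * Complex.exp (s * Complex.I)‖ ^ q = Φ s := by
    intro s
    have h1 := (hE s).2
    simp only [hΦ]
    rw [← h1, ← Real.rpow_natCast, ← Real.rpow_mul (norm_nonneg _)]
    congr 1
    push_cast
    ring
  set μ : ℝ := 2 * ‖a‖ with hμ
  have hμ0 : 0 ≤ μ := by positivity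
  have hμ1 : μ ≤ 1 := by rw [hμ]; linarith
  set α : ℝ := Complex.arg a with hα
  have hpt : ∀ t : ℝ, ‖1 + a * Complex.exp (t * Complex.I)‖ ^ q ≤
      (1 + μ) / 2 * Φ (t + α) + (1 - μ) / 2 * Φ (t + (α + Real.pi)) := by
    intro t
    rw [← hval, ← hval]
    have h1 : a * Complex.exp (t * Complex.I) =
        (μ : ℂ) * ((1 / 2 : ℝ) * Complex.exp (((t + α : ℝ) : ℂ) * Complex.I)) := by
      conv_lhs => rw [← Complex.norm_mul_exp_arg_mul_I a]
      rw [hμ, mul_assoc, ← Complex.exp_add]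
      push_cast
      rw [show (Complex.arg a : ℂ) * Complex.I + (t : ℂ) * Complex.I =
        ((t : ℂ) + (α : ℂ)) * Complex.I by rw [hα]; ring]
      ring
    have h2 : Complex.exp (((t + (α + Real.pi) : ℝ) : ℂ) * Complex.I) =
        -Complex.exp (((t + α : ℝ) : ℂ) * Complex.I) := by
      push_cast
      rw [show ((t : ℂ) + ((α : ℂ) + (Real.pi : ℂ))) * Complex.I =
        ((t : ℂ) + (α : ℂ)) * Complex.I + Real.pi * Complex.I by ring, Complex.exp_add,
        Complex.exp_pi_mul_I]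
      ring
    rw [h1, h2]
    set w : ℂ := ((1 / 2 : ℝ) : ℂ) * Complex.exp (((t + α : ℝ) : ℂ) * Complex.I) with hw
    have h3 : ((1 / 2 : ℝ) : ℂ) * -Complex.exp (((t + α : ℝ) : ℂ) * Complex.I) = -w := by
      rw [hw]; ring
    rw [h3]
    have h4 : 1 + (μ : ℂ) * w =
        (((1 + μ) / 2 : ℝ) : ℂ) * (1 + w) + (((1 - μ) / 2 : ℝ) : ℂ) * (1 + -w) := by
      push_cast
      ring
    have c1 : 0 ≤ (1 + μ) / 2 := by linarith
    have c2 : 0 ≤ (1 - μ) / 2 := by linarith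
    have h5 : ‖1 + (μ : ℂ) * w‖ ≤ (1 + μ) / 2 * ‖1 + w‖ + (1 - μ) / 2 * ‖1 + -w‖ := by
      rw [h4]
      refine (norm_add_le _ _).trans (le_of_eq ?_)
      rw [norm_mul, norm_mul, Complex.norm_real, Complex.norm_real, Real.norm_of_nonneg c1,
        Real.norm_of_nonneg c2]
    have h6 := (convexOn_rpow hq).2 (Set.mem_Ici.2 (norm_nonneg (1 + w)))
      (Set.mem_Ici.2 (norm_nonneg (1 + -w))) c1 c2 (by ring)
    simp only [smul_eq_mul] at h6
    exact (Real.rpow_le_rpow (norm_nonneg _) h5 (by linarith)).trans h6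
  have hcont : Continuous fun t : ℝ => ‖1 + a * Complex.exp (t * Complex.I)‖ ^ q := by
    refine Continuous.rpow_const (by fun_prop) fun s => Or.inr (by linarith)
  have hΦ1 : Continuous fun t : ℝ => Φ (t + α) := hΦc.comp (by fun_prop)
  have hΦ2 : Continuous fun t : ℝ => Φ (t + (α + Real.pi)) := hΦc.comp (by fun_prop)
  calc ∫ t in (0 : ℝ)..(2 * Real.pi), ‖1 + a * Complex.exp (t * Complex.I)‖ ^ q
      ≤ ∫ t in (0 : ℝ)..(2 * Real.pi),
        ((1 + μ) / 2 * Φ (t + α) + (1 - μ) / 2 * Φ (t + (α + Real.pi))) := by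
        apply intervalIntegral.integral_mono_on (by positivity) (hcont.intervalIntegrable _ _)
        · exact ((hΦ1.const_mul _).add (hΦ2.const_mul _)).intervalIntegrable _ _
        · intro t _
          exact hpt t
    _ = (1 + μ) / 2 * (∫ t in (0 : ℝ)..(2 * Real.pi), Φ t) +
        (1 - μ) / 2 * (∫ t in (0 : ℝ)..(2 * Real.pi), Φ t) := by
        rw [intervalIntegral.integral_add ((hΦ1.const_mul _).intervalIntegrable _ _)
          ((hΦ2.const_mul _).intervalIntegrable _ _), intervalIntegral.integral_const_mul,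
          intervalIntegral.integral_const_mul, shift Φ hΦp, shift Φ hΦp]
    _ = ∫ t in (0 : ℝ)..(2 * Real.pi), Φ t := by ring

/-- **TWO** -/
theorem t (hN : StNrm) (hE : StEq) : StTwo :=
  ⟨fun a b ha hb => one hN a b ha hb, fun q a hq ha => two hE q a hq ha⟩

end Pool.Agent.K7.H66.UPTWO
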