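import Mathlib

/-! Counting lemmas for sums in finite sets of natural numbers. -/

set_option autoImplicit false

open Finset

namespace Pool.Agent.K7.H66.WC

/-- every element of `Y` is a sum of two elements of `X` -/
lemma two_sums (X Y : Finset ℕ) (h : ∀ u ∈ Y, ∃ x ∈ X, ∃ y ∈ X, x + y = u) :
    2 * Y.card ≤ ((X ×ˢ X).filter (fun p => p.1 + p.2 ∈ Y)).card +
      (X.filter (fun x => x + x ∈ Y)).card := by
  classical
  have h1 : ((X ×ˢ X).filter (fun p => p.1 + p.2 ∈ Y)).card =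
      ∑ u ∈ Y, (((X ×ˢ X).filter (fun p => p.1 + p.2 ∈ Y)).filter
        (fun p => p.1 + p.2 = u)).card := by
    apply card_eq_sum_card_fiberwise
    intro p hp
    rw [mem_coe, mem_filter] at hp
    exact hp.2
  have h2 : (X.filter (fun x => x + x ∈ Y)).card =
      ∑ u ∈ Y, ((X.filter (fun x => x + x ∈ Y)).filter (fun x => x + x = u)).card := by
    apply card_eq_sum_card_fiberwise
    intro p hp
    rw [mem_coe, mem_filter] at hp
    exact hp.2
  rw [h1, h2, ← sum_add_distrib, mul_comm, ← smul_eq_mul, ← sum_const]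
  apply sum_le_sum
  intro u hu
  obtain ⟨x, hx, y, hy, e⟩ := h u hu
  by_cases hxy : x = y
  · subst hxy
    have a1 : 1 ≤ (((X ×ˢ X).filter (fun p => p.1 + p.2 ∈ Y)).filter
        (fun p => p.1 + p.2 = u)).card := by
      rw [Nat.one_le_iff_ne_zero, ← Nat.pos_iff_ne_zero, card_pos]
      exact ⟨(x, x), by simp only [mem_filter, mem_product]; rw [e]; exact ⟨⟨⟨hx, hx⟩, hu⟩, rfl⟩⟩
    have a2 : 1 ≤ ((X.filter (fun x => x + x ∈ Y)).filter (fun x => x + x = u)).card := by
      rw [Nat.one_le_iff_ne_zero, ← Nat.pos_iff_ne_zero, card_pos]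
      exact ⟨x, by simp only [mem_filter]; rw [e]; exact ⟨⟨hx, hu⟩, rfl⟩⟩
    omega
  · have a1 : 2 ≤ (((X ×ˢ X).filter (fun p => p.1 + p.2 ∈ Y)).filter
        (fun p => p.1 + p.2 = u)).card := by
      have hsub : ({(x, y), (y, x)} : Finset (ℕ × ℕ)) ⊆ (((X ×ˢ X).filter
          (fun p => p.1 + p.2 ∈ Y)).filter (fun p => p.1 + p.2 = u)) := by
        intro p hp
        simp only [mem_insert, mem_singleton] at hp
        have e' : y + x = u := by rw [add_comm]; exact e
        rcases hp with rfl | rfl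
        · simp only [mem_filter, mem_product]; rw [e]; exact ⟨⟨⟨hx, hy⟩, hu⟩, rfl⟩
        · simp only [mem_filter, mem_product]; rw [e']; exact ⟨⟨⟨hy, hx⟩, hu⟩, rfl⟩
      have := card_le_card hsub
      rw [card_pair] at this
      · exact this
      · intro hh
        rw [Prod.mk.injEq] at hh
        exact hxy hh.1
    omega

/-- every element of `T` is a sum of three elements of `X` with all three partial sums in `B` -/
lemma three_sums (X B T : Finset ℕ)
    (h : ∀ t ∈ T, ∃ x ∈ X, ∃ y ∈ X, ∃ z ∈ X, x + y + z = t ∧ x + y ∈ B ∧ y + z ∈ B ∧ x + z ∈ B) :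
    3 * T.card ≤ X.card * B.card + (((X ×ˢ X).filter (fun p => p.1 + p.2 ∈ B)).card +
      (X.filter (fun x => x + x ∈ B)).card) := by
  classical
  set E1 := (X ×ˢ B).filter (fun p => p.1 + p.2 ∈ T) with hE1
  set E2 := ((X ×ˢ X).filter (fun p => p.1 + p.2 ∈ B)).filter (fun p => p.1 + p.1 + p.2 ∈ T) with hE2
  set E3 := (X.filter (fun x => x + x ∈ B)).filter (fun x => x + x + x ∈ T) with hE3
  have c1 : E1.card ≤ X.card * B.card := (card_filter_le _ _).trans (card_product _ _).le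
  have c2 : E2.card ≤ ((X ×ˢ X).filter (fun p => p.1 + p.2 ∈ B)).card := card_filter_le _ _
  have c3 : E3.card ≤ (X.filter (fun x => x + x ∈ B)).card := card_filter_le _ _
  have h1 : E1.card = ∑ t ∈ T, (E1.filter (fun p => p.1 + p.2 = t)).card := by
    apply card_eq_sum_card_fiberwise
    intro p hp
    rw [mem_coe, hE1, mem_filter] at hp
    exact hp.2
  have h2 : E2.card = ∑ t ∈ T, (E2.filter (fun p => p.1 + p.1 + p.2 = t)).card := by
    apply card_eq_sum_card_fiberwise
    intro p hp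
    rw [mem_coe, hE2, mem_filter] at hp
    exact hp.2
  have h3 : E3.card = ∑ t ∈ T, (E3.filter (fun x => x + x + x = t)).card := by
    apply card_eq_sum_card_fiberwise
    intro p hp
    rw [mem_coe, hE3, mem_filter] at hp
    exact hp.2
  have key : 3 * T.card ≤ E1.card + (E2.card + E3.card) := by
    rw [h1, h2, h3, ← sum_add_distrib, ← sum_add_distrib, mul_comm, ← smul_eq_mul, ← sum_const]
    apply sum_le_sum
    intro t ht
    obtain ⟨x, hx, y, hy, z, hz, e, b1, b2, b3⟩ := h t ht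
    -- reduce to: all distinct, or two equal and the third different, or all equal
    have two : ∀ x z : ℕ, x ∈ X → z ∈ X → x + x + z = t → x + x ∈ B → x + z ∈ B →
        3 ≤ (E1.filter (fun p => p.1 + p.2 = t)).card +
          ((E2.filter (fun p => p.1 + p.1 + p.2 = t)).card +
            (E3.filter (fun x => x + x + x = t)).card) := by
      intro x z hx hz e b1 b2
      by_cases hxz : x = z
      · subst hxz
        have a1 : 1 ≤ (E1.filter (fun p => p.1 + p.2 = t)).card := by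
          rw [Nat.one_le_iff_ne_zero, ← Nat.pos_iff_ne_zero, card_pos]
          refine ⟨(x, x + x), ?_⟩
          rw [mem_filter, hE1, mem_filter, mem_product]
          have e1 : x + (x + x) = t := by omega
          simp only
          rw [e1]; exact ⟨⟨⟨hx, b1⟩, ht⟩, rfl⟩
        have a2 : 1 ≤ (E2.filter (fun p => p.1 + p.1 + p.2 = t)).card := by
          rw [Nat.one_le_iff_ne_zero, ← Nat.pos_iff_ne_zero, card_pos]
          refine ⟨(x, x), ?_⟩
          rw [mem_filter, hE2, mem_filter, mem_filter, mem_product]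
          simp only
          rw [e]; exact ⟨⟨⟨⟨hx, hx⟩, b1⟩, ht⟩, rfl⟩
        have a3 : 1 ≤ (E3.filter (fun x => x + x + x = t)).card := by
          rw [Nat.one_le_iff_ne_zero, ← Nat.pos_iff_ne_zero, card_pos]
          refine ⟨x, ?_⟩
          rw [mem_filter, hE3, mem_filter, mem_filter]
          rw [e]; exact ⟨⟨⟨hx, b1⟩, ht⟩, rfl⟩
        omega
      · have a1 : 2 ≤ (E1.filter (fun p => p.1 + p.2 = t)).card := by
          have hsub : ({(x, x + z), (z, x + x)} : Finset (ℕ × ℕ)) ⊆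
              (E1.filter (fun p => p.1 + p.2 = t)) := by
            intro p hp
            simp only [mem_insert, mem_singleton] at hp
            have e1 : x + (x + z) = t := by omega
            have e2 : z + (x + x) = t := by omega
            rcases hp with rfl | rfl
            · rw [mem_filter, hE1, mem_filter, mem_product]
              simp only
              rw [e1]; exact ⟨⟨⟨hx, b2⟩, ht⟩, rfl⟩
            · rw [mem_filter, hE1, mem_filter, mem_product]
              simp only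
              rw [e2]; exact ⟨⟨⟨hz, b1⟩, ht⟩, rfl⟩
          have := card_le_card hsub
          rw [card_pair] at this
          · exact this
          · intro hh
            rw [Prod.mk.injEq] at hh
            exact hxz hh.1
        have a2 : 1 ≤ (E2.filter (fun p => p.1 + p.1 + p.2 = t)).card := by
          rw [Nat.one_le_iff_ne_zero, ← Nat.pos_iff_ne_zero, card_pos]
          refine ⟨(x, z), ?_⟩
          rw [mem_filter, hE2, mem_filter, mem_filter, mem_product]
          simp only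
          rw [e]; exact ⟨⟨⟨⟨hx, hz⟩, b2⟩, ht⟩, rfl⟩
        omega
    by_cases hxy : x = y
    · subst hxy
      exact two x z hx hz e b1 b2
    by_cases hyz : y = z
    · subst hyz
      exact two y x hy hx (by omega) b2 (by rw [add_comm]; exact b1)
    by_cases hxz : x = z
    · subst hxz
      exact two x y hx hy (by omega) b3 b1
    have a1 : 3 ≤ (E1.filter (fun p => p.1 + p.2 = t)).card := by
      have hsub : ({(x, y + z), (y, x + z), (z, x + y)} : Finset (ℕ × ℕ)) ⊆
          (E1.filter (fun p => p.1 + p.2 = t)) := by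
        intro p hp
        simp only [mem_insert, mem_singleton] at hp
        have e1 : x + (y + z) = t := by omega
        have e2 : y + (x + z) = t := by omega
        have e3 : z + (x + y) = t := by omega
        rcases hp with rfl | rfl | rfl
        · rw [mem_filter, hE1, mem_filter, mem_product]
          simp only
          rw [e1]; exact ⟨⟨⟨hx, b2⟩, ht⟩, rfl⟩
        · rw [mem_filter, hE1, mem_filter, mem_product]
          simp only
          rw [e2]; exact ⟨⟨⟨hy, b3⟩, ht⟩, rfl⟩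
        · rw [mem_filter, hE1, mem_filter, mem_product]
          simp only
          rw [e3]; exact ⟨⟨⟨hz, b1⟩, ht⟩, rfl⟩
      have := card_le_card hsub
      rw [card_insert_of_notMem, card_pair] at this
      · exact this
      · intro hh
        rw [Prod.mk.injEq] at hh
        exact hyz hh.1
      · intro hh
        simp only [mem_insert, mem_singleton, Prod.mk.injEq] at hh
        rcases hh with hh | hh
        · exact hxy hh.1
        · exact hxz hh.1
    omega
  omega

/-- linear core of `arith3` -/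
lemma lin3 {m c D a b p p3 T b' s t ρ Γ aa ap ab pp pb q : ℕ}
    (h1 : m ≤ 1 + a + (p + b) + (p3 + (T + b' + s + t)))
    (k1 : 3 + 5 * a + 4 * p + b + 2 * aa + 3 * ap + ab + pp + pb + 3 * p3 + q ≤ D) (h4 : c = D)
    (h5 : c + ρ = 3 * m)
    (h6 : s ≤ ap) (h7 : 2 * t ≤ pp + p) (h8 : t ≤ ρ) (h9 : 3 * T ≤ ab + Γ)
    (h10 : 2 * b ≤ Γ) (h11 : 2 * b' + Γ ≤ aa + a) :
    D = 3 + 5 * a + 4 * p + b + 2 * aa + 3 * ap + ab + pp + pb + 3 * p3 + q ∧
      m = 1 + a + (p + b) + (p3 + (T + b' + s + t)) ∧ Γ = aa + a ∧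
      2 * b = Γ ∧ 3 * T = ab + Γ ∧ b' = 0 ∧ 2 * t = pp + p ∧ t = ρ ∧ pb = 0 ∧ q = 0 ∧ s = ap := by
  subst h4
  refine ⟨?_, ?_, ?_, ?_, ?_, ?_, ?_, ?_, ?_, ?_, ?_⟩ <;> omega

/-- the arithmetic of the case `2 m < c ≤ 3 m` -/
lemma arith3 {m c d l a b p p3 T b' s t ρ Γ : ℕ}
    (h1 : m ≤ 1 + a + (p + b) + (p3 + (T + b' + s + t)))
    (h2 : 1 + a + p + p3 ≤ d) (h3 : 3 + 2 * a + p + b ≤ l) (h4 : c = d * l) (h5 : c + ρ = 3 * m)
    (h6 : s ≤ a * p) (h7 : 2 * t ≤ p * p + p) (h8 : t ≤ ρ) (h9 : 3 * T ≤ a * b + Γ)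
    (h10 : 2 * b ≤ Γ) (h11 : 2 * b' + Γ ≤ a * a + a) :
    d = 1 + a + p + p3 ∧ m = 1 + a + (p + b) + (p3 + (T + b' + s + t)) ∧ Γ = a * a + a ∧
      2 * b = Γ ∧ 3 * T = a * b + Γ ∧ b' = 0 ∧ 2 * t = p * p + p ∧ t = ρ ∧ p * b = 0 ∧
      p3 * (2 * a + p + b) = 0 ∧ s = a * p := by
  have k1 : (1 + a + p + p3) * (3 + 2 * a + p + b) ≤ d * l := Nat.mul_le_mul h2 h3
  have k2 : (1 + a + p + p3) * (3 + 2 * a + p + b) = 3 + 5 * a + 4 * p + b + 2 * (a * a) +
      3 * (a * p) + a * b + p * p + p * b + 3 * p3 + p3 * (2 * a + p + b) := by ring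
  obtain ⟨e0, e1, e2, e3, e4, e5, e6, e7, e8, e9, e10⟩ :=
    lin3 h1 (k2 ▸ k1) h4 h5 h6 h7 h8 h9 h10 h11
  refine ⟨?_, e1, e2, e3, e4, e5, e6, e7, e8, e9, e10⟩
  by_contra hd
  have hd' : 1 + a + p + p3 + 1 ≤ d := by omega
  have k3 : (1 + a + p + p3 + 1) * (3 + 2 * a + p + b) ≤ d * l := Nat.mul_le_mul hd' h3
  rw [e0, ← k2] at k3
  have k4 : (1 + a + p + p3) * (3 + 2 * a + p + b) < (1 + a + p + p3 + 1) * (3 + 2 * a + p + b) :=
    Nat.mul_lt_mul_of_pos_right (Nat.lt_succ_self _) (by omega)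
  omega

/-- linear core of `arith2` -/
lemma lin2 {m c D p p3 t pp q : ℕ}
    (h1 : m ≤ 1 + p + (p3 + t)) (k1 : 2 + 3 * p + pp + 2 * p3 + q ≤ D) (h4 : c = D)
    (h5 : c ≤ 2 * m) (h7 : 2 * t ≤ pp + p) :
    D = 2 + 3 * p + pp + 2 * p3 + q ∧ m = 1 + p + (p3 + t) ∧ c = 2 * m ∧ 2 * t = pp + p ∧ q = 0 := by
  subst h4
  refine ⟨?_, ?_, ?_, ?_, ?_⟩ <;> omega

/-- the arithmetic of the case `m < c ≤ 2 m` -/
lemma arith2 {m c d l p p3 t : ℕ}
    (h1 : m ≤ 1 + p + (p3 + t)) (h2 : 1 + p + p3 ≤ d) (h3 : 2 + p ≤ l) (h4 : c = d * l)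
    (h5 : c ≤ 2 * m) (h7 : 2 * t ≤ p * p + p) :
    d = 1 + p + p3 ∧ m = 1 + p + (p3 + t) ∧ c = 2 * m ∧ 2 * t = p * p + p ∧ p3 * p = 0 := by
  have k1 : (1 + p + p3) * (2 + p) ≤ d * l := Nat.mul_le_mul h2 h3
  have k2 : (1 + p + p3) * (2 + p) = 2 + 3 * p + p * p + 2 * p3 + p3 * p := by ring
  obtain ⟨e0, e1, e2, e3, e4⟩ := lin2 h1 (k2 ▸ k1) h4 h5 h7
  refine ⟨?_, e1, e2, e3, e4⟩
  by_contra hd
  have hd' : 1 + p + p3 + 1 ≤ d := by omega
  have k3 : (1 + p + p3 + 1) * (2 + p) ≤ d * l := Nat.mul_le_mul hd' h3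
  rw [e0, ← k2] at k3
  have k4 : (1 + p + p3) * (2 + p) < (1 + p + p3 + 1) * (2 + p) :=
    Nat.mul_lt_mul_of_pos_right (Nat.lt_succ_self _) (by omega)
  omega

end Pool.Agent.K7.H66.WC
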