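import Mathlib
import Pool.Agent.K7.H66.PerfectB
import Pool.Agent.K7.H66.WilfCount

/-! The equality case in Wilf's inequality for numerical semigroups with `F + 1 ≤ 3 m`. -/

set_option autoImplicit false

open Finset

namespace Pool.Agent.K7.H66.WM

open Classical in
/-- the Apery set (as a finite set) -/
noncomputable def Ap (S : AddSubmonoid ℕ) (c m : ℕ) : Finset ℕ :=
  (range (c + m)).filter (fun x => x ∈ S ∧ ¬ (m ≤ x ∧ x - m ∈ S))

section

variable {S : AddSubmonoid ℕ} {c m : ℕ} {A : Finset ℕ}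

lemma mem_Ap {x : ℕ} : x ∈ Ap S c m ↔ x < c + m ∧ x ∈ S ∧ ¬ (m ≤ x ∧ x - m ∈ S) := by
  classical
  unfold Ap
  rw [mem_filter, mem_range]

lemma mem_Ap' (hcS : ∀ n, c ≤ n → n ∈ S) {x : ℕ} (hx : x ∈ S) (h : ¬ (m ≤ x ∧ x - m ∈ S)) :
    x ∈ Ap S c m := by
  rw [mem_Ap]
  refine ⟨?_, hx, h⟩
  by_contra hh
  push Not at hh
  exact h ⟨by omega, hcS _ (by omega)⟩

lemma ap_exists (hcS : ∀ n, c ≤ n → n ∈ S) (hm0 : 0 < m) (r : ℕ) (hr : r < m) :
    ∃ w ∈ Ap S c m, w % m = r := by
  classical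
  have hex : ∃ x, x ∈ S ∧ x % m = r := by
    refine ⟨r + m * c, hcS _ ?_, ?_⟩
    · nlinarith
    · rw [Nat.add_mul_mod_self_left, Nat.mod_eq_of_lt hr]
  obtain ⟨h1, h2⟩ := Nat.find_spec hex
  refine ⟨Nat.find hex, mem_Ap' hcS h1 ?_, h2⟩
  rintro ⟨h3, h4⟩
  refine Nat.find_min hex (m := Nat.find hex - m) (by omega) ⟨h4, ?_⟩
  have : (Nat.find hex - m + m) % m = r := by
    rw [Nat.sub_add_cancel h3]; exact h2
  simpa using this

lemma ap_card (hcS : ∀ n, c ≤ n → n ∈ S) (hm0 : 0 < m) : m ≤ (Ap S c m).card := by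
  classical
  have h : range m ⊆ (Ap S c m).image (fun x => x % m) := by
    intro r hr
    rw [mem_range] at hr
    obtain ⟨w, hw, e⟩ := ap_exists hcS hm0 r hr
    rw [mem_image]
    exact ⟨w, hw, e⟩
  calc m = (range m).card := (card_range m).symm
    _ ≤ _ := card_le_card h
    _ ≤ _ := card_image_le

lemma add_mul_mem (hm : m ∈ S) {x : ℕ} (hx : x ∈ S) (j : ℕ) : x + j * m ∈ S := by
  induction j with
  | zero => simpa using hx
  | succ j ih =>
    have := S.add_mem ih hm
    convert this using 1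
    ring

lemma ap_inj (hm : m ∈ S) {x y : ℕ} (hx : x ∈ Ap S c m) (hy : y ∈ Ap S c m)
    (e : x % m = y % m) : x = y := by
  wlog hxy : x < y generalizing x y with H
  · rcases Nat.lt_trichotomy x y with h | h | h
    · exact H hx hy e h
    · exact h
    · exact (H hy hx e.symm h).symm
  exfalso
  rw [mem_Ap] at hx hy
  apply hy.2.2
  have e1 := Nat.div_add_mod x m
  have e2 := Nat.div_add_mod y m
  have hq : x / m < y / m := by
    by_contra hh
    push Not at hh
    have := Nat.mul_le_mul_left m hh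
    omega
  obtain ⟨j, hj⟩ : ∃ j, y / m = x / m + 1 + j := ⟨y / m - x / m - 1, by omega⟩
  have e3 : y = x + j * m + m := by
    rw [← e2, ← e, hj]
    calc m * (x / m + 1 + j) + x % m = (m * (x / m) + x % m) + j * m + m := by ring
      _ = x + j * m + m := by rw [e1]
  refine ⟨by omega, ?_⟩
  have : y - m = x + j * m := by omega
  rw [this]
  exact add_mul_mem hm hx.2.1 j

lemma ap_factor (hcS : ∀ n, c ≤ n → n ∈ S) {u v : ℕ} (hu : u ∈ S) (hv : v ∈ S)
    (h : u + v ∈ Ap S c m) : u ∈ Ap S c m := by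
  apply mem_Ap' hcS hu
  rintro ⟨h1, h2⟩
  rw [mem_Ap] at h
  apply h.2.2
  refine ⟨by omega, ?_⟩
  have : u + v - m = (u - m) + v := by omega
  rw [this]
  exact S.add_mem h2 hv

lemma zero_mem_Ap (hcS : ∀ n, c ≤ n → n ∈ S) (hm0 : 0 < m) : 0 ∈ Ap S c m := by
  apply mem_Ap' hcS S.zero_mem
  rintro ⟨h1, -⟩
  omega

lemma m_notMem_Ap : m ∉ Ap S c m := by
  rw [mem_Ap]
  rintro ⟨-, -, h⟩
  exact h ⟨le_rfl, by rw [Nat.sub_self]; exact S.zero_mem⟩

lemma ap_gt (hmin : ∀ x ∈ S, x ≠ 0 → m ≤ x) {x : ℕ} (hx : x ∈ Ap S c m) (h0 : x ≠ 0) : m < x := by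
  have h1 := hmin x (mem_Ap.1 hx).2.1 h0
  rcases h1.lt_or_eq with h | h
  · exact h
  · exfalso
    rw [← h] at hx
    exact m_notMem_Ap hx

lemma decomp (hA : ∀ a : ℕ, a ∈ A ↔ (a ∈ S ∧ a ≠ 0 ∧ ∀ x ∈ S, ∀ y ∈ S, x + y = a → x = 0 ∨ y = 0))
    {x : ℕ} (hx : x ∈ S) (h0 : x ≠ 0) (hxA : x ∉ A) :
    ∃ u ∈ S, ∃ v ∈ S, u ≠ 0 ∧ v ≠ 0 ∧ u + v = x := by
  by_contra hh
  push Not at hh
  apply hxA
  rw [hA]
  refine ⟨hx, h0, ?_⟩
  intro u hu v hv e
  by_contra h
  push Not at h
  exact hh u hu v hv h.1 h.2 e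

/-- identification of the second family -/
lemma family (hcS : ∀ n, c ≤ n → n ∈ S)
    (hA : ∀ a : ℕ, a ∈ A ↔ (a ∈ S ∧ a ≠ 0 ∧ ∀ x ∈ S, ∀ y ∈ S, x + y = a → x = 0 ∨ y = 0))
    (hm : m ∈ S) (hm0 : m ≠ 0) (hmin : ∀ x ∈ S, x ≠ 0 → m ≤ x) (K : ℕ) (hK : 1 ≤ K)
    (hc : c = K * m) (hL : ∀ x ∈ S, x < c → m ∣ x) :
    A.card = m ∧ ∃ K : ℕ, A = insert m ((Icc 1 (m - 1)).image (fun j => K * m + j)) := by
  have hAe : A = insert m ((Icc 1 (m - 1)).image (fun j => K * m + j)) := by
    ext a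
    rw [mem_insert, mem_image]
    constructor
    · intro ha
      rw [hA] at ha
      obtain ⟨h1, h2, h3⟩ := ha
      by_cases ham : a = m
      · exact Or.inl ham
      right
      have hma := hmin a h1 h2
      have hge : c ≤ a := by
        by_contra hlt
        push Not at hlt
        obtain ⟨t, rfl⟩ := hL a h1 hlt
        have ht : 2 ≤ t := by
          by_contra ht
          have : t = 0 ∨ t = 1 := by omega
          rcases this with rfl | rfl
          · simp at h2
          · simp at ham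
        obtain ⟨s, rfl⟩ : ∃ s, t = s + 1 := ⟨t - 1, by omega⟩
        have hs : m * s ∈ S := by
          have := add_mul_mem hm S.zero_mem s
          rw [zero_add, mul_comm] at this
          exact this
        rcases h3 m hm (m * s) hs (by ring) with h | h
        · exact hm0 h
        · rcases Nat.mul_eq_zero.1 h with h | h
          · exact hm0 h
          · omega
      have hlt : a < c + m := by
        by_contra hge'
        push Not at hge'
        rcases h3 m hm (a - m) (hcS _ (by omega)) (by omega) with h | h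
        · exact hm0 h
        · omega
      refine ⟨a - c, ?_, by omega⟩
      rw [mem_Icc]
      refine ⟨?_, by omega⟩
      by_contra h0
      have hac : a = K * m := by omega
      have hK2 : 2 ≤ K := by
        by_contra hK2
        have : K = 1 := by omega
        subst this
        omega
      obtain ⟨s, rfl⟩ : ∃ s, K = s + 1 := ⟨K - 1, by omega⟩
      have hs : s * m ∈ S := by
        have := add_mul_mem hm S.zero_mem s
        rwa [zero_add] at this
      rcases h3 m hm (s * m) hs (by rw [hac]; ring) with h | h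
      · exact hm0 h
      · rcases Nat.mul_eq_zero.1 h with h | h
        · omega
        · exact hm0 h
    · rintro (rfl | ⟨j, hj, rfl⟩)
      · rw [hA]
        refine ⟨hm, hm0, ?_⟩
        intro x hx y hy e
        by_contra hh
        push Not at hh
        have := hmin x hx hh.1
        have := hmin y hy hh.2
        omega
      · rw [mem_Icc] at hj
        rw [hA]
        refine ⟨hcS _ (by omega), by omega, ?_⟩
        intro x hx y hy e
        by_contra hh
        push Not at hh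
        have h1 := hmin x hx hh.1
        have h2 := hmin y hy hh.2
        by_cases hxc : x < c
        · by_cases hyc : y < c
          · have h3 := hL x hx hxc
            have h4 := hL y hy hyc
            have h5 : m ∣ K * m + j := by rw [← e]; exact dvd_add h3 h4
            have h6 : m ∣ j := (Nat.dvd_add_right (dvd_mul_left m K)).1 h5
            have := Nat.le_of_dvd (by omega) h6
            omega
          · omega
        · omega
  refine ⟨?_, K, hAe⟩
  rw [hAe, card_insert_of_notMem, card_image_of_injective, Nat.card_Icc]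
  · omega
  · intro x y h
    simpa using h
  · rw [mem_image]
    rintro ⟨j, hj, e⟩
    rw [mem_Icc] at hj
    obtain ⟨s, rfl⟩ : ∃ s, K = s + 1 := ⟨K - 1, by omega⟩
    have : (s + 1) * m = s * m + m := by ring
    omega

/-- residues of Apery elements -/
lemma cast_inj (hm : m ∈ S) {x y : ℕ} (hx : x ∈ Ap S c m) (hy : y ∈ Ap S c m)
    (e : (x : ZMod m) = (y : ZMod m)) : x = y := by
  rw [ZMod.natCast_eq_natCast_iff'] at e
  exact ap_inj hm hx hy e

lemma cast_surj [NeZero m] (hcS : ∀ n, c ≤ n → n ∈ S) (g : ZMod m) :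
    ∃ w ∈ Ap S c m, (w : ZMod m) = g := by
  obtain ⟨w, hw, e⟩ := ap_exists (S := S) hcS (Nat.pos_of_ne_zero (NeZero.ne m)) g.val (ZMod.val_lt g)
  refine ⟨w, hw, ?_⟩
  have : (w : ZMod m) = ((g.val : ℕ) : ZMod m) := by
    rw [ZMod.natCast_eq_natCast_iff', e, Nat.mod_eq_of_lt (ZMod.val_lt g)]
  rw [this, ZMod.natCast_zmod_val]

/-- if the Apery set consists of `0`, `P` and sums of two elements of `P`, and `2 m = (p+1)(p+2)`, then
`p ≤ 1`. -/
lemma perfect2 (hcS : ∀ n, c ≤ n → n ∈ S) (hm : m ∈ S) (hm0 : m ≠ 0) (P : Finset ℕ)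
    (hP : P ⊆ Ap S c m) (h0 : 0 ∉ P)
    (hcov : ∀ w ∈ Ap S c m, w = 0 ∨ w ∈ P ∨ ∃ u ∈ P, ∃ v ∈ P, u + v = w)
    (hcard : 2 * m = (P.card + 1) * (P.card + 2)) : P.card ≤ 1 := by
  classical
  have : NeZero m := ⟨hm0⟩
  set Q := (insert 0 P).image (fun x : ℕ => (x : ZMod m)) with hQ
  have hsub : insert 0 P ⊆ Ap S c m := by
    intro x hx
    rw [mem_insert] at hx
    rcases hx with rfl | hx
    · exact zero_mem_Ap hcS (Nat.pos_of_ne_zero hm0)
    · exact hP hx
  have hQc : Q.card = P.card + 1 := by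
    rw [hQ, card_image_of_injOn, card_insert_of_notMem h0]
    intro x hx y hy e
    exact cast_inj hm (hsub hx) (hsub hy) e
  have hle : Q.card ≤ 2 := by
    apply PB.no2 Q
    · intro g
      obtain ⟨w, hw, rfl⟩ := cast_surj (S := S) hcS g
      have z : (0 : ZMod m) ∈ Q := by
        rw [hQ, mem_image]; exact ⟨0, mem_insert_self _ _, by simp⟩
      have im : ∀ x ∈ P, (x : ZMod m) ∈ Q := by
        intro x hx
        rw [hQ, mem_image]; exact ⟨x, mem_insert_of_mem hx, rfl⟩
      rcases hcov w hw with rfl | h | ⟨u, hu, v, hv, rfl⟩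
      · exact ⟨0, z, 0, z, by simp⟩
      · exact ⟨w, im w h, 0, z, by simp⟩
      · exact ⟨u, im u hu, v, im v hv, by push_cast; rfl⟩
    · rw [ZMod.card, hQc, hcard]
  omega

lemma perfect3 (hcS : ∀ n, c ≤ n → n ∈ S) (hm : m ∈ S) (hm0 : m ≠ 0) (P : Finset ℕ)
    (hP : P ⊆ Ap S c m) (h0 : 0 ∉ P)
    (hcov : ∀ w ∈ Ap S c m, w = 0 ∨ w ∈ P ∨ (∃ u ∈ P, ∃ v ∈ P, u + v = w) ∨
      (∃ u ∈ P, ∃ v ∈ P, ∃ z ∈ P, u + v + z = w))
    (hcard : 6 * m = (P.card + 1) * (P.card + 2) * (P.card + 3)) : P.card ≤ 1 := by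
  classical
  have : NeZero m := ⟨hm0⟩
  set Q := (insert 0 P).image (fun x : ℕ => (x : ZMod m)) with hQ
  have hsub : insert 0 P ⊆ Ap S c m := by
    intro x hx
    rw [mem_insert] at hx
    rcases hx with rfl | hx
    · exact zero_mem_Ap hcS (Nat.pos_of_ne_zero hm0)
    · exact hP hx
  have hQc : Q.card = P.card + 1 := by
    rw [hQ, card_image_of_injOn, card_insert_of_notMem h0]
    intro x hx y hy e
    exact cast_inj hm (hsub hx) (hsub hy) e
  have hle : Q.card ≤ 2 := by
    apply PB.no3 Q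
    · intro g
      obtain ⟨w, hw, rfl⟩ := cast_surj (S := S) hcS g
      have z : (0 : ZMod m) ∈ Q := by
        rw [hQ, mem_image]; exact ⟨0, mem_insert_self _ _, by simp⟩
      have im : ∀ x ∈ P, (x : ZMod m) ∈ Q := by
        intro x hx
        rw [hQ, mem_image]; exact ⟨x, mem_insert_of_mem hx, rfl⟩
      rcases hcov w hw with rfl | h | ⟨u, hu, v, hv, rfl⟩ | ⟨u, hu, v, hv, y, hy, rfl⟩
      · exact ⟨0, z, 0, z, 0, z, by simp⟩
      · exact ⟨w, im w h, 0, z, 0, z, by simp⟩
      · exact ⟨u, im u hu, v, im v hv, 0, z, by push_cast; simp⟩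
      · exact ⟨u, im u hu, v, im v hv, y, im y hy, by push_cast; rfl⟩
    · rw [ZMod.card, hQc, hcard]
  omega

end

end Pool.Agent.K7.H66.WM
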