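import Mathlib
import Pool.Agent.K7.H66.WilfMain

/-! The equality case in Wilf's inequality for numerical semigroups with `F + 1 ≤ 3 m`: the two main cases. -/

set_option autoImplicit false

open Finset

namespace Pool.Agent.K7.H66.WM

variable {S : AddSubmonoid ℕ} {c m : ℕ} {A : Finset ℕ}

open Classical in
/-- case `m < c ≤ 2 m` -/
lemma case2 (hcS : ∀ n, c ≤ n → n ∈ S)
    (hA : ∀ a : ℕ, a ∈ A ↔ (a ∈ S ∧ a ≠ 0 ∧ ∀ x ∈ S, ∀ y ∈ S, x + y = a → x = 0 ∨ y = 0))
    (hm : m ∈ S) (hm0 : m ≠ 0) (hmin : ∀ x ∈ S, x ≠ 0 → m ≤ x) (h1 : m < c) (h2 : c ≤ 2 * m)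
    (heq : c = A.card * ((range c).filter (fun x => x ∈ S)).card) :
    A.card = 2 ∨
      (A.card = m ∧ ∃ K : ℕ, A = insert m ((Icc 1 (m - 1)).image (fun j => K * m + j))) := by
  set L := (range c).filter (fun x => x ∈ S) with hL
  set P2 := (Ap S c m).filter (fun x => x ≠ 0 ∧ x < c) with hP2
  set X3 := (Ap S c m).filter (fun x => c ≤ x) with hX3
  set P3 := X3.filter (fun x => x ∈ A) with hP3
  set D3 := X3.filter (fun x => x ∉ A) with hD3
  have mP2 : ∀ x, x ∈ P2 ↔ x ∈ Ap S c m ∧ x ≠ 0 ∧ x < c := fun x => by rw [hP2, mem_filter]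
  have mX3 : ∀ x, x ∈ X3 ↔ x ∈ Ap S c m ∧ c ≤ x := fun x => by rw [hX3, mem_filter]
  have mP3 : ∀ x, x ∈ P3 ↔ x ∈ Ap S c m ∧ c ≤ x ∧ x ∈ A := fun x => by
    rw [hP3, mem_filter, mX3, and_assoc]
  have mD3 : ∀ x, x ∈ D3 ↔ x ∈ Ap S c m ∧ c ≤ x ∧ x ∉ A := fun x => by
    rw [hD3, mem_filter, mX3, and_assoc]
  -- elements of P2 are generators
  have hP2A : P2 ⊆ A := by
    intro x hx
    rw [mP2] at hx
    by_contra hxA
    obtain ⟨u, hu, v, hv, u0, v0, e⟩ := decomp hA (mem_Ap.1 hx.1).2.1 hx.2.1 hxA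
    have := hmin u hu u0
    have := hmin v hv v0
    omega
  -- decomposition of D3
  have hD : ∀ t ∈ D3, ∃ u ∈ P2, ∃ v ∈ P2, u + v = t := by
    intro t ht
    rw [mD3] at ht
    have htc := (mem_Ap.1 ht.1).1
    obtain ⟨u, hu, v, hv, u0, v0, e⟩ := decomp hA (mem_Ap.1 ht.1).2.1 (by omega) ht.2.2
    have hu' : u ∈ Ap S c m := ap_factor hcS hu hv (by rw [e]; exact ht.1)
    have hv' : v ∈ Ap S c m := ap_factor hcS hv hu (by rw [add_comm, e]; exact ht.1)
    have gu := ap_gt hmin hu' u0
    have gv := ap_gt hmin hv' v0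
    refine ⟨u, (mP2 u).2 ⟨hu', u0, by omega⟩, v, (mP2 v).2 ⟨hv', v0, by omega⟩, e⟩
  have c1 : m ≤ 1 + P2.card + (P3.card + D3.card) := by
    have e1 : (Ap S c m) ⊆ insert 0 (P2 ∪ (P3 ∪ D3)) := by
      intro x hx
      rw [mem_insert, mem_union, mem_union, mP2, mP3, mD3]
      by_cases x0 : x = 0
      · exact Or.inl x0
      · right
        by_cases xc : x < c
        · exact Or.inl ⟨hx, x0, xc⟩
        · right
          by_cases xA : x ∈ A
          · exact Or.inl ⟨hx, by omega, xA⟩
          · exact Or.inr ⟨hx, by omega, xA⟩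
    have := (ap_card hcS (Nat.pos_of_ne_zero hm0)).trans (card_le_card e1)
    have i1 := card_insert_le 0 (P2 ∪ (P3 ∪ D3))
    have i2 := card_union_le P2 (P3 ∪ D3)
    have i3 := card_union_le P3 D3
    omega
  have hmA : m ∈ A := by
    rw [hA]
    refine ⟨hm, hm0, ?_⟩
    intro x hx y hy e
    by_contra hh
    push Not at hh
    have := hmin x hx hh.1
    have := hmin y hy hh.2
    omega
  have c2 : 1 + P2.card + P3.card ≤ A.card := by
    have hsub : insert m (P2 ∪ P3) ⊆ A := by
      intro x hx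
      rw [mem_insert, mem_union] at hx
      rcases hx with rfl | hx | hx
      · exact hmA
      · exact hP2A hx
      · exact ((mP3 x).1 hx).2.2
    have hd : Disjoint P2 P3 := by
      rw [disjoint_left]
      intro x hx hx'
      rw [mP2] at hx
      rw [mP3] at hx'
      omega
    have := card_le_card hsub
    rw [card_insert_of_notMem, card_union_of_disjoint hd] at this
    · omega
    · rw [mem_union, mP2, mP3]
      rintro (h | h)
      · exact m_notMem_Ap h.1
      · exact m_notMem_Ap h.1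
  have c3 : 2 + P2.card ≤ L.card := by
    have hsub : insert 0 (insert m P2) ⊆ L := by
      intro x hx
      rw [mem_insert, mem_insert] at hx
      rw [hL, mem_filter, mem_range]
      rcases hx with rfl | rfl | hx
      · exact ⟨by omega, S.zero_mem⟩
      · exact ⟨h1, hm⟩
      · rw [mP2] at hx
        exact ⟨hx.2.2, (mem_Ap.1 hx.1).2.1⟩
    have := card_le_card hsub
    rw [card_insert_of_notMem, card_insert_of_notMem] at this
    · omega
    · rw [mP2]
      rintro h
      exact m_notMem_Ap h.1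
    · rw [mem_insert, mP2]
      rintro (h | h)
      · exact hm0 h.symm
      · exact h.2.1 rfl
  have c7 : 2 * D3.card ≤ P2.card * P2.card + P2.card := by
    have := WC.two_sums P2 D3 hD
    have i1 : ((P2 ×ˢ P2).filter (fun p => p.1 + p.2 ∈ D3)).card ≤ P2.card * P2.card :=
      (card_filter_le _ _).trans (card_product _ _).le
    have i2 : (P2.filter (fun x => x + x ∈ D3)).card ≤ P2.card := card_filter_le _ _
    omega
  obtain ⟨e1, e2, e3, e4, e5⟩ := WC.arith2 c1 c2 c3 heq h2 c7
  rcases Nat.eq_zero_or_pos P2.card with hp | hp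
  · -- second family with K = 2
    right
    refine family hcS hA hm hm0 hmin 2 (by norm_num) e3 ?_
    intro x hx hxc
    by_cases x0 : x = 0
    · rw [x0]; exact dvd_zero m
    by_cases hxm : x ∈ Ap S c m
    · exfalso
      have : x ∈ P2 := (mP2 x).2 ⟨hxm, x0, hxc⟩
      rw [card_eq_zero] at hp
      rw [hp] at this
      simp at this
    · have : m ≤ x ∧ x - m ∈ S := by
        by_contra hh
        exact hxm (mem_Ap' hcS hx hh)
      by_cases h0 : x - m = 0
      · have : x = m := by omega
        rw [this]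
      · have := hmin (x - m) this.2 h0
        omega
  · have hp3 : P3.card = 0 := by
      rcases Nat.mul_eq_zero.1 e5 with h | h
      · exact h
      · omega
    have hP1 : P2.card ≤ 1 := by
      apply perfect2 hcS hm hm0 P2 (fun x hx => ((mP2 x).1 hx).1)
        (fun h => ((mP2 0).1 h).2.1 rfl)
      · intro w hw
        by_cases w0 : w = 0
        · exact Or.inl w0
        right
        by_cases wc : w < c
        · exact Or.inl ((mP2 w).2 ⟨hw, w0, wc⟩)
        right
        apply hD
        rw [mD3]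
        refine ⟨hw, by omega, ?_⟩
        intro hwA
        have : w ∈ P3 := (mP3 w).2 ⟨hw, by omega, hwA⟩
        rw [card_eq_zero] at hp3
        rw [hp3] at this
        simp at this
      · have : (P2.card + 1) * (P2.card + 2) = P2.card * P2.card + 3 * P2.card + 2 := by ring
        rw [this]
        omega
    left
    omega

end Pool.Agent.K7.H66.WM
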