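import Mathlib
import Pool.Agent.K7.H66.WilfCases

/-! The equality case in Wilf's inequality for numerical semigroups with `2 m < F + 1 ≤ 3 m`. -/

set_option autoImplicit false

open Finset

namespace Pool.Agent.K7.H66.WM

variable {S : AddSubmonoid ℕ} {c m : ℕ} {A : Finset ℕ}

open Classical in
/-- case `2 m < c ≤ 3 m` -/
lemma case3 (hcS : ∀ n, c ≤ n → n ∈ S)
    (hA : ∀ a : ℕ, a ∈ A ↔ (a ∈ S ∧ a ≠ 0 ∧ ∀ x ∈ S, ∀ y ∈ S, x + y = a → x = 0 ∨ y = 0))
    (hm : m ∈ S) (hm0 : m ≠ 0) (hmin : ∀ x ∈ S, x ≠ 0 → m ≤ x) (h1 : 2 * m < c) (h2 : c ≤ 3 * m)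
    (heq : c = A.card * ((range c).filter (fun x => x ∈ S)).card) :
    A.card = 2 ∨
      (A.card = m ∧ ∃ K : ℕ, A = insert m ((Icc 1 (m - 1)).image (fun j => K * m + j))) := by
  set L := (range c).filter (fun x => x ∈ S) with hL
  set X1 := (Ap S c m).filter (fun x => x ≠ 0 ∧ x + m < c) with hX1
  set X2 := (Ap S c m).filter (fun x => x ≠ 0 ∧ x < c ∧ c ≤ x + m) with hX2
  set X3 := (Ap S c m).filter (fun x => c ≤ x) with hX3
  set P2 := X2.filter (fun x => x ∈ A) with hP2
  set B := X2.filter (fun x => x ∉ A) with hB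
  set P3 := X3.filter (fun x => x ∈ A) with hP3
  set D3 := X3.filter (fun x => x ∉ A) with hD3
  have mX1 : ∀ x, x ∈ X1 ↔ x ∈ Ap S c m ∧ x ≠ 0 ∧ x + m < c := fun x => by rw [hX1, mem_filter]
  have mX2 : ∀ x, x ∈ X2 ↔ x ∈ Ap S c m ∧ x ≠ 0 ∧ x < c ∧ c ≤ x + m := fun x => by
    rw [hX2, mem_filter]
  have mX3 : ∀ x, x ∈ X3 ↔ x ∈ Ap S c m ∧ c ≤ x := fun x => by rw [hX3, mem_filter]
  have mP2 : ∀ x, x ∈ P2 ↔ x ∈ X2 ∧ x ∈ A := fun x => by rw [hP2, mem_filter]
  have mB : ∀ x, x ∈ B ↔ x ∈ X2 ∧ x ∉ A := fun x => by rw [hB, mem_filter]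
  have mP3 : ∀ x, x ∈ P3 ↔ x ∈ X3 ∧ x ∈ A := fun x => by rw [hP3, mem_filter]
  have mD3 : ∀ x, x ∈ D3 ↔ x ∈ X3 ∧ x ∉ A := fun x => by rw [hD3, mem_filter]
  -- elements of X1 are generators and lie in (m, 2m)
  have gX1 : ∀ x ∈ X1, m < x := fun x hx => ap_gt hmin ((mX1 x).1 hx).1 ((mX1 x).1 hx).2.1
  have gX2 : ∀ x ∈ X2, m < x := fun x hx => ap_gt hmin ((mX2 x).1 hx).1 ((mX2 x).1 hx).2.1
  have hX1A : X1 ⊆ A := by
    intro x hx
    have hx' := (mX1 x).1 hx
    by_contra hxA
    obtain ⟨u, hu, v, hv, u0, v0, e⟩ := decomp hA (mem_Ap.1 hx'.1).2.1 hx'.2.1 hxA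
    have := hmin u hu u0
    have := hmin v hv v0
    omega
  -- sums of two nonzero elements of S are not generators
  have hnA : ∀ x ∈ S, ∀ y ∈ S, x ≠ 0 → y ≠ 0 → x + y ∉ A := by
    intro x hx y hy x0 y0 h
    rw [hA] at h
    rcases h.2.2 x hx y hy rfl with h | h
    · exact x0 h
    · exact y0 h
  -- decomposition of B
  have hBd : ∀ u ∈ B, ∃ x ∈ X1, ∃ y ∈ X1, x + y = u := by
    intro t ht
    rw [mB, mX2] at ht
    obtain ⟨u, hu, v, hv, u0, v0, e⟩ := decomp hA (mem_Ap.1 ht.1.1).2.1 ht.1.2.1 ht.2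
    have hu' : u ∈ Ap S c m := ap_factor hcS hu hv (by rw [e]; exact ht.1.1)
    have hv' : v ∈ Ap S c m := ap_factor hcS hv hu (by rw [add_comm, e]; exact ht.1.1)
    have gu := ap_gt hmin hu' u0
    have gv := ap_gt hmin hv' v0
    exact ⟨u, (mX1 u).2 ⟨hu', u0, by omega⟩, v, (mX1 v).2 ⟨hv', v0, by omega⟩, e⟩
  set TS := D3.filter (fun t => ∃ x ∈ X1, ∃ y ∈ X1, ∃ z ∈ X1,
    x + y + z = t ∧ x + y ∈ B ∧ y + z ∈ B ∧ x + z ∈ B) with hTS
  set BS := D3.filter (fun t => ∃ x ∈ X1, ∃ y ∈ X1, x + y = t) with hBS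
  set PS := D3.filter (fun t => ∃ x ∈ X1, ∃ u ∈ P2, x + u = t) with hPS
  set QS := D3.filter (fun t => ∃ u ∈ P2, ∃ v ∈ P2, u + v = t) with hQS
  -- decomposition of D3
  have hD : ∀ t ∈ D3, t ∈ TS ∨ t ∈ BS ∨ t ∈ PS ∨ t ∈ QS := by
    intro t ht
    have ht0 := ht
    rw [mD3, mX3] at ht
    have htc := (mem_Ap.1 ht.1.1).1
    obtain ⟨u, hu, v, hv, u0, v0, e⟩ := decomp hA (mem_Ap.1 ht.1.1).2.1 (by omega) ht.2
    have hu' : u ∈ Ap S c m := ap_factor hcS hu hv (by rw [e]; exact ht.1.1)
    have hv' : v ∈ Ap S c m := ap_factor hcS hv hu (by rw [add_comm, e]; exact ht.1.1)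
    -- the case of u in X1, v in X2
    have mixed : ∀ u v : ℕ, u ∈ X1 → v ∈ X2 → u + v = t → t ∈ TS ∨ t ∈ PS := by
      intro u v hu1 hv2 e
      by_cases hvA : v ∈ A
      · right
        rw [hPS, mem_filter]
        exact ⟨ht0, u, hu1, v, (mP2 v).2 ⟨hv2, hvA⟩, e⟩
      · left
        have hvB := (mB v).2 ⟨hv2, hvA⟩
        obtain ⟨x, hx, y, hy, e'⟩ := hBd v hvB
        have sx := (mem_Ap.1 ((mX1 x).1 hx).1).2.1
        have sy := (mem_Ap.1 ((mX1 y).1 hy).1).2.1
        have su := (mem_Ap.1 ((mX1 u).1 hu1).1).2.1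
        have gx := gX1 x hx
        have gy := gX1 y hy
        have gu := gX1 u hu1
        -- partial sums are Apery
        have p1 : u + x ∈ Ap S c m := ap_factor hcS (S.add_mem su sx) sy
          (by rw [add_assoc, e', e]; exact ht.1.1)
        have p2 : u + y ∈ Ap S c m := ap_factor hcS (S.add_mem su sy) sx
          (by rw [add_assoc, add_comm y x, e', e]; exact ht.1.1)
        have q1 : u + x ∈ B := by
          rw [mB, mX2]
          exact ⟨⟨p1, by omega, by omega, by omega⟩, hnA u su x sx (by omega) (by omega)⟩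
        have q2 : u + y ∈ B := by
          rw [mB, mX2]
          exact ⟨⟨p2, by omega, by omega, by omega⟩, hnA u su y sy (by omega) (by omega)⟩
        rw [hTS, mem_filter]
        refine ⟨ht0, u, hu1, x, hx, y, hy, by omega, q1, by rw [e']; exact hvB, q2⟩
    have gu := ap_gt hmin hu' u0
    have gv := ap_gt hmin hv' v0
    by_cases cu : u + m < c
    · have hu1 : u ∈ X1 := (mX1 u).2 ⟨hu', u0, cu⟩
      by_cases cv : v + m < c
      · right; left
        rw [hBS, mem_filter]
        exact ⟨ht0, u, hu1, v, (mX1 v).2 ⟨hv', v0, cv⟩, e⟩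
      · have hv2 : v ∈ X2 := (mX2 v).2 ⟨hv', v0, by omega, by omega⟩
        rcases mixed u v hu1 hv2 e with h | h
        · exact Or.inl h
        · exact Or.inr (Or.inr (Or.inl h))
    · have hu2 : u ∈ X2 := (mX2 u).2 ⟨hu', u0, by omega, by omega⟩
      by_cases cv : v + m < c
      · have hv1 : v ∈ X1 := (mX1 v).2 ⟨hv', v0, cv⟩
        rcases mixed v u hv1 hu2 (by omega) with h | h
        · exact Or.inl h
        · exact Or.inr (Or.inr (Or.inl h))
      · have hv2 : v ∈ X2 := (mX2 v).2 ⟨hv', v0, by omega, by omega⟩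
        right; right; right
        rw [hQS, mem_filter]
        refine ⟨ht0, u, (mP2 u).2 ⟨hu2, ?_⟩, v, (mP2 v).2 ⟨hv2, ?_⟩, e⟩
        · by_contra hh
          obtain ⟨x, hx, y, hy, e'⟩ := hBd u ((mB u).2 ⟨hu2, hh⟩)
          have := gX1 x hx
          have := gX1 y hy
          omega
        · by_contra hh
          obtain ⟨x, hx, y, hy, e'⟩ := hBd v ((mB v).2 ⟨hv2, hh⟩)
          have := gX1 x hx
          have := gX1 y hy
          omega
  have hDc : D3.card ≤ TS.card + BS.card + PS.card + QS.card := by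
    have hsub : D3 ⊆ ((TS ∪ BS) ∪ PS) ∪ QS := by
      intro t ht
      rw [mem_union, mem_union, mem_union]
      rcases hD t ht with h | h | h | h
      · exact Or.inl (Or.inl (Or.inl h))
      · exact Or.inl (Or.inl (Or.inr h))
      · exact Or.inl (Or.inr h)
      · exact Or.inr h
    have i0 := card_le_card hsub
    have i1 := card_union_le ((TS ∪ BS) ∪ PS) QS
    have i2 := card_union_le (TS ∪ BS) PS
    have i3 := card_union_le TS BS
    omega
  have hX2c : X2.card = P2.card + B.card := by
    rw [hP2, hB]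
    exact (card_filter_add_card_filter_not (s := X2) (fun x => x ∈ A)).symm
  have c1 : m ≤ 1 + X1.card + (P2.card + B.card) +
      (P3.card + (TS.card + BS.card + PS.card + QS.card)) := by
    have e1 : (Ap S c m) ⊆ insert 0 (X1 ∪ (X2 ∪ (P3 ∪ D3))) := by
      intro x hx
      rw [mem_insert, mem_union, mem_union, mem_union, mX1, mX2, mP3, mD3, mX3]
      by_cases x0 : x = 0
      · exact Or.inl x0
      · right
        by_cases xc : x + m < c
        · exact Or.inl ⟨hx, x0, xc⟩
        · right
          by_cases xc2 : x < c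
          · exact Or.inl ⟨hx, x0, xc2, by omega⟩
          · right
            by_cases xA : x ∈ A
            · exact Or.inl ⟨⟨hx, by omega⟩, xA⟩
            · exact Or.inr ⟨⟨hx, by omega⟩, xA⟩
    have := (ap_card hcS (Nat.pos_of_ne_zero hm0)).trans (card_le_card e1)
    have i1 := card_insert_le 0 (X1 ∪ (X2 ∪ (P3 ∪ D3)))
    have i2 := card_union_le X1 (X2 ∪ (P3 ∪ D3))
    have i3 := card_union_le X2 (P3 ∪ D3)
    have i4 := card_union_le P3 D3
    omega
  have hmA : m ∈ A := by
    rw [hA]
    refine ⟨hm, hm0, ?_⟩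
    intro x hx y hy e
    by_contra hh
    push Not at hh
    have := hmin x hx hh.1
    have := hmin y hy hh.2
    omega
  have c2 : 1 + X1.card + P2.card + P3.card ≤ A.card := by
    have hsub : insert m (X1 ∪ (P2 ∪ P3)) ⊆ A := by
      intro x hx
      rw [mem_insert, mem_union, mem_union] at hx
      rcases hx with rfl | hx | hx | hx
      · exact hmA
      · exact hX1A hx
      · exact ((mP2 x).1 hx).2
      · exact ((mP3 x).1 hx).2
    have hd : Disjoint P2 P3 := by
      rw [disjoint_left]
      intro x hx hx'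
      rw [mP2, mX2] at hx
      rw [mP3, mX3] at hx'
      omega
    have hd' : Disjoint X1 (P2 ∪ P3) := by
      rw [disjoint_left]
      intro x hx hx'
      rw [mX1] at hx
      rw [mem_union, mP2, mX2, mP3, mX3] at hx'
      rcases hx' with h | h <;> omega
    have := card_le_card hsub
    rw [card_insert_of_notMem, card_union_of_disjoint hd', card_union_of_disjoint hd] at this
    · omega
    · rw [mem_union, mem_union, mP2, mP3, mX1, mX2, mX3]
      rintro (h | h | h)
      · exact m_notMem_Ap h.1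
      · exact m_notMem_Ap h.1.1
      · exact m_notMem_Ap h.1.1
  have c3 : 3 + 2 * X1.card + P2.card + B.card ≤ L.card := by
    have hsub : insert 0 (insert m (insert (2 * m) (X1 ∪ (X1.image (fun x => x + m) ∪ X2)))) ⊆ L := by
      intro x hx
      rw [mem_insert, mem_insert, mem_insert, mem_union, mem_union, mem_image] at hx
      rw [hL, mem_filter, mem_range]
      rcases hx with rfl | rfl | rfl | hx | ⟨y, hy, rfl⟩ | hx
      · exact ⟨by omega, S.zero_mem⟩
      · exact ⟨by omega, hm⟩
      · refine ⟨by omega, ?_⟩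
        rw [two_mul]; exact S.add_mem hm hm
      · rw [mX1] at hx
        exact ⟨by omega, (mem_Ap.1 hx.1).2.1⟩
      · rw [mX1] at hy
        exact ⟨by omega, S.add_mem (mem_Ap.1 hy.1).2.1 hm⟩
      · rw [mX2] at hx
        exact ⟨by omega, (mem_Ap.1 hx.1).2.1⟩
    have nAp : ∀ y ∈ S, y + m ∉ Ap S c m := by
      intro y hy h
      rw [mem_Ap] at h
      exact h.2.2 ⟨by omega, by rw [Nat.add_sub_cancel]; exact hy⟩
    have hd1 : Disjoint (X1.image (fun x => x + m)) X2 := by
      rw [disjoint_left]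
      intro x hx hx'
      rw [mem_image] at hx
      obtain ⟨y, hy, rfl⟩ := hx
      exact nAp y (mem_Ap.1 ((mX1 y).1 hy).1).2.1 ((mX2 _).1 hx').1
    have hd2 : Disjoint X1 (X1.image (fun x => x + m) ∪ X2) := by
      rw [disjoint_left]
      intro x hx hx'
      rw [mem_union, mem_image] at hx'
      rcases hx' with ⟨y, hy, rfl⟩ | hx'
      · exact nAp y (mem_Ap.1 ((mX1 y).1 hy).1).2.1 ((mX1 _).1 hx).1
      · rw [mX1] at hx
        rw [mX2] at hx'
        omega
    have := card_le_card hsub
    rw [card_insert_of_notMem, card_insert_of_notMem, card_insert_of_notMem,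
      card_union_of_disjoint hd2, card_union_of_disjoint hd1,
      card_image_of_injective _ (add_left_injective m), hX2c] at this
    · omega
    · rw [mem_union, mem_union, mem_image]
      rintro (h | ⟨y, hy, e⟩ | h)
      · have := nAp m hm
        rw [← two_mul] at this
        exact this ((mX1 _).1 h).1
      · have e' : y = m := by omega
        rw [e'] at hy
        exact m_notMem_Ap ((mX1 _).1 hy).1
      · have := nAp m hm
        rw [← two_mul] at this
        exact this ((mX2 _).1 h).1
    · rw [mem_insert, mem_union, mem_union, mem_image]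
      rintro (h | h | ⟨y, hy, e⟩ | h)
      · omega
      · exact m_notMem_Ap ((mX1 _).1 h).1
      · exact ((mX1 _).1 hy).2.1 (by omega)
      · exact m_notMem_Ap ((mX2 _).1 h).1
    · rw [mem_insert, mem_insert, mem_union, mem_union, mem_image]
      rintro (h | h | h | ⟨y, hy, e⟩ | h)
      · exact hm0 h.symm
      · omega
      · exact ((mX1 _).1 h).2.1 rfl
      · omega
      · exact ((mX2 _).1 h).2.1 rfl
  have c6 : PS.card ≤ X1.card * P2.card := by
    have hsub : PS ⊆ (X1 ×ˢ P2).image (fun p => p.1 + p.2) := by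
      intro t ht
      rw [hPS, mem_filter] at ht
      obtain ⟨-, x, hx, u, hu, e⟩ := ht
      rw [mem_image]
      exact ⟨(x, u), mem_product.2 ⟨hx, hu⟩, e⟩
    exact (card_le_card hsub).trans (card_image_le.trans (card_product _ _).le)
  have c7 : 2 * QS.card ≤ P2.card * P2.card + P2.card := by
    have := WC.two_sums P2 QS (fun t ht => by rw [hQS, mem_filter] at ht; exact ht.2)
    have i1 : ((P2 ×ˢ P2).filter (fun p => p.1 + p.2 ∈ QS)).card ≤ P2.card * P2.card :=
      (card_filter_le _ _).trans (card_product _ _).le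
    have i2 : (P2.filter (fun x => x + x ∈ QS)).card ≤ P2.card := card_filter_le _ _
    omega
  have c8 : QS.card ≤ 3 * m - c := by
    have hsub : QS ⊆ Ico (2 * (c - m)) (c + m) := by
      intro t ht
      rw [hQS, mem_filter, mD3, mX3] at ht
      obtain ⟨⟨⟨h3, h4⟩, h5⟩, u, hu, v, hv, e⟩ := ht
      rw [mP2, mX2] at hu hv
      have := (mem_Ap.1 h3).1
      rw [mem_Ico]
      omega
    have := card_le_card hsub
    rw [Nat.card_Ico] at this
    omega
  set G := ((X1 ×ˢ X1).filter (fun p => p.1 + p.2 ∈ B)).card +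
      (X1.filter (fun x => x + x ∈ B)).card with hG
  have c9 : 3 * TS.card ≤ X1.card * B.card + G :=
    WC.three_sums X1 B TS (fun t ht => by rw [hTS, mem_filter] at ht; exact ht.2)
  have c10 : 2 * B.card ≤ G := WC.two_sums X1 B hBd
  have c11 : 2 * BS.card + G ≤ X1.card * X1.card + X1.card := by
    have i0 := WC.two_sums X1 BS (fun t ht => by rw [hBS, mem_filter] at ht; exact ht.2)
    have hdis : ∀ t, t ∈ B → t ∉ BS := by
      intro t ht ht'
      rw [mB, mX2] at ht
      rw [hBS, mem_filter, mD3, mX3] at ht'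
      omega
    have i1 : ((X1 ×ˢ X1).filter (fun p => p.1 + p.2 ∈ B)).card +
        ((X1 ×ˢ X1).filter (fun p => p.1 + p.2 ∈ BS)).card ≤ X1.card * X1.card := by
      rw [← card_union_of_disjoint, ← card_product]
      · apply card_le_card
        exact union_subset (filter_subset _ _) (filter_subset _ _)
      · rw [disjoint_left]
        intro p hp hp'
        rw [mem_filter] at hp hp'
        exact hdis _ hp.2 hp'.2
    have i2 : (X1.filter (fun x => x + x ∈ B)).card +
        (X1.filter (fun x => x + x ∈ BS)).card ≤ X1.card := by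
      rw [← card_union_of_disjoint]
      · apply card_le_card
        exact union_subset (filter_subset _ _) (filter_subset _ _)
      · rw [disjoint_left]
        intro p hp hp'
        rw [mem_filter] at hp hp'
        exact hdis _ hp.2 hp'.2
    omega
  obtain ⟨e1, e2, e3, e4, e5, e6, e7, e8, e9, e10, e11⟩ :=
    WC.arith3 c1 c2 c3 heq (show c + (3 * m - c) = 3 * m by omega) c6 c7 c8 c9 c10 c11
  have em : ∀ {X : Finset ℕ}, X.card = 0 → ∀ x, x ∉ X := by
    intro X hX x hx
    rw [card_eq_zero] at hX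
    rw [hX] at hx
    simp at hx
  rcases Nat.eq_zero_or_pos X1.card with ha | ha
  · -- no elements in X1
    rw [ha] at e3 e5
    have hb : B.card = 0 := by omega
    have hT : TS.card = 0 := by
      rw [hb] at e5; omega
    rcases Nat.eq_zero_or_pos P2.card with hp | hp
    · -- the family with K = 3
      right
      have ht : QS.card = 0 := by rw [hp] at e7; omega
      refine family hcS hA hm hm0 hmin 3 (by norm_num) (by omega) ?_
      intro x hx hxc
      -- x is congruent to 0 modulo m
      have stepdown : ∀ x ∈ S, x < c → x ≠ 0 → m ≤ x ∧ x - m ∈ S := by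
        intro x hx hxc x0
        by_contra hh
        have hxm : x ∈ Ap S c m := mem_Ap' hcS hx hh
        by_cases cx : x + m < c
        · exact em ha x ((mX1 x).2 ⟨hxm, x0, cx⟩)
        · have hx2 : x ∈ X2 := (mX2 x).2 ⟨hxm, x0, hxc, by omega⟩
          by_cases xA : x ∈ A
          · exact em hp x ((mP2 x).2 ⟨hx2, xA⟩)
          · exact em hb x ((mB x).2 ⟨hx2, xA⟩)
      induction x using Nat.strong_induction_on with
      | _ x ih =>
        by_cases x0 : x = 0
        · rw [x0]; exact dvd_zero m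
        · obtain ⟨g1, g2⟩ := stepdown x hx hxc x0
          have := ih (x - m) (by omega) g2 (by omega)
          obtain ⟨k, hk⟩ := this
          exact ⟨k + 1, by rw [mul_add, ← hk]; omega⟩
    · have hp3 : P3.card = 0 := by
        rcases Nat.mul_eq_zero.1 e10 with h | h
        · exact h
        · omega
      have hP1 : P2.card ≤ 1 := by
        apply perfect2 hcS hm hm0 P2 (fun x hx => ((mX2 x).1 ((mP2 x).1 hx).1).1)
          (fun h => ((mX2 0).1 ((mP2 0).1 h).1).2.1 rfl)
        · intro w hw
          by_cases w0 : w = 0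
          · exact Or.inl w0
          right
          by_cases wc : w + m < c
          · exact absurd ((mX1 w).2 ⟨hw, w0, wc⟩) (em ha w)
          by_cases wc2 : w < c
          · left
            have hw2 : w ∈ X2 := (mX2 w).2 ⟨hw, w0, wc2, by omega⟩
            by_cases wA : w ∈ A
            · exact (mP2 w).2 ⟨hw2, wA⟩
            · exact absurd ((mB w).2 ⟨hw2, wA⟩) (em hb w)
          right
          have hw3 : w ∈ X3 := (mX3 w).2 ⟨hw, by omega⟩
          by_cases wA : w ∈ A
          · exact absurd ((mP3 w).2 ⟨hw3, wA⟩) (em hp3 w)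
          rcases hD w ((mD3 w).2 ⟨hw3, wA⟩) with h | h | h | h
          · exact absurd h (em hT w)
          · exact absurd h (em e6 w)
          · rw [ha, zero_mul] at e11
            exact absurd h (em e11 w)
          · rw [hQS, mem_filter] at h
            exact h.2
        · have : (P2.card + 1) * (P2.card + 2) = P2.card * P2.card + 3 * P2.card + 2 := by ring
          rw [this]
          rw [ha, zero_mul] at e11
          omega
      left
      omega
  · -- X1 nonempty
    have hb : 0 < B.card := by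
      have : 0 < X1.card * X1.card + X1.card := Nat.add_pos_right _ ha
      omega
    have hp : P2.card = 0 := by
      rcases Nat.mul_eq_zero.1 e9 with h | h
      · exact h
      · omega
    have hp3 : P3.card = 0 := by
      rcases Nat.mul_eq_zero.1 e10 with h | h
      · exact h
      · omega
    have ht : QS.card = 0 := by rw [hp] at e7; omega
    have hs : PS.card = 0 := by rw [hp, mul_zero] at e11; exact e11
    have hP1 : X1.card ≤ 1 := by
      apply perfect3 hcS hm hm0 X1 (fun x hx => ((mX1 x).1 hx).1)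
        (fun h => ((mX1 0).1 h).2.1 rfl)
      · intro w hw
        by_cases w0 : w = 0
        · exact Or.inl w0
        right
        by_cases wc : w + m < c
        · exact Or.inl ((mX1 w).2 ⟨hw, w0, wc⟩)
        right
        by_cases wc2 : w < c
        · left
          have hw2 : w ∈ X2 := (mX2 w).2 ⟨hw, w0, wc2, by omega⟩
          by_cases wA : w ∈ A
          · exact absurd ((mP2 w).2 ⟨hw2, wA⟩) (em hp w)
          · exact hBd w ((mB w).2 ⟨hw2, wA⟩)
        right
        have hw3 : w ∈ X3 := (mX3 w).2 ⟨hw, by omega⟩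
        by_cases wA : w ∈ A
        · exact absurd ((mP3 w).2 ⟨hw3, wA⟩) (em hp3 w)
        rcases hD w ((mD3 w).2 ⟨hw3, wA⟩) with h | h | h | h
        · rw [hTS, mem_filter] at h
          obtain ⟨-, x, hx, y, hy, z, hz, e, -⟩ := h
          exact ⟨x, hx, y, hy, z, hz, e⟩
        · exact absurd h (em e6 w)
        · exact absurd h (em hs w)
        · exact absurd h (em ht w)
      · -- 6 m = (a+1)(a+2)(a+3)
        obtain ⟨a, haa⟩ : ∃ a, a = X1.card := ⟨_, rfl⟩
        obtain ⟨b, hbb⟩ : ∃ b, b = B.card := ⟨_, rfl⟩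
        rw [hp, hp3, e6, hs, ht, ← haa, ← hbb] at e2
        rw [← haa, ← hbb] at e5
        rw [← haa] at e3
        rw [← hbb] at e4
        rw [← haa]
        have x1 : 2 * b = a * a + a := by omega
        have x2 : 6 * TS.card = a * (a * a + a) + 2 * (a * a + a) := by
          rw [← x1]
          have : 3 * TS.card = a * b + 2 * b := by omega
          calc 6 * TS.card = 2 * (3 * TS.card) := by ring
            _ = 2 * (a * b + 2 * b) := by rw [this]
            _ = _ := by ring
        have x3 : m = 1 + a + b + TS.card := by omega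
        calc 6 * m = 6 + 6 * a + 3 * (2 * b) + 6 * TS.card := by rw [x3]; ring
          _ = _ := by rw [x1, x2]; ring
    left
    omega

end Pool.Agent.K7.H66.WM
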