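import Mathlib
import Pool.Agent.K7.H66.WilfMain

/-! The known direction: equality in Wilf's inequality in the two known families. -/

set_option autoImplicit false

open Finset

namespace Pool.Agent.K7.H66.WM

variable {S : AddSubmonoid ℕ} {m : ℕ} {A : Finset ℕ}

open Classical in
/-- the number of elements of `S` up to `F` -/
lemma left_card {F g : ℕ} (hF' : ∀ n, F < n → n ∈ S) (hg : Set.ncard {n : ℕ | n ∉ S} = g) :
    F + 1 - g = ((range (F + 1)).filter (fun x => x ∈ S)).card ∧
      ((range (F + 1)).filter (fun x => x ∉ S)).card = g := by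
  have h1 : {n : ℕ | n ∉ S} = (((range (F + 1)).filter (fun x => x ∉ S) : Finset ℕ) : Set ℕ) := by
    ext x
    rw [mem_coe, mem_filter, mem_range]
    constructor
    · intro hx
      refine ⟨?_, hx⟩
      by_contra hh
      exact hx (hF' x (by omega))
    · intro hx
      exact hx.2
  rw [h1, Set.ncard_coe_finset] at hg
  refine ⟨?_, hg⟩
  have h2 := card_filter_add_card_filter_not (s := range (F + 1)) (fun x => x ∈ S)
  rw [card_range] at h2
  omega

open Classical in
/-- the second family -/
lemma if_family {F g : ℕ} (hF : F ∉ S) (hF' : ∀ n, F < n → n ∈ S)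
    (hg : Set.ncard {n : ℕ | n ∉ S} = g)
    (hA : ∀ a : ℕ, a ∈ A ↔ (a ∈ S ∧ a ≠ 0 ∧ ∀ x ∈ S, ∀ y ∈ S, x + y = a → x = 0 ∨ y = 0))
    (hm : m ∈ S) (hm0 : m ≠ 0) (hmin : ∀ x ∈ S, x ≠ 0 → m ≤ x) (hAm : A.card = m) (K : ℕ)
    (hK : A = insert m ((Icc 1 (m - 1)).image (fun j => K * m + j))) :
    F + 1 = A.card * (F + 1 - g) := by
  have mulS : ∀ j, j * m ∈ S := by
    intro j
    have := add_mul_mem hm S.zero_mem j
    rwa [zero_add] at this
  have hm2 : 2 ≤ m := by
    by_contra hh
    have : m = 1 := by omega
    subst this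
    exact hF (by simpa using mulS F)
  have hK1 : 1 ≤ K := by
    by_contra hh
    have : K = 0 := by omega
    subst this
    have h1 : 1 ∈ A := by
      rw [hK, mem_insert, mem_image]
      right
      exact ⟨1, by rw [mem_Icc]; omega, by omega⟩
    have := hmin 1 ((hA 1).1 h1).1 (by norm_num)
    omega
  have hchar : ∀ x, x ∈ S ↔ (m ∣ x ∨ K * m ≤ x) := by
    intro x
    constructor
    · induction x using Nat.strong_induction_on with
      | _ x ih =>
        intro hx
        by_cases x0 : x = 0
        · rw [x0]; exact Or.inl (dvd_zero m)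
        by_cases xA : x ∈ A
        · rw [hK, mem_insert, mem_image] at xA
          rcases xA with rfl | ⟨j, hj, rfl⟩
          · exact Or.inl dvd_rfl
          · exact Or.inr (by omega)
        · obtain ⟨u, hu, v, hv, u0, v0, e⟩ := decomp hA hx x0 xA
          rcases ih u (by omega) hu with h | h
          · rcases ih v (by omega) hv with h' | h'
            · left; rw [← e]; exact dvd_add h h'
            · right; omega
          · right; omega
    · rintro (⟨k, rfl⟩ | h)
      · rw [mul_comm]; exact mulS k
      · obtain ⟨t, rfl⟩ : ∃ t, x = K * m + t := ⟨x - K * m, by omega⟩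
        have e := Nat.div_add_mod t m
        by_cases h0 : t % m = 0
        · have : K * m + t = (K + t / m) * m := by
            rw [add_mul]
            have : t / m * m = m * (t / m) := mul_comm _ _
            omega
          rw [this]; exact mulS _
        · have h1 : K * m + t % m ∈ S := by
            have : K * m + t % m ∈ A := by
              rw [hK, mem_insert, mem_image]
              right
              have := Nat.mod_lt t (show m > 0 by omega)
              exact ⟨t % m, by rw [mem_Icc]; omega, rfl⟩
            exact ((hA _).1 this).1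
          have h2 := add_mul_mem hm h1 (t / m)
          have : K * m + t = K * m + t % m + t / m * m := by
            have : t / m * m = m * (t / m) := mul_comm _ _
            omega
          rw [this]; exact h2
  have hKm : 2 ≤ K * m := by nlinarith
  have hFK : F + 1 = K * m := by
    have h1 : F < K * m := by
      by_contra hh
      exact hF ((hchar F).2 (Or.inr (by omega)))
    by_contra hne
    have h2 : K * m - 1 ∈ S := hF' _ (by omega)
    rcases (hchar _).1 h2 with h | h
    · have h3 : m ∣ K * m - 1 + 1 := by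
        rw [Nat.sub_add_cancel (by omega)]; exact dvd_mul_left m K
      have h4 := (Nat.dvd_add_right h).1 h3
      have := Nat.le_of_dvd (by norm_num) h4
      omega
    · omega
  have hl : ((range (F + 1)).filter (fun x => x ∈ S)).card = K := by
    have : (range (F + 1)).filter (fun x => x ∈ S) = (range K).image (fun i => i * m) := by
      ext x
      rw [mem_filter, mem_range, mem_image, hFK, hchar]
      constructor
      · rintro ⟨h1, h2 | h2⟩
        · obtain ⟨k, rfl⟩ := h2
          refine ⟨k, ?_, by ring⟩
          rw [mem_range]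
          rw [mul_comm] at h1
          exact lt_of_mul_lt_mul_right h1 (Nat.zero_le m)
        · omega
      · rintro ⟨i, hi, rfl⟩
        rw [mem_range] at hi
        exact ⟨Nat.mul_lt_mul_of_pos_right hi (by omega), Or.inl (dvd_mul_left m i)⟩
    rw [this, card_image_of_injective, card_range]
    intro x y h
    exact Nat.eq_of_mul_eq_mul_right (by omega) h
  rw [(left_card hF' hg).1, hl, hAm, hFK]
  ring

open Classical in
/-- embedding dimension two -/
lemma if_two {F g : ℕ} (hF : F ∉ S) (hF' : ∀ n, F < n → n ∈ S)
    (hg : Set.ncard {n : ℕ | n ∉ S} = g)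
    (hA : ∀ a : ℕ, a ∈ A ↔ (a ∈ S ∧ a ≠ 0 ∧ ∀ x ∈ S, ∀ y ∈ S, x + y = a → x = 0 ∨ y = 0))
    (hA2 : A.card = 2) :
    F + 1 = A.card * (F + 1 - g) := by
  obtain ⟨a, b, hab, hAab⟩ := card_eq_two.1 hA2
  have haS : a ∈ S := ((hA a).1 (by rw [hAab]; simp)).1
  have hbS : b ∈ S := ((hA b).1 (by rw [hAab]; simp)).1
  have ha0 : a ≠ 0 := ((hA a).1 (by rw [hAab]; simp)).2.1
  have hb0 : b ≠ 0 := ((hA b).1 (by rw [hAab]; simp)).2.1
  have hgen : ∀ x, x ∈ S ↔ ∃ i j : ℕ, x = i * a + j * b := by
    intro x
    constructor
    · induction x using Nat.strong_induction_on with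
      | _ x ih =>
        intro hx
        by_cases x0 : x = 0
        · exact ⟨0, 0, by omega⟩
        by_cases xA : x ∈ A
        · rw [hAab, mem_insert, mem_singleton] at xA
          rcases xA with rfl | rfl
          · exact ⟨1, 0, by ring⟩
          · exact ⟨0, 1, by ring⟩
        · obtain ⟨u, hu, v, hv, u0, v0, e⟩ := decomp hA hx x0 xA
          obtain ⟨i, j, h⟩ := ih u (by omega) hu
          obtain ⟨i', j', h'⟩ := ih v (by omega) hv
          exact ⟨i + i', j + j', by rw [← e, h, h']; ring⟩
    · rintro ⟨i, j, rfl⟩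
      have h1 := add_mul_mem haS S.zero_mem i
      rw [zero_add] at h1
      exact add_mul_mem hbS h1 j
  have hcop : Nat.Coprime a b := by
    have h1 : a.gcd b ∣ F + 1 := by
      obtain ⟨i, j, h⟩ := (hgen (F + 1)).1 (hF' _ (by omega))
      rw [h]
      exact dvd_add (Dvd.dvd.mul_left (Nat.gcd_dvd_left a b) i) (Dvd.dvd.mul_left (Nat.gcd_dvd_right a b) j)
    have h2 : a.gcd b ∣ F + 2 := by
      obtain ⟨i, j, h⟩ := (hgen (F + 2)).1 (hF' _ (by omega))
      rw [h]
      exact dvd_add (Dvd.dvd.mul_left (Nat.gcd_dvd_left a b) i) (Dvd.dvd.mul_left (Nat.gcd_dvd_right a b) j)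
    have h3 : a.gcd b ∣ 1 := (Nat.dvd_add_right h1).1 h2
    exact Nat.dvd_one.1 h3
  -- canonical coefficient
  have hcan : ∀ n : ℕ, ∃ x, x < b ∧ x * a ≡ n [MOD b] := by
    intro n
    obtain ⟨y, hyb, hy⟩ := Nat.exists_mul_mod_eq_of_coprime n hcop hb0
    refine ⟨y, hyb, ?_⟩
    rw [mul_comm]
    exact hy
  have hin : ∀ n x : ℕ, x < b → x * a ≡ n [MOD b] → (n ∈ S ↔ x * a ≤ n) := by
    intro n x hx hxn
    constructor
    · intro hn
      obtain ⟨i, j, h⟩ := (hgen n).1 hn
      have h1 : x * a ≡ i * a [MOD b] := by
        refine hxn.trans ?_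
        rw [h]
        unfold Nat.ModEq
        rw [Nat.add_mul_mod_self_right]
      have h2 : x ≡ i [MOD b] := Nat.ModEq.cancel_right_of_coprime (by rw [Nat.gcd_comm]; exact hcop) h1
      have h3 : x ≤ i := by
        have h4 : x % b = i % b := h2
        rw [Nat.mod_eq_of_lt hx] at h4
        rw [h4]; exact Nat.mod_le _ _
      have := Nat.mul_le_mul_right a h3
      omega
    · intro h
      obtain ⟨j, hj⟩ := (Nat.modEq_iff_dvd' h).1 hxn
      rw [hgen]
      exact ⟨x, j, by rw [mul_comm j b]; omega⟩
  -- the Frobenius number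
  obtain ⟨xF, hxF, hxF'⟩ := hcan F
  have hF1 : F < xF * a := by
    have := (hin F xF hxF hxF').not.1 hF
    omega
  have hF2 : xF * a ≤ F + b := by
    rw [← hin (F + b) xF hxF]
    · exact hF' _ (by omega)
    · refine hxF'.trans ?_
      unfold Nat.ModEq
      rw [Nat.add_mod_right]
  have hF3 : xF + 1 = b := by
    by_contra hne
    have h1 : xF + 1 < b := by omega
    have h2 : (xF + 1) * a ≤ F + a := by
      rw [← hin (F + a) (xF + 1) h1]
      · exact hF' _ (by omega)
      · rw [add_mul, one_mul]
        exact hxF'.add_right a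
    rw [add_mul, one_mul] at h2
    omega
  have hF4 : xF * a = F + b := by
    obtain ⟨t, ht⟩ := (Nat.modEq_iff_dvd' hF1.le).1 hxF'.symm
    have h1 : b * t ≤ b := by omega
    have h2 : 0 < b * t := by omega
    have h3 : t = 1 := by
      have : t ≠ 0 := by rintro rfl; simp at h2
      have : t ≤ 1 := by
        by_contra hh
        have : 2 ≤ t := by omega
        have := Nat.mul_le_mul_left b this
        omega
      omega
    rw [h3] at ht
    omega
  have hsym : ∀ n, n ≤ F → (n ∈ S ↔ F - n ∉ S) := by
    intro n hn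
    constructor
    · intro h h'
      apply hF
      have := S.add_mem h h'
      rwa [Nat.add_sub_cancel' hn] at this
    · intro h
      by_contra hnS
      apply h
      obtain ⟨x, hx, hx'⟩ := hcan n
      have h1 : n < x * a := by
        have := (hin n x hx hx').not.1 hnS
        omega
      obtain ⟨t, ht⟩ := (Nat.modEq_iff_dvd' h1.le).1 hx'.symm
      have h2 : 0 < b * t := by omega
      have ht0 : t ≠ 0 := by rintro rfl; simp at h2
      obtain ⟨s, rfl⟩ : ∃ s, t = s + 1 := ⟨t - 1, by omega⟩
      obtain ⟨z, hz⟩ : ∃ z, xF = x + z := ⟨xF - x, by omega⟩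
      rw [hgen]
      refine ⟨z, s, ?_⟩
      have h3 : xF * a = x * a + z * a := by rw [hz]; ring
      have h4 : b * (s + 1) = s * b + b := by ring
      omega
  have hcard : ((range (F + 1)).filter (fun x => x ∈ S)).card =
      ((range (F + 1)).filter (fun x => x ∉ S)).card := by
    apply card_bij (fun x _ => F - x)
    · intro x hx
      rw [mem_filter, mem_range] at hx ⊢
      exact ⟨by omega, (hsym x (by omega)).1 hx.2⟩
    · intro x hx y hy e
      rw [mem_filter, mem_range] at hx hy
      omega
    · intro y hy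
      rw [mem_filter, mem_range] at hy
      refine ⟨F - y, ?_, by omega⟩
      rw [mem_filter, mem_range]
      refine ⟨by omega, ?_⟩
      have := (hsym y (by omega)).not.1 hy.2
      push Not at this
      exact this
  obtain ⟨h1, h2⟩ := left_card hF' hg
  have h3 := card_filter_add_card_filter_not (s := range (F + 1)) (fun x => x ∈ S)
  rw [card_range] at h3
  rw [hA2, h1]
  omega

end Pool.Agent.K7.H66.WM
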